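import Mathlib
import Pool.Agent.GBQ.UStmts
import Pool.Agent.SI.Stmts
import Pool.Agent.EVN.Stmts2

set_option autoImplicit false

/-!
# AAN (MP_4011c3_nt): for every `m` the exceptional `n ≤ N` are at most `(N/m) (log N)^C`

and at most `N/(log N)^A` for every `A`; `q` prime, `q ^ 2 - 2` with at most five prime factors,
`p_q - q + 1` with at most `8 log log n` prime factors, at least `n/(log n)^5` primes `p`.
Statements of the modules, with complete proofs.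
-/

namespace Pool.Agent.AAN

open Finset Filter
open Pool.Agent.GBQ (ee lam nd Admissible)
open Pool.Agent.EVN (Phi SolP DensP BigP)

/-- the sum over `q ∈ QQ`, `r < m` of the function of von Mangoldt at `n - (m q + r)` -/
noncomputable def SS (QQ : Finset ℕ) (m n : ℕ) : ℝ :=
  ∑ q ∈ QQ, ∑ r ∈ range m, lam (n - (m * q + r))

/-- `Φ n q` becomes weaker when `n` grows -/
def MonoP (Φ : ℕ → ℕ → Prop) : Prop := ∀ n n' q : ℕ, 2 ≤ n → n ≤ n' → Φ n q → Φ n' q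

/-- there are at least `c K/(1 + log K)^k` primes `q ≤ K` with the property `Φ` (`EVN.DensP` is `k = 3`) -/
def DensPk (k : ℕ) (Φ : ℕ → ℕ → Prop) : Prop := ∃ (c : ℝ) (n₁ : ℕ), 0 < c ∧ ∀ n ≥ n₁, ∀ K : ℕ,
  2 ≤ K → K ≤ n → ∃ S : Finset ℕ, (∀ q ∈ S, q ≤ K ∧ q.Prime ∧ Φ n q) ∧
    c * K / (1 + Real.log K) ^ k ≤ (S.card : ℝ)

/-- block estimate for `m ≤ X^{1/3}`, threshold `c n/(log n)^j` -/
def CorH (c : ℝ) (j : ℕ) (Φ : ℕ → ℕ → Prop) : Prop := ∃ C : ℕ, ∀ᶠ X : ℕ in atTop, ∀ m : ℕ,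
  1 ≤ m → (m : ℝ) ≤ (X : ℝ) ^ (1 / 3 : ℝ) → ∀ F : Finset ℕ,
  (∀ n ∈ F, X ≤ 2 * n ∧ 4 * n ≤ 3 * X ∧ ((SolP Φ m n).card : ℝ) < c * n / Real.log n ^ j) →
  (m : ℝ) * F.card ≤ X * Real.log X ^ C

/-- block estimate for `m ≤ (log X)^D`, threshold `c n/(log n)^j` -/
def SmlH (c : ℝ) (j : ℕ) (Φ : ℕ → ℕ → Prop) : Prop := ∀ A D : ℕ, ∀ᶠ X : ℕ in atTop, ∀ m : ℕ,
  1 ≤ m → (m : ℝ) ≤ Real.log X ^ D → ∀ F : Finset ℕ,
  (∀ n ∈ F, X ≤ 2 * n ∧ 4 * n ≤ 3 * X ∧ Admissible m n ∧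
    ((SolP Φ m n).card : ℝ) < c * n / Real.log n ^ j) → (F.card : ℝ) ≤ X / Real.log X ^ A

/-- no exceptions for `m ≥ n^{1/4+ε}`, threshold `c n/(log n)^j` -/
def T4H (c : ℝ) (j : ℕ) (Φ : ℕ → ℕ → Prop) : Prop := ∀ ε : ℝ, 0 < ε → ∃ n₀ : ℕ, ∀ n m : ℕ,
  n₀ ≤ n → (n : ℝ) ^ (1 / 4 + ε) ≤ m → 2 * m + 1 < n →
  (SolP Φ m n).Nonempty ∧ (12 * m ≤ n → c * n / Real.log n ^ j ≤ ((SolP Φ m n).card : ℝ))

/-- SUP.  The estimate of Vinogradov in terms of the distance `β = nd α` to the nearest integer.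

Proof.  `α' = α - round α`, `|α'| = β ≤ 1/2`, the sum for `α` is the sum for `α'` (`ee` of integers
is `1`).  `d = round (1/β) ≥ 2` (as a natural number), `a = ±1` with the sign of `α'`:
`|β - 1/d| = (β/d) |d - 1/β| ≤ β/(2 d) ≤ 1/d^2` since `1/β ≥ d - 1/2 ≥ d/2`.  `GBQ.St_Vin` with
`N = X`: `1/√d ≤ 2 √β` (as `d ≥ 1/β - 1/2 ≥ 1/(4 β)`), `√(X d) ≤ 2 √(X/β)` (as `d ≤ 2/β`). -/
def St_Sup : Prop := ∃ C : ℕ, ∀ (X : ℕ) (α : ℝ), 3 ≤ X → 0 < nd α →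
  ‖∑ x ∈ range (X + 1), ((lam x : ℝ) : ℂ) * ee (α * x)‖ ≤
    C * (X * Real.sqrt (nd α) + (X : ℝ) ^ (5 / 6 : ℝ) + Real.sqrt (X / nd α)) * Real.log X ^ C

/-- FOU.  Parseval for the differences `S(n + h) - S(n)`.

Proof.  `P = m P₁ > X`, everything modulo `P`.  `g(x) = lam x` for `x ≤ X`, `0` for `X < x < P`;
`w(j) = 1` if `j / m ∈ QQ`, else `0`, `j < P` (the `j = m q + r` are different and
`< P` since `q < P₁`).  For `n ∈ F` both `S(n)` and `S(n + h)` are values of the cyclic convolution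
`H = w * g` (`j ≤ n`, `n + h ≤ X < P`: no wrap).  With `ĥ(ξ) = ∑_x h(x) ee(ξ x / P)`:
`(H(· + h))^(ξ) = ee(-h ξ/P) Ĥ(ξ)`, so
`∑_{n ∈ F} (S(n+h) - S(n))^2 ≤ ∑_{n < P} |H(n+h) - H(n)|^2 = (1/P) ∑_{ξ < P} |ee(-hξ/P) - 1|^2 |ŵ|^2 |ĝ|^2`
and `|ee(-x) - 1| = |1 - ee(x)|`.
`ŵ(ξ) = (∑_{r<m} ee(r ξ/P)) W(ξ)`, `W(ξ) = ∑_{q ∈ QQ} ee(q ξ/P₁)` has period `P₁` and
`∑_{ξ in a block of length P₁} |W(ξ)|^2 = P₁ #QQ` (orthogonality, `q < P₁`).  Split `ξ < m P₁` into the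
blocks `[i P₁, (i+1) P₁)`, use the bound `G i` in each: `(1/P) ∑_i G i P₁ #QQ`.
See the proof of `GBQ.St_L2` (GBQ/L2.lean) for Parseval with explicit sums. -/
def St_Fou : Prop := ∀ (m P₁ X h : ℕ) (QQ F : Finset ℕ) (G : ℕ → ℝ), 1 ≤ m → X < m * P₁ →
  (∀ q ∈ QQ, q < P₁) → (∀ n ∈ F, n + h ≤ X ∧ ∀ q ∈ QQ, m * (q + 1) ≤ n) →
  (∀ i < m, ∀ ξ : ℕ, i * P₁ ≤ ξ → ξ < (i + 1) * P₁ →
    ‖1 - ee (h * ((ξ : ℝ) / (m * P₁)))‖ ^ 2 *
      ‖∑ r ∈ range m, ee (r * ((ξ : ℝ) / (m * P₁)))‖ ^ 2 *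
      ‖∑ x ∈ range (X + 1), ((lam x : ℝ) : ℂ) * ee ((ξ : ℝ) / (m * P₁) * x)‖ ^ 2 ≤ G i) →
  ∑ n ∈ F, (SS QQ m (n + h) - SS QQ m n) ^ 2 ≤ (QQ.card : ℝ) / m * ∑ i ∈ range m, G i

/-- VAR.  The mean square of `S(n + h) - S(n)`.

Proof.  `F = ∅` or `QQ = ∅` trivial.  `P₁ = X / m + 1` (natural division), so `X < m P₁ ≤ X + m ≤ 2X`,
and `St_Fou`.  Let `α = ξ/(m P₁) ∈ [i/m, (i+1)/m)`, `β = nd α`, `L = log X`, `t = min i (m - 1 - i)`.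
`|∑_{r<m} ee(r α)| ≤ min(m, 1/(2β))` (`GBQ.thm_Geo` or directly), `|1 - ee(h α)| ≤ min(2, 2 π h β)`.
SUP: `|∑ lam x ee(α x)|^2 ≤ 3 C^2 L^{2C} (X^2 β + X^{5/3} + X/β)` for `β > 0`.
`t ≥ 1`: `t/m ≤ β ≤ (t+1)/m ≤ 2t/m`, the product is
`≤ 4 (m/(2t))^2 3 C^2 L^{2C} (2 X^2 t/m + X^{5/3} + X m/t) =: G i`.
`t = 0` (`i = 0` or `i = m - 1`): `β ≤ 1/m`; for `β = 0` (`ξ = 0`) the product is `0`; for `β > 0` use
`min(4, (2πhβ)^2) ≤ 4 π h β` (from `min(2,y)^2 ≤ 2 y`) for the term `X/β`: product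
`≤ m^2 3 C^2 L^{2C} (4 X^2/m + 4 X^{5/3} + 13 h X) =: G i`.
Sum over `i` (each `t ≥ 1` comes from at most two `i`, `∑ 1/t ≤ 1 + log m ≤ 2 L`, `∑ 1/t^2 ≤ 2`):
`∑ G i ≤ C' L^{2C+1} (m X^2 + m^2 X^{5/3} + m^3 X + m^2 h X)`, and divided by `m`:
`≤ C' L^{2C+1} X^2 (1 + m X^{-1/3} + m^2/X + m h/X) ≤ 4 C' L^{2C+1} X^2 ≤ L^{2C+2} X^2`. -/
def St_Var : Prop := ∃ C : ℕ, ∀ᶠ X : ℕ in atTop, ∀ (m h : ℕ) (QQ F : Finset ℕ), 1 ≤ m →
  (m : ℝ) ≤ (X : ℝ) ^ (1 / 3 : ℝ) → (h : ℝ) ≤ (X : ℝ) ^ (1 / 2 : ℝ) →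
  (∀ q ∈ QQ, 8 * m * q ≤ X) → (∀ n ∈ F, X ≤ 2 * n ∧ 4 * n ≤ 3 * X) →
  ∑ n ∈ F, (SS QQ m (n + h) - SS QQ m n) ^ 2 ≤ QQ.card * (X : ℝ) ^ 2 * Real.log X ^ C

/-- AVG.  The mean of `S(n + h)` over `h < H` is large for EVERY `n`.

Proof.  `SI.St_Gap` (constant `c₀`) with `ε = 1/8`, `A = B + 2`, for `X' = X / 4` and `X'' = X / 2` (natural
divisions): with `h₀ = X^{3/8}` the set `E` of `x ∈ [X/4 - 1, X]` with
fewer than `c₀ (X')^{3/8} / log X'` primes in `(x, x + (X')^{3/8}]` resp. with `X''` has at most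
`3 X/(log X')^{B+2}` elements.  Let `J` be the set of the `j = m q + r`, `q ∈ QQ`, `r < m`: `m #QQ`
numbers, `j ≤ X/8 + m ≤ 3X/16`, so `n - j ∈ [X/4, 3X/4]` and `n - j + H ≤ X - h₀`.
Call `j` bad if `[n - j, n - j + H)` contains more than `H/2` elements of `E`; counting pairs
`(j, x)`, `x ∈ E`, `n - j ≤ x < n - j + H` (at most `H` values of `j` for each `x`): `#bad ≤ 2 #E`
`≤ m #QQ/2`.  If `j` is not bad: at least `H/2 - h₀ - 1 ≥ H/4` of the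
`x ∈ [n - j, n - j + H - h₀ - 1)` are not in `E`, each has `≥ c₀ h₀/(2 log X)` primes in `(x, x + h₀]`,
all these primes lie in `[n - j, n - j + H)` and each prime is counted at most `h₀ + 1` times:
so at least `c₁ H/log X` primes in `[n - j, n - j + H)`, `∑_{h<H} lam(n + h - j) ≥ c₁ H (log (X/4))/log X
≥ (c₁/2) H`.  (`n + h - (m q + r)` natural subtraction is `n - j + h`.)  Sum over the `j` that are
not bad, at least `m #QQ/2`; all terms are nonnegative. -/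
def St_Avg : Prop := ∃ c : ℝ, 0 < c ∧ ∀ B : ℕ, ∀ᶠ X : ℕ in atTop, ∀ (m n H : ℕ) (QQ : Finset ℕ),
  1 ≤ m → 16 * m ≤ X → H = ⌊(X : ℝ) ^ (1 / 2 : ℝ)⌋₊ → (∀ q ∈ QQ, 8 * m * q ≤ X) →
  X ≤ 2 * n → 4 * n ≤ 3 * X → (X : ℝ) / Real.log X ^ B ≤ m * QQ.card →
  c * H * (m * QQ.card) ≤ ∑ h ∈ range H, SS QQ m (n + h)

/-- COR.  The exceptional set in a block, for `m ≤ X^{1/3}`.

Proof.  Let `n₀ = (X + 1)/2` (natural division; every `n` of the block is `≥ n₀`), `K = X / (8 m)`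
(`2 ≤ K ≤ n₀`), `QQ` from `DensPk k Φ` for `n₀`, `K`: `#QQ ≥ c₁ K/(1 + log K)^k`, so
`m #QQ ≥ c₂ X/(log X)^k` (`K ≥ X/(16 m)`).  `H = ⌊X^{1/2}⌋`.  `c` (the constant of the threshold) is small in
terms of `c₂` and the constant `c₀` of AVG.
For `n ∈ F`: `S(n) = SS QQ m n = ∑_{j} lam(n - j)`, `j = m q + r`; if `n - j = p` is prime then `p < n`,
`(n - p)/m = j/m = q` is prime with `Φ n q` (`MonoP`), so `p ∈ SolP Φ m n`, different `j` give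
different `p`: these terms give at most `log X · #SolP ≤ log X · c n/(log n)^{k+1} ≤ 2^{k+1} c X/(log X)^k`.
The other terms: `n - j` a proper prime power, at most `C √X log X` such numbers, total
`≤ C √X (log X)^2` (see `coreu_PP` in GBQ/CoreUB.lean or CoreUA.lean, from `GBQ.St_Bad`, which is
proved: `GBQ.thm_Bad`).  So `S(n) ≤ (c₀/4) m #QQ`, and
`∑_{h<H} (S(n+h) - S(n)) ≥ (3c₀/4) H m #QQ`, Cauchy-Schwarz: `∑_{h<H} (S(n+h) - S(n))^2 ≥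
(9c₀^2/16) H (m #QQ)^2`.  Sum over `n ∈ F` and VAR for every `h < H`:
`#F (9c₀^2/16) H (m #QQ)^2 ≤ H #QQ X^2 (log X)^C`, so `m #F ≤ C' X^2 (log X)^C/(m #QQ)
≤ X (log X)^{C+k+1}`. -/
def St_Cor : Prop := ∀ (k : ℕ) (Φ : ℕ → ℕ → Prop), DensPk k Φ → MonoP Φ →
  ∃ c : ℝ, 0 < c ∧ CorH c (k + 1) Φ

/-- OMB.  The number of the `q` for which `p_q - q + 1` has too many prime factors.

Proof.  Inside the proof of `EVN.thm_QKO` (EVN/QKO.lean): `q ↦ p_q - q + 1` is injective on `q ≥ 2`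
with values in `[1, p_K]`, `St_Ome` with `T = 8 log log n`, `(19/10)^{-8 log log n} ≤ (log n)^{-5}` times
`p_K (log p_K)^{9/10} ≤ C K (log n)^{19/10}`: at most `C K (log n)^{-31/10}`.  NOTE: `qko_z` of QKO.lean
gives only exponent `5`; here `8 log (19/10) = 5.134...` is needed: `(19/10)^{-8 log L} ≤ L^{-51/10}`, so the bound is
`C K (log n)^{-32/10}` and we state `C K (log n)^{-31/10}`. -/
def St_OmB : Prop := ∃ (C : ℝ) (n₁ : ℕ), 0 < C ∧ ∀ n ≥ n₁, ∀ K : ℕ, 2 ≤ K → K ≤ n →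
  (((Icc 2 K).filter (fun q => 8 * Real.log (Real.log n) <
    (ArithmeticFunction.cardFactors (Nat.nth Nat.Prime (q - 1) - q + 1) : ℝ))).card : ℝ) ≤
    C * K / Real.log n ^ (31 / 10 : ℝ)

/-- SML.  Small `m`, any power of the logarithm saved.

Proof.  Given `A`, `D`.  `GBQ.St_Core` (constant `c`) with exponent `A' = A + 2 D + 1`.  For fixed `m` let `E` be the
set of the `n'` with `X ≤ 2 (n' + m)`, `4 n' ≤ 3 X`, `n'` coprime to `m`, `n' + m` odd, for which every finite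
set `S` of `k` with `Rep m n' k` has fewer than `c X/(m (log X)^3)` elements: `#E ≤ X/(log X)^{A'}`.
Exclude from `F` all `n` with some `r < m`, `n - r ∈ E`: at most `m #E ≤ X/(log X)^{A' - D}` of them.  Any
other `n` of the block: let `R` be the set of the `r < m` with `n - r` coprime to `m` and `n - r + m` odd;
`#R ≥ m/(C_g (1 + log m))` if `m ≥ m₀` (`GBQ.St_Good`), `#R ≥ 1` if `m < m₀` (`GBQ.St_Red`).  For each
`r ∈ R` there are `≥ c X/(m (log X)^3)` numbers `k` with `Rep m (n - r) k`, then `p = n - r - m k` is prime, `p < n`,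
`(n - p)/m = k` is prime and `k^2 - 2` has at most five prime factors; different `(r, k)` give different `p`
(`r + m k` determines `r`, `k`).  So at least `c' X/((1 + log m) (log X)^3) ≥ X/(log X)^{3 + 1/20}` primes `p`
(`log m ≤ D log log X`).  Remove those with
`Ω(p_k - k + 1) > 8 log log n`: each bad `k ≤ n/m` belongs to at most `m` primes `p`
(`n - p ∈ [m k, m k + m)`), so at most `m C (n/m) (log n)^{-31/10} ≤ C n (log n)^{-31/10}` by OMB.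
The rest is `≥ n/(log n)^5` elements of `SolP Phi m n`.  So `F` has only excluded elements. -/
def St_Sml : Prop := SmlH 1 5 Phi

/-- DEQ.  Primes `q ≤ K` with `Phi`, right order of magnitude.

Proof.  Without the condition on `p_q - q + 1`: `GBQ.St_Low` with `m = 1`, `X = 8 K`, sum over the `n` of the block
`[X/2, 3X/4]`, `n` even (about `X/8` of them; `m = 1`, `n + 1` odd): `∑_n ∑_k Tw(k) LamS(n - k) ≥ c₁ (X/8) K/log X`.  For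
fixed `k` with `Tw(k) ≠ 0` (`k` odd or `2`; `n - k` in a window of length `X/4`) `∑_n LamS(n - k) ≤ C X` (e.g. compare with
`∑_{y ≤ X} LamS y ≤ C X`: the number of `z`-rough `y ≤ X` is `≤ C X rho(z)`, from `GBQ.St_Bonf`, `St_Esym`, `St_Trunc`
as in GBQ/Short.lean, or by periodicity modulo `∏ p`), so `∑_{k, Tw(k) > 0} Tw(k) ≥ c₂ K/log X`; the `k` with
`Tw(k) > 0` that are not prime, `≤ z`, or with `p^2 ∣ k^2 - 2`, `z < p ≤ y`, are negligible by Cauchy-Schwarz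
(second moment in `St_Low`, `St_Bad`), for the others `Tw(k) ≤ C log K` and `k` is prime with
`Ω(k^2 - 2) ≤ 5`: at least `c K/(log X)^2` of them.  Then remove the `q` of OMB
(`≤ C K (log n)^{-31/10}`); small `K` as in `EVN.thm_QKO` (`q = 2`). -/
def St_DeQ : Prop := DensPk 2 Phi

/-- SMR.  As SML with the right order of magnitude `c n/(log n)^3` (helper76).

Proof.  As SML with a core estimate with `c X/(φ(m) (log X)^3)` in place of `c X/(m (log X)^3)`: in `GBQ.St_Low`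
the local factors of the `p ∣ m`, `p > 2`, are `(p - 1 - r)/(p - 2 - r) ≥ p/(p-1)` times larger than used, all `p ∣ m` are
`≤ z` since `m ≤ (log X)^D ≤ z`; and `#R ≥ c φ(m)` (inside the proof of `GBQ.thm_Good`). -/
def St_SmR : Prop := ∃ c : ℝ, 0 < c ∧ SmlH c 3 Phi

/-- T4R.  The proof of `EVN.thm_T4G` with `DensPk 2` gives the right order of magnitude. -/
def St_T4R : Prop := DensPk 2 Phi → ∃ c : ℝ, 0 < c ∧ T4H c 3 Phi

/-- DYA.  From blocks to all `n ≤ N`.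

Proof.  Strong induction on `N`, or: cover `n ≤ N` by `n < X₀` and blocks.  For `N ≥ X₀` take
`X = (4 N + 2)/3` (natural division, the least `X` with `4 N ≤ 3 X`; `X ≥ X₀`): the block
contains the `n` with `(X+1)/2 ≤ n ≤ N`; the others have `n ≤ (X - 1)/2 =: N' < N`, `N' ≤ 2N/3`.  Claim
`#F ≤ X₀ + 8 D N`: `D X ≤ D (4N + 2)/3 ≤ 2 D N` and `8 D N' ≤ 16 D N/3`, sum `≤ 8 D N`. -/
def St_Dya : Prop := ∀ (P : ℕ → Prop) (X₀ : ℕ) (D : ℝ), 1 ≤ X₀ → 0 ≤ D → ∀ N : ℕ,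
  (∀ X : ℕ, X₀ ≤ X → X ≤ 2 * N → ∀ F : Finset ℕ,
    (∀ n ∈ F, X ≤ 2 * n ∧ 4 * n ≤ 3 * X ∧ P n) → (F.card : ℝ) ≤ D * X) →
  ∀ F : Finset ℕ, (∀ n ∈ F, n ≤ N ∧ P n) → (F.card : ℝ) ≤ X₀ + 8 * D * N

/-- the exceptional set is small: at most `N/(log N)^A` and at most `N (log N)^C/m` elements -/
def FinH (c : ℝ) (j : ℕ) (Φ : ℕ → ℕ → Prop) : Prop := ∃ C : ℕ, ∀ A : ℕ, ∃ N₀ : ℕ, ∀ N ≥ N₀,
  ∀ m : ℕ, ∀ F : Finset ℕ, (∀ n ∈ F, n ≤ N ∧ Admissible m n ∧ (SolP Φ m n = ∅ ∨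
    (12 * m ≤ n ∧ ((SolP Φ m n).card : ℝ) < c * n / Real.log n ^ j))) →
  (F.card : ℝ) ≤ N / Real.log N ^ A ∧ (m : ℝ) * F.card ≤ N * Real.log N ^ C

/-- FIN.  The theorem.

Proof.  Bad means `SolP Φ m n = ∅` or (`12 m ≤ n` and `#SolP < c n/(log n)^j`).  Let `n₁` be the threshold of
`T4H` for `ε = 1/28` (`1/4 + 1/28 = 2/7`), `C₀`, `X₁` from `CorH`.
(I) `m #F ≤ N (log N)^{C}`, `C = C₀ + 1`: if `n ∈ F`, `n ≥ n₁`, then not `m ≥ n^{2/7}` (`T4H`), so `m < n^{2/7} ≤ X^{1/3}`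
for every block `X` that contains `n`, and `12 m ≤ n` for `n ≥ n₂`, so `#SolP < c n/(log n)^j` in both cases
(`0 <`).  Let `X₀` be large (`≥ 2 n₁ + 2 n₂ + X₁ + 2`).  `St_Dya` with `P n := Admissible m n ∧ bad`,
`D = (log (2 N))^{C₀}/m` (`m ≥ 1` by admissibility if `F ≠ ∅`): a block set with `X ≥ X₀` is empty or `m ≤ X^{1/3}`
and `CorH` applies.  So `#F ≤ X₀ + 8 N (log 2N)^{C₀}/m`.  If `m ≤ N/X₀`: `m X₀ ≤ N`, fine.  If `m > N/X₀`: all `n ∈ F`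
satisfy `n ≤ N < m X₀`, so `m > n/X₀ ≥ n^{2/7}` for `n ≥ n₃`; and `n > 2 m + 1 > N/X₀ ≥ n₁ + n₃`; so `F = ∅`.
(II) `#F ≤ N/(log N)^A`: if `m ≥ (log N)^{A + C}` from (I); otherwise `SmlH` with `A + 2`, `D = A + C + 1`, in the
blocks `X ≥ √N` (`log X ≥ (1/2) log N`, `m ≤ (log N)^{A+C} ≤ (log X)^{A+C+1}`, `12 m ≤ n`): `St_Dya` with
`X₀ = ⌈√N⌉ + X₂`, `D = 2^{A+2}/(log N)^{A+2}`. -/
def St_Fin : Prop := ∀ (c : ℝ) (j : ℕ) (Φ : ℕ → ℕ → Prop), 0 < c → CorH c j Φ → SmlH c j Φ →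
  T4H c j Φ → FinH c j Φ

end Pool.Agent.AAN
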