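import Mathlib
import Pool.Agent.AAN.Stmts

set_option autoImplicit false

/-! Assembly from hypotheses (test). -/

namespace Pool.Agent.AAN

open Finset Filter
open Pool.Agent.GBQ (Admissible)
open Pool.Agent.EVN (Phi SolP DensP BigP)

theorem asm_cor {c c' : ℝ} {j j' : ℕ} {Φ : ℕ → ℕ → Prop} (hjj : j + 1 ≤ j') (hc : 0 < c)
    (h : CorH c j Φ) : CorH c' j' Φ := by
  obtain ⟨C, h⟩ := h
  refine ⟨C, ?_⟩
  have h1 : ∀ᶠ X : ℕ in atTop, |c'| / c ≤ Real.log X - 1 := by
    have := (Real.tendsto_log_atTop.comp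
      (tendsto_natCast_atTop_atTop (R := ℝ))).eventually_ge_atTop (|c'| / c + 1)
    filter_upwards [this] with X hX
    rw [Function.comp] at hX
    linarith
  filter_upwards [h, h1, eventually_ge_atTop 16] with X hX h1 h16
  intro m hm hmX F hF
  refine hX m hm hmX F fun n hn => ?_
  obtain ⟨g1, g2, g3⟩ := hF n hn
  refine ⟨g1, g2, lt_of_lt_of_le g3 ?_⟩
  have hX0 : (0 : ℝ) < X := by
    have : (16 : ℝ) ≤ X := by exact_mod_cast h16
    linarith
  have hn0 : (0 : ℝ) < n := by
    have : (X : ℝ) ≤ 2 * n := by exact_mod_cast g1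
    linarith
  have hlog : Real.log X - 1 ≤ Real.log n := by
    have e1 : Real.log X ≤ Real.log (2 * n) := Real.log_le_log hX0 (by exact_mod_cast g1)
    rw [Real.log_mul (by norm_num) hn0.ne'] at e1
    have := Real.log_two_lt_d9
    linarith
  have hl1 : 1 ≤ Real.log n := by
    rw [Real.le_log_iff_exp_le hn0]
    have e2 : (8 : ℝ) ≤ n := by
      have : (X : ℝ) ≤ 2 * n := by exact_mod_cast g1
      have : (16 : ℝ) ≤ X := by exact_mod_cast h16
      linarith
    have := Real.exp_one_lt_d9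
    linarith
  rw [div_le_div_iff₀ (by positivity) (by positivity)]
  have e3 : c' ≤ c * Real.log n := by
    have : |c'| ≤ c * Real.log n := by
      have e4 : |c'| / c ≤ Real.log n := h1.trans hlog
      rw [div_le_iff₀ hc] at e4
      linarith
    exact (le_abs_self c').trans this
  have e5 : Real.log n ^ (j + 1) ≤ Real.log n ^ j' := pow_le_pow_right₀ hl1 hjj
  calc c' * n * Real.log n ^ j ≤ c * Real.log n * n * Real.log n ^ j := by gcongr
    _ = c * n * Real.log n ^ (j + 1) := by ring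
    _ ≤ c * n * Real.log n ^ j' := by gcongr

theorem asm_one (hD : DensP Phi) (hM : MonoP Phi) (h1 : St_Cor) (h2 : St_Sml)
    (h3 : T4H 1 5 Phi) (h4 : St_Fin) : FinH 1 5 Phi := by
  obtain ⟨c, hc, h5⟩ := h1 3 Phi hD hM
  exact h4 1 5 Phi one_pos (asm_cor (j' := 5) (by norm_num) hc h5) h2 h3

theorem asm_monoP : MonoP Phi := by
  intro n n' q h2 h h1
  obtain ⟨g1, g2⟩ := h1
  refine ⟨g1, g2.trans ?_⟩
  have e1 : 0 < Real.log n := Real.log_pos (by exact_mod_cast (by omega : 1 < n))
  have e2 : Real.log n ≤ Real.log n' :=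
    Real.log_le_log (by exact_mod_cast (by omega : 0 < n)) (by exact_mod_cast h)
  have e3 := Real.log_le_log e1 e2
  linarith

end Pool.Agent.AAN
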