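import Mathlib
import Pool.Agent.AAN.Stmts

set_option autoImplicit false

/-!
# AAN / Avg: the mean of `S(n + h)` over `h < H` is large for every `n`
-/

namespace Pool.Agent.AAN

open Finset Filter
open Pool.Agent.GBQ (ee lam nd Admissible)
open Pool.Agent.EVN (Phi SolP DensP BigP)

/-- comparison of the counts -/
theorem avg_cnt {c₀ : ℝ} (hc₀ : 0 < c₀) {X Y x h₀ : ℕ} (hX : 1 ≤ X) (hY1 : (X : ℝ) / 5 ≤ Y)
    (hY2 : (Y : ℝ) ≤ X) (hY3 : 3 ≤ Y) (hh : h₀ = ⌈(X : ℝ) ^ (3 / 8 : ℝ)⌉₊)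
    (h : ¬ ((((Icc Y (3 * Y)).filter (fun p : ℕ => p.Prime ∧ x < p ∧
      (p : ℝ) ≤ x + (Y : ℝ) ^ (1 / 4 + 1 / 8 : ℝ))).card : ℝ) ≤
        c₀ * (Y : ℝ) ^ (1 / 4 + 1 / 8 : ℝ) / Real.log Y)) :
    c₀ / 4 * h₀ / Real.log X ≤ (((Ioc x (x + h₀)).filter Nat.Prime).card : ℝ) := by
  have h38 : (1 / 4 + 1 / 8 : ℝ) = 3 / 8 := by norm_num
  rw [h38] at h
  have hXr : (1 : ℝ) ≤ X := by exact_mod_cast hX
  have hX0 : (0 : ℝ) < X := by linarith
  have hYr : (3 : ℝ) ≤ Y := by exact_mod_cast hY3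
  have hP0 : (1 : ℝ) ≤ (X : ℝ) ^ (3 / 8 : ℝ) := Real.one_le_rpow hXr (by norm_num)
  have hh1 : (h₀ : ℝ) < (X : ℝ) ^ (3 / 8 : ℝ) + 1 := by
    rw [hh]
    exact Nat.ceil_lt_add_one (by linarith)
  have hh2 : (X : ℝ) ^ (3 / 8 : ℝ) ≤ h₀ := by
    rw [hh]
    exact Nat.le_ceil _
  have hlogY : 0 < Real.log Y := Real.log_pos (by linarith)
  have hlogYX : Real.log Y ≤ Real.log X := Real.log_le_log (by linarith) hY2
  have hsub : ((Icc Y (3 * Y)).filter (fun p : ℕ => p.Prime ∧ x < p ∧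
      (p : ℝ) ≤ x + (Y : ℝ) ^ (3 / 8 : ℝ))) ⊆ (Ioc x (x + h₀)).filter Nat.Prime := by
    intro p hp
    obtain ⟨hp1, hp2, hp3, hp4⟩ := mem_filter.1 hp
    rw [mem_filter, mem_Ioc]
    refine ⟨⟨hp3, ?_⟩, hp2⟩
    have h1 : (Y : ℝ) ^ (3 / 8 : ℝ) ≤ (X : ℝ) ^ (3 / 8 : ℝ) :=
      Real.rpow_le_rpow (by linarith) hY2 (by norm_num)
    have h2 : (p : ℝ) ≤ ((x + h₀ : ℕ) : ℝ) := by
      push_cast
      linarith
    exact_mod_cast h2
  have h1 : (((Icc Y (3 * Y)).filter (fun p : ℕ => p.Prime ∧ x < p ∧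
      (p : ℝ) ≤ x + (Y : ℝ) ^ (3 / 8 : ℝ))).card : ℝ) ≤
      (((Ioc x (x + h₀)).filter Nat.Prime).card : ℝ) := by
    exact_mod_cast card_le_card hsub
  refine le_trans ?_ ((not_le.1 h).le.trans h1)
  have h2 : (1 / 2 : ℝ) * (X : ℝ) ^ (3 / 8 : ℝ) ≤ (Y : ℝ) ^ (3 / 8 : ℝ) := by
    have h3 : ((1 / 5 : ℝ) * X) ^ (3 / 8 : ℝ) ≤ (Y : ℝ) ^ (3 / 8 : ℝ) :=
      Real.rpow_le_rpow (by positivity) (by linarith) (by norm_num)
    rw [Real.mul_rpow (by norm_num) hX0.le] at h3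
    have h4 : (1 / 2 : ℝ) ≤ (1 / 5 : ℝ) ^ (3 / 8 : ℝ) := by
      have h5 : ((1 / 2 : ℝ) ^ (8 / 3 : ℝ)) ^ (3 / 8 : ℝ) = 1 / 2 := by
        rw [← Real.rpow_mul (by norm_num)]
        norm_num
      rw [← h5]
      apply Real.rpow_le_rpow (by positivity) _ (by norm_num)
      have h6 : ((1 / 2 : ℝ) ^ (8 / 3 : ℝ)) ^ 3 = (1 / 2) ^ 8 := by
        rw [← Real.rpow_natCast, ← Real.rpow_mul (by norm_num)]
        norm_num
      by_contra hcon
      have h7 : (1 / 5 : ℝ) ^ 3 < ((1 / 2 : ℝ) ^ (8 / 3 : ℝ)) ^ 3 :=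
        pow_lt_pow_left₀ (not_le.1 hcon) (by norm_num) (by norm_num)
      rw [h6] at h7
      norm_num at h7
    calc (1 / 2 : ℝ) * (X : ℝ) ^ (3 / 8 : ℝ) ≤ (1 / 5 : ℝ) ^ (3 / 8 : ℝ) * (X : ℝ) ^ (3 / 8 : ℝ) :=
          mul_le_mul_of_nonneg_right h4 (by positivity)
      _ ≤ _ := h3
  calc c₀ / 4 * h₀ / Real.log X ≤ c₀ * (Y : ℝ) ^ (3 / 8 : ℝ) / Real.log X := by
        apply div_le_div_of_nonneg_right _ (by linarith)
        nlinarith
    _ ≤ c₀ * (Y : ℝ) ^ (3 / 8 : ℝ) / Real.log Y :=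
        div_le_div_of_nonneg_left (by positivity) hlogY hlogYX

/-- the exceptional set -/
theorem avg_E (h : Pool.Agent.SI.St_Gap) : ∃ c₁ : ℝ, 0 < c₁ ∧ ∀ B : ℕ, ∀ᶠ X : ℕ in atTop,
    ∃ E : Finset ℕ, (E.card : ℝ) ≤ X / (4 * Real.log X ^ B) ∧
      ∀ x : ℕ, x ∉ E → X / 4 ≤ x → x + 2 ≤ X →
        c₁ * (⌈(X : ℝ) ^ (3 / 8 : ℝ)⌉₊ : ℝ) / Real.log X ≤
          (((Ioc x (x + ⌈(X : ℝ) ^ (3 / 8 : ℝ)⌉₊)).filter Nat.Prime).card : ℝ) := by
  obtain ⟨c₀, hc₀, h⟩ := h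
  refine ⟨c₀ / 4, by positivity, fun B => ?_⟩
  obtain ⟨X₀, hX₀⟩ := h (1 / 8) (B + 2) (by norm_num) (by norm_num)
  filter_upwards [eventually_ge_atTop (4 * X₀ + 100),
    (Real.tendsto_log_atTop.comp tendsto_natCast_atTop_atTop).eventually_ge_atTop
      ((3 : ℝ) * 2 ^ (B + 2))] with X hX hlog
  have hlog : (3 : ℝ) * 2 ^ (B + 2) ≤ Real.log X := hlog
  classical
  set P : ℕ → ℕ → Prop := fun Y x => (((Icc Y (3 * Y)).filter (fun p : ℕ => p.Prime ∧ x < p ∧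
      (p : ℝ) ≤ x + (Y : ℝ) ^ (1 / 4 + 1 / 8 : ℝ))).card : ℝ) ≤
        c₀ * (Y : ℝ) ^ (1 / 4 + 1 / 8 : ℝ) / Real.log Y with hP
  have hXr : (100 : ℝ) ≤ X := by
    have : 100 ≤ X := by omega
    exact_mod_cast this
  have hX0 : (0 : ℝ) < X := by linarith
  have hY1 : (X : ℝ) / 5 ≤ ((X / 4 : ℕ) : ℝ) := by
    have h1 : X ≤ 5 * (X / 4) := by omega
    have h2 : (X : ℝ) ≤ 5 * ((X / 4 : ℕ) : ℝ) := by exact_mod_cast h1
    linarith
  have hY2 : (X : ℝ) / 5 ≤ ((X / 2 : ℕ) : ℝ) := by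
    have h1 : X ≤ 5 * (X / 2) := by omega
    have h2 : (X : ℝ) ≤ 5 * ((X / 2 : ℕ) : ℝ) := by exact_mod_cast h1
    linarith
  have hY1' : ((X / 4 : ℕ) : ℝ) ≤ X / 4 := Nat.cast_div_le
  have hY2' : ((X / 2 : ℕ) : ℝ) ≤ X / 2 := Nat.cast_div_le
  have hcard : ∀ Y : ℕ, X₀ ≤ Y → (X : ℝ) / 5 ≤ Y → 
      ((((Icc Y (2 * Y)).filter (P Y)).card : ℕ) : ℝ) ≤ Y * (2 ^ (B + 2) / Real.log X ^ (B + 2)) := by
    intro Y hY hY5
    have h1 := hX₀ Y hY ((Icc Y (2 * Y)).filter (P Y)) (fun x hx => by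
      obtain ⟨hx1, hx2⟩ := mem_filter.1 hx
      rw [mem_Icc] at hx1
      exact ⟨hx1.1, hx1.2, hx2⟩)
    refine h1.trans ?_
    have hY0 : (0 : ℝ) < Y := by linarith
    have h2 : Real.log X / 2 ≤ Real.log Y := by
      have h3 : Real.log X ≤ Real.log ((Y : ℝ) ^ 2) := by
        apply Real.log_le_log hX0
        nlinarith
      rw [Real.log_pow] at h3
      push_cast at h3
      linarith
    have hl : 0 < Real.log X := Real.log_pos (by linarith)
    have hlY : 0 < Real.log Y := by linarith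
    rw [mul_div_assoc', div_le_div_iff₀ (by positivity) (by positivity)]
    have h4 : Real.log X ^ (B + 2) ≤ 2 ^ (B + 2) * Real.log Y ^ (B + 2) := by
      rw [← mul_pow]
      exact pow_le_pow_left₀ hl.le (by linarith) _
    calc (Y : ℝ) * Real.log X ^ (B + 2) ≤ Y * (2 ^ (B + 2) * Real.log Y ^ (B + 2)) :=
          mul_le_mul_of_nonneg_left h4 hY0.le
      _ = _ := by ring
  refine ⟨(Icc (X / 4) (2 * (X / 4))).filter (P (X / 4)) ∪
    (Icc (X / 2) (2 * (X / 2))).filter (P (X / 2)), ?_, ?_⟩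
  · have h1 := hcard (X / 4) (by omega) hY1
    have h2 := hcard (X / 2) (by omega) hY2
    have h3 : ((((Icc (X / 4) (2 * (X / 4))).filter (P (X / 4)) ∪
        (Icc (X / 2) (2 * (X / 2))).filter (P (X / 2))).card : ℕ) : ℝ) ≤
        ((((Icc (X / 4) (2 * (X / 4))).filter (P (X / 4))).card : ℕ) : ℝ) +
        ((((Icc (X / 2) (2 * (X / 2))).filter (P (X / 2))).card : ℕ) : ℝ) := by
      exact_mod_cast card_union_le _ _
    refine h3.trans ((add_le_add h1 h2).trans ?_)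
    have hl : 1 ≤ Real.log X := by
      have : (1 : ℝ) ≤ 2 ^ (B + 2) := one_le_pow₀ (by norm_num)
      linarith
    have h4 : (0 : ℝ) ≤ 2 ^ (B + 2) / Real.log X ^ (B + 2) := by positivity
    calc ((X / 4 : ℕ) : ℝ) * (2 ^ (B + 2) / Real.log X ^ (B + 2)) +
          ((X / 2 : ℕ) : ℝ) * (2 ^ (B + 2) / Real.log X ^ (B + 2))
        ≤ (X / 4 + X / 2) * (2 ^ (B + 2) / Real.log X ^ (B + 2)) := by
          rw [← add_mul]
          exact mul_le_mul_of_nonneg_right (by linarith) h4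
      _ = (3 * 2 ^ (B + 2)) * X / (4 * (Real.log X * (Real.log X * Real.log X ^ B))) := by
          rw [pow_add (Real.log X), pow_two (Real.log X)]
          have : Real.log X ≠ 0 := by linarith
          field_simp
          ring
      _ ≤ Real.log X * X / (4 * (Real.log X * (Real.log X * Real.log X ^ B))) := by
          gcongr
      _ ≤ X / (4 * Real.log X ^ B) := by
          have hne : Real.log X ≠ 0 := by linarith
          rw [div_le_div_iff₀ (by positivity) (by positivity)]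
          have h5 : (0 : ℝ) ≤ X * (Real.log X * Real.log X ^ B) := by positivity
          nlinarith
  · intro x hx hx1 hx2
    rw [mem_union, not_or] at hx
    by_cases hx3 : x ≤ 2 * (X / 4)
    · refine avg_cnt hc₀ (by omega) hY1 (by linarith) (by omega) rfl ?_
      intro hcon
      exact hx.1 (mem_filter.2 ⟨mem_Icc.2 ⟨hx1, hx3⟩, hcon⟩)
    · refine avg_cnt hc₀ (by omega) hY2 (by linarith) (by omega) rfl ?_
      intro hcon
      exact hx.2 (mem_filter.2 ⟨mem_Icc.2 ⟨by omega, by omega⟩, hcon⟩)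

/-- one interval -/
theorem avg_int {c₁ L : ℝ} (hc₁ : 0 < c₁) (hL : 0 < L) {y H h₀ : ℕ} {E : Finset ℕ} (hh0 : 1 ≤ h₀)
    (hh : 4 * h₀ ≤ H) (hE : 2 * (E.filter (fun x => y ≤ x ∧ x < y + H)).card ≤ H)
    (hy : L / 2 ≤ Real.log y) (hy0 : 1 ≤ y)
    (h : ∀ x : ℕ, x ∉ E → y ≤ x → x < y + H →
      c₁ * h₀ / L ≤ (((Ioc x (x + h₀)).filter Nat.Prime).card : ℝ)) :
    c₁ / 8 * H ≤ ∑ k ∈ range H, lam (y + k) := by
  set P := (Ico y (y + H)).filter Nat.Prime with hP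
  set G := (Ico y (y + (H - h₀))).filter (fun x => x ∉ E) with hG
  have hGcard : (H : ℝ) / 4 ≤ G.card := by
    have h1 : (Ico y (y + (H - h₀))).card = G.card +
        ((Ico y (y + (H - h₀))).filter (fun x => ¬ x ∉ E)).card :=
      (card_filter_add_card_filter_not _).symm
    have h2 : ((Ico y (y + (H - h₀))).filter (fun x => ¬ x ∉ E)).card ≤
        (E.filter (fun x => y ≤ x ∧ x < y + H)).card := by
      apply card_le_card
      intro x hx
      obtain ⟨hx1, hx2⟩ := mem_filter.1 hx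
      rw [mem_Ico] at hx1
      exact mem_filter.2 ⟨not_not.1 hx2, hx1.1, by omega⟩
    rw [Nat.card_Ico] at h1
    have h3 : H ≤ 4 * G.card := by omega
    have h4 : (H : ℝ) ≤ 4 * G.card := by exact_mod_cast h3
    linarith
  have hdc : ∑ x ∈ G, (P.filter (fun p => x < p ∧ p ≤ x + h₀)).card =
      ∑ p ∈ P, (G.filter (fun x => x < p ∧ p ≤ x + h₀)).card :=
    sum_card_bipartiteAbove_eq_sum_card_bipartiteBelow (fun x p => x < p ∧ p ≤ x + h₀)
  have hup : ∑ p ∈ P, (G.filter (fun x => x < p ∧ p ≤ x + h₀)).card ≤ P.card * h₀ := by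
    rw [← smul_eq_mul]
    apply sum_le_card_nsmul
    intro p _
    have h1 : G.filter (fun x => x < p ∧ p ≤ x + h₀) ⊆ Ico (p - h₀) p := by
      intro x hx
      obtain ⟨-, hx2, hx3⟩ := mem_filter.1 hx
      rw [mem_Ico]
      omega
    have h2 := card_le_card h1
    rw [Nat.card_Ico] at h2
    omega
  have hlow : (G.card : ℝ) * (c₁ * h₀ / L) ≤
      ((∑ x ∈ G, (P.filter (fun p => x < p ∧ p ≤ x + h₀)).card : ℕ) : ℝ) := by
    push_cast
    rw [← nsmul_eq_mul]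
    apply card_nsmul_le_sum
    intro x hx
    obtain ⟨hx1, hx2⟩ := mem_filter.1 hx
    rw [mem_Ico] at hx1
    refine (h x hx2 hx1.1 (by omega)).trans ?_
    have h1 : (Ioc x (x + h₀)).filter Nat.Prime ⊆ P.filter (fun p => x < p ∧ p ≤ x + h₀) := by
      intro p hp
      obtain ⟨hp1, hp2⟩ := mem_filter.1 hp
      rw [mem_Ioc] at hp1
      exact mem_filter.2 ⟨mem_filter.2 ⟨mem_Ico.2 ⟨by omega, by omega⟩, hp2⟩, hp1⟩
    exact_mod_cast card_le_card h1
  have hPc : c₁ * H / (4 * L) ≤ P.card := by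
    have h1 : (G.card : ℝ) * (c₁ * h₀ / L) ≤ P.card * h₀ := by
      refine hlow.trans ?_
      rw [hdc]
      exact_mod_cast hup
    have hh0r : (0 : ℝ) < h₀ := by exact_mod_cast hh0
    have h2 : (G.card : ℝ) * (c₁ / L) ≤ P.card := by
      have h3 : (G.card : ℝ) * (c₁ * h₀ / L) = (G.card * (c₁ / L)) * h₀ := by ring
      rw [h3] at h1
      exact le_of_mul_le_mul_right h1 hh0r
    refine le_trans ?_ h2
    have h4 : c₁ * H / (4 * L) = (H : ℝ) / 4 * (c₁ / L) := by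
      have : L ≠ 0 := hL.ne'
      field_simp
    rw [h4]
    exact mul_le_mul_of_nonneg_right hGcard (by positivity)
  have hsum : ∑ k ∈ range H, lam (y + k) = ∑ p ∈ Ico y (y + H), lam p := by
    rw [sum_Ico_eq_sum_range, Nat.add_sub_cancel_left]
  rw [hsum]
  have h1 : ∑ p ∈ P, lam p ≤ ∑ p ∈ Ico y (y + H), lam p :=
    sum_le_sum_of_subset_of_nonneg (filter_subset _ _) fun p _ _ =>
      ArithmeticFunction.vonMangoldt_nonneg
  refine le_trans ?_ h1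
  have h2 : (P.card : ℝ) * (L / 2) ≤ ∑ p ∈ P, lam p := by
    rw [← nsmul_eq_mul]
    apply card_nsmul_le_sum
    intro p hp
    obtain ⟨hp1, hp2⟩ := mem_filter.1 hp
    rw [mem_Ico] at hp1
    have h3 : lam p = Real.log p := ArithmeticFunction.vonMangoldt_apply_prime hp2
    rw [h3]
    refine hy.trans (Real.log_le_log (by exact_mod_cast hy0) (by exact_mod_cast hp1.1))
  refine le_trans ?_ h2
  have h5 : c₁ / 8 * H = c₁ * H / (4 * L) * (L / 2) := by
    have : L ≠ 0 := hL.ne'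
    field_simp
    ring
  rw [h5]
  exact mul_le_mul_of_nonneg_right hPc (by linarith)

theorem avg_count {m n H : ℕ} {QQ E : Finset ℕ} (hm : 1 ≤ m) (hH : 1 ≤ H)
    (hj : ∀ t ∈ QQ ×ˢ range m, m * t.1 + t.2 ≤ n) :
    ((QQ ×ˢ range m).filter (fun t => H < 2 * (E.filter (fun x => n - (m * t.1 + t.2) ≤ x ∧
      x < n - (m * t.1 + t.2) + H)).card)).card ≤ 2 * E.card := by
  set T := QQ ×ˢ range m with hT
  set Bd := T.filter (fun t => H < 2 * (E.filter (fun x => n - (m * t.1 + t.2) ≤ x ∧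
      x < n - (m * t.1 + t.2) + H)).card) with hBd
  have h1 : Bd.card * H ≤ ∑ t ∈ Bd, 2 * (E.filter (fun x => n - (m * t.1 + t.2) ≤ x ∧
      x < n - (m * t.1 + t.2) + H)).card := by
    rw [← smul_eq_mul]
    apply card_nsmul_le_sum
    intro t ht
    exact (mem_filter.1 ht).2.le
  have h2 : ∑ t ∈ Bd, (E.filter (fun x => n - (m * t.1 + t.2) ≤ x ∧
      x < n - (m * t.1 + t.2) + H)).card =
      ∑ x ∈ E, (Bd.filter (fun t => n - (m * t.1 + t.2) ≤ x ∧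
        x < n - (m * t.1 + t.2) + H)).card :=
    sum_card_bipartiteAbove_eq_sum_card_bipartiteBelow
      (fun (t : ℕ × ℕ) x => n - (m * t.1 + t.2) ≤ x ∧ x < n - (m * t.1 + t.2) + H)
  have h3 : ∑ x ∈ E, (Bd.filter (fun t => n - (m * t.1 + t.2) ≤ x ∧
        x < n - (m * t.1 + t.2) + H)).card ≤ E.card * H := by
    rw [← smul_eq_mul]
    apply sum_le_card_nsmul
    intro x _
    have h4 : (Bd.filter (fun t => n - (m * t.1 + t.2) ≤ x ∧
        x < n - (m * t.1 + t.2) + H)).card ≤ (Ico (n - x) (n + H - x)).card := by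
      apply card_le_card_of_injOn (fun t => m * t.1 + t.2)
      · intro t ht
        obtain ⟨ht1, ht2, ht3⟩ := mem_filter.1 ht
        have ht4 := hj t (mem_filter.1 ht1).1
        rw [mem_coe, mem_Ico]
        show n - x ≤ m * t.1 + t.2 ∧ m * t.1 + t.2 < n + H - x
        omega
      · intro a ha b hb hab
        have ha1 := (mem_product.1 (mem_filter.1 (mem_filter.1 ha).1).1).2
        have hb1 := (mem_product.1 (mem_filter.1 (mem_filter.1 hb).1).1).2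
        rw [mem_range] at ha1 hb1
        have hab' : m * a.1 + a.2 = m * b.1 + b.2 := hab
        have h5 : a.1 = b.1 := by
          have h6 : (m * a.1 + a.2) / m = a.1 := by
            rw [Nat.mul_add_div (by omega), Nat.div_eq_of_lt ha1, add_zero]
          have h7 : (m * b.1 + b.2) / m = b.1 := by
            rw [Nat.mul_add_div (by omega), Nat.div_eq_of_lt hb1, add_zero]
          rw [← h6, hab', h7]
        have h8 : a.2 = b.2 := by
          rw [h5] at hab'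
          omega
        exact Prod.ext h5 h8
    rw [Nat.card_Ico] at h4
    omega
  rw [← mul_sum, h2] at h1
  have h5 : Bd.card * H ≤ (2 * E.card) * H := by
    calc Bd.card * H ≤ 2 * ∑ x ∈ E, (Bd.filter (fun t => n - (m * t.1 + t.2) ≤ x ∧
        x < n - (m * t.1 + t.2) + H)).card := h1
      _ ≤ 2 * (E.card * H) := Nat.mul_le_mul_left 2 h3
      _ = (2 * E.card) * H := by ring
  exact Nat.le_of_mul_le_mul_right h5 (by omega)

theorem thm_Avg (h : Pool.Agent.SI.St_Gap) : St_Avg := by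
  obtain ⟨c₁, hc₁, h⟩ := avg_E h
  refine ⟨c₁ / 16, by positivity, fun B => ?_⟩
  have hlo1 : ∀ᶠ X : ℕ in atTop, (20 : ℝ) ≤ (X : ℝ) ^ (1 / 8 : ℝ) :=
    ((tendsto_rpow_atTop (by norm_num : (0 : ℝ) < 1 / 8)).comp
      tendsto_natCast_atTop_atTop).eventually_ge_atTop 20
  filter_upwards [h B, hlo1, eventually_ge_atTop 100] with X hE hX8 hX100 m n H QQ hm hmX hH hQ
    hn1 hn2 hcard
  obtain ⟨E, hE1, hE2⟩ := hE
  have hXr : (100 : ℝ) ≤ X := by exact_mod_cast hX100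
  have hX0 : (0 : ℝ) < X := by linarith
  have hX1 : (1 : ℝ) ≤ X := by linarith
  set h₀ : ℕ := ⌈(X : ℝ) ^ (3 / 8 : ℝ)⌉₊ with hh₀
  have h38 : (1 : ℝ) ≤ (X : ℝ) ^ (3 / 8 : ℝ) := Real.one_le_rpow hX1 (by norm_num)
  have hh1 : (h₀ : ℝ) < (X : ℝ) ^ (3 / 8 : ℝ) + 1 := Nat.ceil_lt_add_one (by linarith)
  have hh2 : 1 ≤ h₀ := Nat.one_le_iff_ne_zero.2 (by
    rw [hh₀]
    exact (Nat.ceil_pos.2 (by linarith)).ne')
  have hH1 : (X : ℝ) ^ (1 / 2 : ℝ) < (H : ℝ) + 1 := by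
    rw [hH]
    exact Nat.lt_floor_add_one _
  have hH2 : (H : ℝ) ≤ (X : ℝ) ^ (1 / 2 : ℝ) := by
    rw [hH]
    exact Nat.floor_le (by positivity)
  have hsplit : (X : ℝ) ^ (1 / 2 : ℝ) = (X : ℝ) ^ (3 / 8 : ℝ) * (X : ℝ) ^ (1 / 8 : ℝ) := by
    rw [← Real.rpow_add hX0]
    norm_num
  have hhH : 4 * h₀ ≤ H := by
    have h1 : (4 : ℝ) * h₀ ≤ H := by nlinarith
    exact_mod_cast h1
  have hsq : (X : ℝ) ^ (1 / 2 : ℝ) * (X : ℝ) ^ (1 / 2 : ℝ) = X := by
    rw [← Real.rpow_add hX0]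
    norm_num
  have hHX : 4 * (H + 2) ≤ X := by
    have h1 : (20 : ℝ) ≤ (X : ℝ) ^ (1 / 2 : ℝ) := by
      rw [hsplit]
      nlinarith
    have h2 : (4 : ℝ) * (H + 2) ≤ X := by nlinarith
    exact_mod_cast h2
  have hjle : ∀ t ∈ QQ ×ˢ range m, 16 * (m * t.1 + t.2) ≤ 3 * X := by
    intro t ht
    obtain ⟨ht1, ht2⟩ := mem_product.1 ht
    rw [mem_range] at ht2
    have h1 := hQ t.1 ht1
    have h2 : 8 * (m * t.1) ≤ X := by
      rw [← mul_assoc]
      exact h1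
    omega
  have hjn : ∀ t ∈ QQ ×ˢ range m, m * t.1 + t.2 ≤ n := by
    intro t ht
    have := hjle t ht
    omega
  have hcnt := avg_count (E := E) hm (by omega : 1 ≤ H) hjn
  set T := QQ ×ˢ range m with hT
  set Bd := T.filter (fun t => H < 2 * (E.filter (fun x => n - (m * t.1 + t.2) ≤ x ∧
      x < n - (m * t.1 + t.2) + H)).card) with hBd
  set Gd := T.filter (fun t => ¬ (H < 2 * (E.filter (fun x => n - (m * t.1 + t.2) ≤ x ∧
      x < n - (m * t.1 + t.2) + H)).card)) with hGd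
  have hTc : (T.card : ℝ) = m * QQ.card := by
    rw [hT, card_product, card_range]
    push_cast
    ring
  have hlogX : 0 < Real.log X := Real.log_pos (by linarith)
  have hGc : (m : ℝ) * QQ.card / 2 ≤ Gd.card := by
    have h1 : (Bd.card : ℝ) + Gd.card = T.card := by
      exact_mod_cast card_filter_add_card_filter_not _
    have h2 : (Bd.card : ℝ) ≤ 2 * E.card := by exact_mod_cast hcnt
    have h3 : (X : ℝ) / (4 * Real.log X ^ B) = X / Real.log X ^ B / 4 := by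
      rw [div_div, mul_comm]
    rw [h3] at hE1
    rw [hTc] at h1
    linarith
  have hgood : ∀ t ∈ Gd, c₁ / 8 * H ≤ ∑ k ∈ range H, lam (n + k - (m * t.1 + t.2)) := by
    intro t ht
    obtain ⟨ht1, ht2⟩ := mem_filter.1 ht
    have h1 := hjn t ht1
    have h2 := hjle t ht1
    have h3 : ∑ k ∈ range H, lam (n + k - (m * t.1 + t.2)) =
        ∑ k ∈ range H, lam (n - (m * t.1 + t.2) + k) := by
      apply sum_congr rfl
      intro k _
      congr 1
      omega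
    rw [h3]
    have hy4 : X ≤ 4 * (n - (m * t.1 + t.2)) := by omega
    have hyr : (X : ℝ) ≤ 4 * ((n - (m * t.1 + t.2) : ℕ) : ℝ) := by exact_mod_cast hy4
    apply avg_int hc₁ hlogX hh2 hhH (not_lt.1 ht2)
    · have h4 : Real.log X ≤ Real.log ((((n - (m * t.1 + t.2) : ℕ) : ℝ)) ^ 2) := by
        apply Real.log_le_log hX0
        nlinarith
      rw [Real.log_pow] at h4
      push_cast at h4 ⊢
      linarith
    · omega
    · intro x hx hx1 hx2
      exact hE2 x hx (by omega) (by omega)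
  have hSS : ∑ k ∈ range H, SS QQ m (n + k) =
      ∑ t ∈ T, ∑ k ∈ range H, lam (n + k - (m * t.1 + t.2)) := by
    rw [sum_comm]
    apply sum_congr rfl
    intro k _
    unfold SS
    rw [hT, sum_product]
  rw [hSS]
  have h1 : ∑ t ∈ Gd, ∑ k ∈ range H, lam (n + k - (m * t.1 + t.2)) ≤
      ∑ t ∈ T, ∑ k ∈ range H, lam (n + k - (m * t.1 + t.2)) :=
    sum_le_sum_of_subset_of_nonneg (filter_subset _ _) fun t _ _ =>
      sum_nonneg fun k _ => ArithmeticFunction.vonMangoldt_nonneg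
  refine le_trans ?_ h1
  have h2 : (Gd.card : ℝ) * (c₁ / 8 * H) ≤
      ∑ t ∈ Gd, ∑ k ∈ range H, lam (n + k - (m * t.1 + t.2)) := by
    rw [← nsmul_eq_mul]
    exact card_nsmul_le_sum _ _ _ hgood
  refine le_trans ?_ h2
  have h3 : c₁ / 16 * H * (m * QQ.card) = (m : ℝ) * QQ.card / 2 * (c₁ / 8 * H) := by ring
  rw [h3]
  exact mul_le_mul_of_nonneg_right hGc (by positivity)

end Pool.Agent.AAN
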