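import Mathlib
import Pool.Agent.AAN.Stmts
import Pool.Agent.GBQ.CoreUB

set_option autoImplicit false

/-!
# AAN / Cor: the exceptional set in a block
-/

namespace Pool.Agent.AAN

open Finset Filter
open Pool.Agent.GBQ (ee lam nd Admissible)
open Pool.Agent.EVN (Phi SolP DensP BigP)

/-- powers of the logarithm are small -/
theorem cor_log (A : ℝ) (j : ℕ) : ∀ᶠ X : ℕ in atTop, A * Real.log X ^ j ≤ Real.sqrt X := by
  have h1 := (isLittleO_log_rpow_rpow_atTop (s := 1 / 2) (j : ℝ) (by norm_num)).def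
    (c := 1 / (|A| + 1)) (by positivity)
  have h2 := (tendsto_natCast_atTop_atTop (R := ℝ)).eventually h1
  filter_upwards [h2, eventually_ge_atTop 3] with X hX hX3
  have hX0 : (0 : ℝ) < X := by exact_mod_cast (by omega : 0 < X)
  have hL : 0 ≤ Real.log X := Real.log_natCast_nonneg X
  rw [Real.rpow_natCast, ← Real.sqrt_eq_rpow, Real.norm_of_nonneg (by positivity),
    Real.norm_of_nonneg (Real.sqrt_nonneg _)] at hX
  have h3 : 0 ≤ Real.log X ^ j := by positivity
  have h4 : A * Real.log X ^ j ≤ (|A| + 1) * Real.log X ^ j :=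
    mul_le_mul_of_nonneg_right (by linarith [le_abs_self A]) h3
  refine h4.trans ?_
  rw [one_div, ← div_eq_inv_mul, le_div_iff₀ (by positivity)] at hX
  linarith

theorem cor_inj {m : ℕ} {z z' : ℕ × ℕ} (h1 : z.2 < m) (h2 : z'.2 < m)
    (h : m * z.1 + z.2 = m * z'.1 + z'.2) : z = z' := by
  have a1 := GBQ.coreu_div (m := m) (k := z.1) h1
  have a2 := GBQ.coreu_div (m := m) (k := z'.1) h2
  have h3 : z.1 = z'.1 := by rw [← a1, ← a2, h]
  refine Prod.ext h3 ?_
  rw [h3] at h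
  omega

/-- the sum `S(n)` is small if there are few solutions -/
theorem cor_up (Φ : ℕ → ℕ → Prop) {X m n : ℕ} {QQ PP : Finset ℕ} (hm : 1 ≤ m) (hmX : 16 * m ≤ X)
    (hQ : ∀ q ∈ QQ, 8 * m * q ≤ X ∧ q.Prime ∧ Φ n q) (hn1 : X ≤ 2 * n) (hn2 : 4 * n ≤ 3 * X)
    (hPP : ∀ j, j < n → ¬ (n - j).Prime → lam (n - j) ≠ 0 → j ∈ PP) :
    SS QQ m n ≤ Real.log X * ((SolP Φ m n).card + PP.card) := by
  classical
  have hX1 : (1 : ℝ) ≤ X := by exact_mod_cast (by omega : 1 ≤ X)
  have hL0 : 0 ≤ Real.log X := Real.log_natCast_nonneg X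
  set J := QQ ×ˢ range m with hJ
  have hS : SS QQ m n = ∑ z ∈ J, lam (n - (m * z.1 + z.2)) := by
    rw [hJ, sum_product]
    rfl
  have hlt : ∀ z ∈ J, m * z.1 + z.2 < n ∧ 0 < m * z.1 + z.2 ∧ z.2 < m ∧ z.1 ∈ QQ := by
    intro z hz
    have h1 := mem_product.1 hz
    have h2 := mem_range.1 h1.2
    have h3 := hQ z.1 h1.1
    have h4 : 8 * (m * z.1) ≤ X := by rw [← mul_assoc]; exact h3.1
    have h5 : 0 < m * z.1 := Nat.mul_pos hm h3.2.1.pos
    refine ⟨by omega, by omega, h2, h1.1⟩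
  rw [hS]
  have hpt : ∀ z ∈ J, lam (n - (m * z.1 + z.2)) ≤ Real.log X *
      ((if (n - (m * z.1 + z.2)).Prime then 1 else 0) +
        (if m * z.1 + z.2 ∈ PP then 1 else 0)) := by
    intro z hz
    have hz' := hlt z hz
    have hle : lam (n - (m * z.1 + z.2)) ≤ Real.log X := by
      refine (ArithmeticFunction.vonMangoldt_le_log).trans ?_
      apply Real.log_le_log
      · exact_mod_cast (by omega : 0 < n - (m * z.1 + z.2))
      · exact_mod_cast (by omega : n - (m * z.1 + z.2) ≤ X)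
    by_cases h1 : lam (n - (m * z.1 + z.2)) = 0
    · rw [h1]
      apply mul_nonneg hL0
      apply add_nonneg <;> split <;> norm_num
    · by_cases h2 : (n - (m * z.1 + z.2)).Prime
      · rw [if_pos h2]
        have h3 : (0 : ℝ) ≤ if m * z.1 + z.2 ∈ PP then 1 else 0 := by split <;> norm_num
        nlinarith
      · have h3 := hPP _ hz'.1 h2 h1
        rw [if_pos h3, if_neg h2, zero_add, mul_one]
        exact hle
  refine (sum_le_sum hpt).trans ?_
  rw [← mul_sum, sum_add_distrib]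
  apply mul_le_mul_of_nonneg_left _ hL0
  apply add_le_add
  · rw [← sum_filter, sum_const, nsmul_eq_mul, mul_one]
    apply Nat.cast_le.2
    apply card_le_card_of_injOn (fun z => n - (m * z.1 + z.2))
    · intro z hz
      have hz1 := mem_filter.1 (mem_coe.1 hz)
      have hz' := hlt z hz1.1
      have e : n - (n - (m * z.1 + z.2)) = m * z.1 + z.2 := by omega
      rw [mem_coe]
      unfold SolP
      rw [mem_filter, mem_range]
      show n - (m * z.1 + z.2) < n ∧ (n - (m * z.1 + z.2)).Prime ∧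
        ((n - (n - (m * z.1 + z.2))) / m).Prime ∧ Φ n ((n - (n - (m * z.1 + z.2))) / m)
      rw [e, GBQ.coreu_div hz'.2.2.1]
      exact ⟨by omega, hz1.2, (hQ _ hz'.2.2.2).2.1, (hQ _ hz'.2.2.2).2.2⟩
    · intro z hz z' hz' h
      have a := hlt z (mem_filter.1 (mem_coe.1 hz)).1
      have a' := hlt z' (mem_filter.1 (mem_coe.1 hz')).1
      have h' : n - (m * z.1 + z.2) = n - (m * z'.1 + z'.2) := h
      exact cor_inj a.2.2.1 a'.2.2.1 (by omega)
  · rw [← sum_filter, sum_const, nsmul_eq_mul, mul_one]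
    apply Nat.cast_le.2
    apply card_le_card_of_injOn (fun z => m * z.1 + z.2)
    · intro z hz
      exact (mem_filter.1 (mem_coe.1 hz)).2
    · intro z hz z' hz' h
      have a := hlt z (mem_filter.1 (mem_coe.1 hz)).1
      have a' := hlt z' (mem_filter.1 (mem_coe.1 hz')).1
      exact cor_inj a.2.2.1 a'.2.2.1 h

/-- `m ≤ X^{1/3}` gives `16 m ≤ X` -/
theorem cor_third {X m : ℕ} (hX : 64 ≤ X) (h : (m : ℝ) ≤ (X : ℝ) ^ (1 / 3 : ℝ)) : 16 * m ≤ X := by
  have hX0 : (0 : ℝ) ≤ X := Nat.cast_nonneg X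
  have h1 : (m : ℝ) ^ 3 ≤ X := by
    calc (m : ℝ) ^ 3 ≤ ((X : ℝ) ^ (1 / 3 : ℝ)) ^ 3 := pow_le_pow_left₀ (Nat.cast_nonneg m) h 3
      _ = X := by
        rw [← Real.rpow_natCast, ← Real.rpow_mul hX0]
        norm_num
  by_contra hcon
  have h2 : (X : ℝ) < 16 * m := by exact_mod_cast not_le.1 hcon
  have h3 : (64 : ℝ) ≤ X := by exact_mod_cast hX
  have h4 : (X : ℝ) ^ 3 < (16 * m) ^ 3 := pow_lt_pow_left₀ h2 hX0 (by norm_num)
  have h5 : ((16 : ℝ) * m) ^ 3 = 4096 * (m : ℝ) ^ 3 := by ring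
  rw [h5] at h4
  have h6 : (X : ℝ) ^ 3 < 4096 * X := by linarith
  have h7 : (X : ℝ) ^ 3 = X * X * X := by ring
  rw [h7] at h6
  have h8 : (X : ℝ) * X < 4096 := lt_of_mul_lt_mul_right h6 hX0
  nlinarith

/-- **COR.** The exceptional set in a block, for `m ≤ X^{1/3}`. -/
theorem thm_Cor (h1 : St_Var) (h2 : St_Avg) (h3 : GBQ.St_Bad) : St_Cor := by
  intro k Φ hD hM
  obtain ⟨C₁, hVar⟩ := h1
  obtain ⟨c₀, hc₀, hAvg⟩ := h2
  obtain ⟨C₃, hPP⟩ := GBQ.coreu_PP h3
  obtain ⟨c₁, n₁, hc₁, hDens⟩ := hD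
  set c₂ : ℝ := c₁ / (16 * 2 ^ k) with hc₂
  have hc₂0 : 0 < c₂ := by positivity
  refine ⟨c₀ * c₂ / (8 * 2 ^ (k + 1)), by positivity, C₁ + k + 1, ?_⟩
  have hlog : ∀ A : ℝ, ∀ᶠ X : ℕ in atTop, A ≤ Real.log X := fun A =>
    (Real.tendsto_log_atTop.comp (tendsto_natCast_atTop_atTop (R := ℝ))).eventually
      (eventually_ge_atTop A)
  filter_upwards [hVar, hAvg (k + 1), eventually_ge_atTop (2 * n₁), eventually_ge_atTop 64,
    hlog 1, hlog (1 / c₂), hlog (16 / (9 * c₀ ^ 2 * c₂)),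
    cor_log (2 * C₃ * 8 / (c₀ * c₂)) (k + 2)] with X hV hA hX1 hX2 hL1 hL2 hL3 hL4
  intro m hm hmX F hF
  have h16 := cor_third hX2 hmX
  have hX64 : (64 : ℝ) ≤ X := by exact_mod_cast hX2
  have hX0 : (0 : ℝ) < X := by linarith
  set L := Real.log X with hL
  have hL0 : 0 < L := by linarith
  have hm0 : (0 : ℝ) < m := by exact_mod_cast hm
  set n₀ := (X + 1) / 2 with hn₀
  set K := X / (8 * m) with hK
  have hK2 : 2 ≤ K := by
    rw [hK, Nat.le_div_iff_mul_le (by omega)]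
    omega
  have hKn : K ≤ n₀ := by
    have : K ≤ X / 8 := Nat.div_le_div_left (by omega) (by norm_num)
    omega
  obtain ⟨QQ, hQQ, hcard⟩ := hDens n₀ (by omega) K hK2 hKn
  have hq8 : ∀ q ∈ QQ, 8 * m * q ≤ X := by
    intro q hq
    have h4 := (hQQ q hq).1
    rw [hK, Nat.le_div_iff_mul_le (by omega)] at h4
    rw [mul_comm]
    exact h4
  -- the size of `QQ`
  set V : ℝ := m * QQ.card with hVdef
  have hVlow : c₂ * X / L ^ k ≤ V := by
    have hKX : (X : ℝ) / (16 * m) ≤ K := by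
      have h5 : X < (K + 1) * (8 * m) := by
        have a1 := Nat.div_add_mod X (8 * m)
        have a2 := Nat.mod_lt X (show 0 < 8 * m by omega)
        rw [← hK] at a1
        rw [add_mul, one_mul, mul_comm K (8 * m)]
        omega
      have h6 : (X : ℝ) < (K + 1) * (8 * m) := by exact_mod_cast h5
      have h7 : (2 : ℝ) ≤ K := by exact_mod_cast hK2
      rw [div_le_iff₀ (by positivity)]
      nlinarith
    have hKle : Real.log K ≤ L := by
      apply Real.log_le_log (by exact_mod_cast (by omega : 0 < K))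
      exact_mod_cast (by omega : K ≤ X)
    have hlK : 0 ≤ Real.log K := Real.log_natCast_nonneg K
    have h8 : (1 + Real.log K) ^ k ≤ (2 * L) ^ k :=
      pow_le_pow_left₀ (by linarith) (by linarith) k
    have h9 : c₁ * K / (2 * L) ^ k ≤ QQ.card := by
      refine le_trans ?_ hcard
      apply div_le_div_of_nonneg_left (by positivity) (by positivity) h8
    have h10 : c₁ * (X / (16 * m)) / (2 * L) ^ k ≤ QQ.card := by
      refine le_trans ?_ h9
      apply div_le_div_of_nonneg_right _ (by positivity)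
      exact mul_le_mul_of_nonneg_left hKX hc₁.le
    have h11 := mul_le_mul_of_nonneg_left h10 hm0.le
    refine le_trans (le_of_eq ?_) h11
    rw [hc₂, mul_pow]
    field_simp
  have hVpos : 0 < V := lt_of_lt_of_le (by positivity) hVlow
  have hVB : (X : ℝ) / L ^ (k + 1) ≤ m * QQ.card := by
    refine le_trans ?_ hVlow
    rw [div_le_div_iff₀ (by positivity) (by positivity)]
    have h12 : 1 ≤ c₂ * L := by
      rw [div_le_iff₀ hc₂0] at hL2
      linarith
    calc (X : ℝ) * L ^ k = X * L ^ k * 1 := by ring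
      _ ≤ X * L ^ k * (c₂ * L) := mul_le_mul_of_nonneg_left h12 (by positivity)
      _ = c₂ * X * L ^ (k + 1) := by ring
  set H := ⌊(X : ℝ) ^ (1 / 2 : ℝ)⌋₊ with hH
  have hHpos : (0 : ℝ) < H := by
    have h13 : 0 < H := by
      rw [hH, Nat.floor_pos]
      exact Real.one_le_rpow (by linarith) (by norm_num)
    exact_mod_cast h13
  -- the sum at `n` is small
  have hsmall : ∀ n ∈ F, SS QQ m n ≤ c₀ / 4 * V := by
    intro n hn
    obtain ⟨hn1, hn2, hn3⟩ := hF n hn
    have hn4 : 4 ≤ n := by omega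
    obtain ⟨PP, hPP1, hPP2⟩ := hPP n hn4
    have hup := cor_up Φ (PP := PP) hm h16 (fun q hq => ⟨hq8 q hq, (hQQ q hq).2.1,
      hM n₀ n q (by omega) (by omega) (hQQ q hq).2.2⟩) hn1 hn2 hPP1
    refine hup.trans ?_
    have hnX : (n : ℝ) ≤ X := by exact_mod_cast (by omega : n ≤ X)
    have hn0 : (0 : ℝ) < n := by exact_mod_cast (by omega : 0 < n)
    have hnX2 : (X : ℝ) ≤ 2 * n := by exact_mod_cast hn1
    have hln : Real.log n ≤ L := Real.log_le_log hn0 hnX
    have hln2 : L / 2 ≤ Real.log n := by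
      have h14 : Real.sqrt X ≤ n := by
        rw [Real.sqrt_le_left hn0.le]
        nlinarith
      have h15 := Real.log_le_log (Real.sqrt_pos.2 hX0) h14
      rw [Real.log_sqrt hX0.le] at h15
      exact h15
    have hln0 : 0 < Real.log n := by linarith
    -- primes
    have h16' : L * (SolP Φ m n).card ≤ c₀ / 8 * (c₂ * X / L ^ k) := by
      have h17 : ((SolP Φ m n).card : ℝ) ≤ c₀ * c₂ / (8 * 2 ^ (k + 1)) * n / (L / 2) ^ (k + 1) := by
        refine hn3.le.trans ?_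
        apply div_le_div_of_nonneg_left (by positivity) (by positivity)
        exact pow_le_pow_left₀ (by linarith) hln2 _
      have h18 : c₀ * c₂ / (8 * 2 ^ (k + 1)) * n / (L / 2) ^ (k + 1) ≤
          c₀ * c₂ / (8 * 2 ^ (k + 1)) * X / (L / 2) ^ (k + 1) := by
        apply div_le_div_of_nonneg_right _ (by positivity)
        exact mul_le_mul_of_nonneg_left hnX (by positivity)
      have h19 := mul_le_mul_of_nonneg_left (h17.trans h18) hL0.le
      refine h19.trans (le_of_eq ?_)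
      rw [div_pow, pow_succ L k]
      field_simp
    -- prime powers
    have h20 : L * PP.card ≤ c₀ / 8 * (c₂ * X / L ^ k) := by
      have h21 : (PP.card : ℝ) ≤ C₃ * (Real.sqrt X * (2 * L)) := by
        refine hPP2.trans ?_
        apply mul_le_mul_of_nonneg_left _ (Nat.cast_nonneg _)
        apply mul_le_mul (Real.sqrt_le_sqrt hnX) (by linarith) (by positivity)
          (Real.sqrt_nonneg _)
      have h22 := mul_le_mul_of_nonneg_left h21 hL0.le
      refine h22.trans ?_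
      have h23 : c₀ / 8 * (c₂ * X / L ^ k) = c₀ * c₂ / 8 * (Real.sqrt X * Real.sqrt X) / L ^ k := by
        rw [Real.mul_self_sqrt hX0.le]
        ring
      rw [h23, le_div_iff₀ (by positivity)]
      have h24 : c₀ * c₂ / 8 * (2 * C₃ * 8 / (c₀ * c₂) * L ^ (k + 2)) ≤
          c₀ * c₂ / 8 * Real.sqrt X := mul_le_mul_of_nonneg_left hL4 (by positivity)
      have h25 : c₀ * c₂ / 8 * (2 * C₃ * 8 / (c₀ * c₂) * L ^ (k + 2)) =
          2 * C₃ * L ^ (k + 2) := by
        field_simp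
      rw [h25] at h24
      have h26 := mul_le_mul_of_nonneg_right h24 (Real.sqrt_nonneg X)
      calc L * (C₃ * (Real.sqrt X * (2 * L))) * L ^ k
          = 2 * C₃ * L ^ (k + 2) * Real.sqrt X := by ring
        _ ≤ c₀ * c₂ / 8 * Real.sqrt X * Real.sqrt X := h26
        _ = _ := by ring
    have h27 : c₀ / 4 * (c₂ * X / L ^ k) ≤ c₀ / 4 * V :=
      mul_le_mul_of_nonneg_left hVlow (by positivity)
    rw [mul_add]
    linarith
  -- Cauchy and Schwarz
  have hCS : ∀ n ∈ F, 9 * c₀ ^ 2 / 16 * H * V ^ 2 ≤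
      ∑ h ∈ range H, (SS QQ m (n + h) - SS QQ m n) ^ 2 := by
    intro n hn
    obtain ⟨hn1, hn2, -⟩ := hF n hn
    have hav := hA m n H QQ hm h16 rfl hq8 hn1 hn2 hVB
    have hs := hsmall n hn
    have h28 : 3 * c₀ / 4 * H * V ≤ ∑ h ∈ range H, (SS QQ m (n + h) - SS QQ m n) := by
      rw [sum_sub_distrib, sum_const, card_range, nsmul_eq_mul]
      have h29 := mul_le_mul_of_nonneg_left hs hHpos.le
      have h30 : c₀ * H * (m * QQ.card) = c₀ * H * V := rfl
      rw [h30] at hav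
      linarith
    have h31 := sq_sum_le_card_mul_sum_sq (s := range H)
      (f := fun h => SS QQ m (n + h) - SS QQ m n)
    rw [card_range] at h31
    have h32 : (3 * c₀ / 4 * H * V) ^ 2 ≤
        (∑ h ∈ range H, (SS QQ m (n + h) - SS QQ m n)) ^ 2 :=
      pow_le_pow_left₀ (by positivity) h28 2
    have h33 := h32.trans h31
    have h34 : (3 * c₀ / 4 * H * V) ^ 2 = H * (9 * c₀ ^ 2 / 16 * H * V ^ 2) := by ring
    rw [h34] at h33
    exact le_of_mul_le_mul_left h33 hHpos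
  have hsum1 : F.card * (9 * c₀ ^ 2 / 16 * H * V ^ 2) ≤
      ∑ n ∈ F, ∑ h ∈ range H, (SS QQ m (n + h) - SS QQ m n) ^ 2 := by
    rw [← nsmul_eq_mul]
    exact card_nsmul_le_sum F _ _ hCS
  have hsum2 : ∑ n ∈ F, ∑ h ∈ range H, (SS QQ m (n + h) - SS QQ m n) ^ 2 ≤
      H * (QQ.card * (X : ℝ) ^ 2 * L ^ C₁) := by
    rw [sum_comm]
    have h35 : ∀ h ∈ range H, ∑ n ∈ F, (SS QQ m (n + h) - SS QQ m n) ^ 2 ≤
        QQ.card * (X : ℝ) ^ 2 * L ^ C₁ := by
      intro h hh
      apply hV m h QQ F hm hmX _ hq8 fun n hn => ⟨(hF n hn).1, (hF n hn).2.1⟩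
      have h36 : (h : ℝ) ≤ H := by exact_mod_cast (mem_range.1 hh).le
      exact h36.trans (Nat.floor_le (by positivity))
    have h37 := sum_le_card_nsmul (range H) _ _ h35
    rwa [card_range, nsmul_eq_mul] at h37
  have h38 := hsum1.trans hsum2
  have h39 : (m : ℝ) * F.card * (9 * c₀ ^ 2 / 16) * V ≤ (X : ℝ) ^ 2 * L ^ C₁ := by
    have h40 := mul_le_mul_of_nonneg_left h38 hm0.le
    have e1 : (m : ℝ) * (F.card * (9 * c₀ ^ 2 / 16 * H * V ^ 2)) =
        (H * V) * (m * F.card * (9 * c₀ ^ 2 / 16) * V) := by ring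
    have e2 : (m : ℝ) * (H * (QQ.card * (X : ℝ) ^ 2 * L ^ C₁)) =
        (H * V) * ((X : ℝ) ^ 2 * L ^ C₁) := by
      rw [hVdef]
      ring
    rw [e1, e2] at h40
    exact le_of_mul_le_mul_left h40 (by positivity)
  have h41 : (m : ℝ) * F.card * (9 * c₀ ^ 2 / 16) * (c₂ * X / L ^ k) ≤ (X : ℝ) ^ 2 * L ^ C₁ :=
    (mul_le_mul_of_nonneg_left hVlow (by positivity)).trans h39
  have h42 : (m : ℝ) * F.card * (9 * c₀ ^ 2 * c₂ / 16) ≤ X * L ^ (C₁ + k) := by
    have e3 : (m : ℝ) * F.card * (9 * c₀ ^ 2 / 16) * (c₂ * X / L ^ k) =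
        (m * F.card * (9 * c₀ ^ 2 * c₂ / 16)) * X / L ^ k := by ring
    rw [e3, div_le_iff₀ (by positivity)] at h41
    have e4 : (X : ℝ) ^ 2 * L ^ C₁ * L ^ k = X * L ^ (C₁ + k) * X := by
      rw [pow_add]
      ring
    rw [e4] at h41
    exact le_of_mul_le_mul_right h41 hX0
  have h43 : 16 ≤ L * (9 * c₀ ^ 2 * c₂) := by
    rwa [div_le_iff₀ (by positivity)] at hL3
  have h44 : (m : ℝ) * F.card ≤ (m * F.card * (9 * c₀ ^ 2 * c₂ / 16)) * L := by
    have h45 : (0 : ℝ) ≤ m * F.card := by positivity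
    have h46 := mul_le_mul_of_nonneg_left h43 h45
    have e5 : (m * F.card * (9 * c₀ ^ 2 * c₂ / 16)) * L =
        (m * F.card) * (L * (9 * c₀ ^ 2 * c₂)) / 16 := by ring
    rw [e5, le_div_iff₀ (by norm_num)]
    exact h46
  calc (m : ℝ) * F.card ≤ (m * F.card * (9 * c₀ ^ 2 * c₂ / 16)) * L := h44
    _ ≤ X * L ^ (C₁ + k) * L := mul_le_mul_of_nonneg_right h42 hL0.le
    _ = X * L ^ (C₁ + k + 1) := by ring

end Pool.Agent.AAN
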