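import Pool.Agent.AAN.Stmts
import Pool.Agent.GBQ.Core
import Pool.Agent.GBQ.QK

set_option autoImplicit false

/-!
# AAN / DEQ: primes `q ≤ K` with the property `Phi`, right order of magnitude
-/

namespace Pool.Agent.AAN

open Finset Filter
open Pool.Agent.MT
open Pool.Agent.GBQ (lam zz pr rho Rough LamS Tw St_Low St_Bad St_RhoLow lam_nonneg lam_le_log
  LamS_nonneg rho_pos core_num core_cs core_large qk_card)
open Pool.Agent.EVN (Phi SolP DensP BigP)

/-- the model in short: mean value of the rough numbers -/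
theorem deq_mean {Cr c₂ : ℝ} (hc₂ : 0 < c₂) {z X : ℕ} (hz : 2 ≤ z)
    (hRU : (((Icc 1 X).filter (fun n => ∀ p ∈ Pool.Agent.LIN.pz z, ¬ p ∣ n)).card : ℝ) ≤
      Cr * X / Real.log z) (hrho : c₂ / Real.log z ≤ rho z) :
    ∑ y ∈ Icc 1 X, LamS z y ≤ Cr / c₂ * X := by
  have hlz : 0 < Real.log z := Real.log_pos (by exact_mod_cast hz)
  have h1 : ∑ y ∈ Icc 1 X, LamS z y =
      (((Icc 1 X).filter (fun n => ∀ p ∈ Pool.Agent.LIN.pz z, ¬ p ∣ n)).card : ℝ) * (rho z)⁻¹ := by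
    unfold LamS
    rw [← sum_filter, sum_const, nsmul_eq_mul]
    rfl
  have hr : 0 < c₂ / Real.log z := by positivity
  have h2 : (rho z)⁻¹ ≤ (c₂ / Real.log z)⁻¹ := inv_anti₀ hr hrho
  have h0 : (0 : ℝ) ≤ Cr * X / Real.log z := le_trans (Nat.cast_nonneg _) hRU
  rw [h1]
  refine (mul_le_mul hRU h2 (inv_pos.2 (rho_pos z)).le h0).trans (le_of_eq ?_)
  field_simp

/-- the shifted sum of the model -/
theorem deq_shift {z X k : ℕ} (N : Finset ℕ) (hN : ∀ n ∈ N, k < n ∧ n ≤ X) :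
    ∑ n ∈ N, LamS z (n - 1 * k) ≤ ∑ y ∈ Icc 1 X, LamS z y := by
  classical
  have h1 : ∑ y ∈ N.image (fun n => n - 1 * k), LamS z y = ∑ n ∈ N, LamS z (n - 1 * k) := by
    refine sum_image ?_
    intro a ha b hb h
    have h1 := hN a ha
    have h2 := hN b hb
    have h3 : a - 1 * k = b - 1 * k := h
    omega
  rw [← h1]
  refine sum_le_sum_of_subset_of_nonneg ?_ fun y _ _ => LamS_nonneg z y
  intro y hy
  obtain ⟨n, hn, rfl⟩ := mem_image.1 hy
  have h1 := hN n hn
  rw [mem_Icc]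
  omega

/-- the weighted sum from above -/
theorem deq_left {η : ℝ → ℝ} (hη : IsWt η) {X K z y C : ℕ} {c : ℕ → ℝ} (hX : 1 ≤ X)
    (hKX : K ≤ X) {U : ℕ → ℝ} {M : ℝ} (hU0 : ∀ k, 0 ≤ U k)
    (hUM : ∀ k, k ≤ K → U k ≤ M)
    (hC : ∀ k : ℕ, 2 ≤ k → k ≤ K → Rough z (k ^ 2 - 2) →
      (∀ p : ℕ, p.Prime → z < p → p ≤ y → ¬ p ^ 2 ∣ k ^ 2 - 2) →
      ∑ d ∈ (k ^ 2 - 2).divisors, c d ≤ C ∧
      (0 < ∑ d ∈ (k ^ 2 - 2).divisors, c d → Nat.IsAtMostAlmostPrime 5 (k ^ 2 - 2)))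
    {bad S : Finset ℕ} (hbad : ∀ k, k ∈ Icc 2 K → (k ≤ z ∨ (¬ k.Prime ∧ lam k ≠ 0) ∨
      ∃ p ∈ range (y + 1), p.Prime ∧ z < p ∧ p ^ 2 ∣ k ^ 2 - 2) → k ∈ bad)
    (hS : ∀ k, k ≤ K → k.Prime → Nat.IsAtMostAlmostPrime 5 (k ^ 2 - 2) → k ∈ S) :
    ∑ k ∈ range (K + 1), Tw η K z c k * U k ≤
      M * (C * Real.log X * (S.card : ℝ) + ∑ k ∈ bad, |Tw η K z c k|) := by
  classical
  have hX' : (1 : ℝ) ≤ X := by exact_mod_cast hX
  have hl : 0 ≤ Real.log X := Real.log_nonneg hX'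
  have hM0 : 0 ≤ M := (hU0 0).trans (hUM 0 (Nat.zero_le K))
  have hlog : ∀ j : ℕ, j ≤ X → Real.log j ≤ Real.log X := by
    intro j hj
    rcases Nat.eq_zero_or_pos j with rfl | h0
    · simpa using hl
    · exact Real.log_le_log (by exact_mod_cast h0) (by exact_mod_cast hj)
  have hC0 : (0 : ℝ) ≤ C := Nat.cast_nonneg C
  have key : ∀ k ∈ range (K + 1), Tw η K z c k * U k ≤
      (if k ∈ S then M * (C * Real.log X) else 0) +
        (if k ∈ bad then M * |Tw η K z c k| else 0) := by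
    intro k hk
    have hkK : k ≤ K := by
      rw [mem_range] at hk
      omega
    have hb1 : 0 ≤ (if k ∈ S then M * ((C : ℝ) * Real.log X) else 0) := by
      split_ifs
      · positivity
      · exact le_refl _
    have hb2 : 0 ≤ (if k ∈ bad then M * |Tw η K z c k| else 0) := by
      split_ifs
      · positivity
      · exact le_refl _
    by_cases hkb : k ∈ bad
    · rw [if_pos hkb]
      have h1 : Tw η K z c k * U k ≤ |Tw η K z c k| * M :=
        mul_le_mul (le_abs_self _) (hUM k hkK) (hU0 k) (abs_nonneg _)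
      linarith
    · rw [if_neg hkb, add_zero]
      by_cases hT : Tw η K z c k ≤ 0
      · exact (mul_nonpos_of_nonpos_of_nonneg hT (hU0 k)).trans hb1
      have hT' : 0 < Tw η K z c k := not_le.1 hT
      unfold Tw at hT'
      by_cases hcond : 2 ≤ k ∧ Rough z (k ^ 2 - 2)
      · rw [if_pos hcond] at hT'
        have hη0 := hη.nonneg ((k : ℝ) / K)
        have hη1 := hη.le_one ((k : ℝ) / K)
        have hlk := lam_nonneg k
        have h2 : 0 ≤ lam k * η ((k : ℝ) / K) := mul_nonneg hlk hη0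
        have hsum : 0 < ∑ d ∈ (k ^ 2 - 2).divisors, c d := pos_of_mul_pos_right hT' h2
        have hlk0 : lam k ≠ 0 := by
          intro h0
          rw [h0, zero_mul, zero_mul] at hT'
          exact lt_irrefl _ hT'
        have hnb : ¬ (k ≤ z ∨ (¬ k.Prime ∧ lam k ≠ 0) ∨
            ∃ p ∈ range (y + 1), p.Prime ∧ z < p ∧ p ^ 2 ∣ k ^ 2 - 2) :=
          fun h => hkb (hbad k (mem_Icc.2 ⟨hcond.1, hkK⟩) h)
        push Not at hnb
        obtain ⟨-, hb, hd⟩ := hnb
        have hkp : k.Prime := by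
          by_contra h
          exact hlk0 (hb h)
        obtain ⟨h5, h6⟩ := hC k hcond.1 hkK hcond.2 (fun p hp hzp hpy =>
          hd p (mem_range.2 (by omega)) hp hzp)
        rw [if_pos (hS k hkK hkp (h6 hsum))]
        unfold Tw
        rw [if_pos hcond]
        have h7 : lam k * η ((k : ℝ) / K) ≤ Real.log X * 1 :=
          mul_le_mul ((lam_le_log k).trans (hlog k (hkK.trans hKX))) hη1 hη0 hl
        have h8 : lam k * η ((k : ℝ) / K) * ∑ d ∈ (k ^ 2 - 2).divisors, c d ≤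
            Real.log X * 1 * C := mul_le_mul h7 h5 hsum.le (by linarith)
        calc lam k * η ((k : ℝ) / K) * (∑ d ∈ (k ^ 2 - 2).divisors, c d) * U k
            ≤ Real.log X * 1 * C * M :=
              mul_le_mul h8 (hUM k hkK) (hU0 k) (by positivity)
          _ = M * (C * Real.log X) := by ring
      · rw [if_neg hcond] at hT'
        exact absurd hT' (lt_irrefl _)
  refine (sum_le_sum key).trans ?_
  rw [sum_add_distrib, mul_add]
  refine add_le_add ?_ ?_
  · rw [← sum_filter, sum_const, nsmul_eq_mul]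
    have h1 : (range (K + 1)).filter (fun k => k ∈ S) ⊆ S := fun k hk => (mem_filter.1 hk).2
    have h2 : (((range (K + 1)).filter (fun k => k ∈ S)).card : ℝ) ≤ S.card := by
      exact_mod_cast card_le_card h1
    have h3 : M * (C * Real.log X * (S.card : ℝ)) = (S.card : ℝ) * (M * (C * Real.log X)) := by
      ring
    rw [h3]
    exact mul_le_mul_of_nonneg_right h2 (by positivity)
  · rw [← sum_filter, ← mul_sum]
    refine mul_le_mul_of_nonneg_left ?_ hM0
    refine sum_le_sum_of_subset_of_nonneg (fun k hk => (mem_filter.1 hk).2) fun k _ _ =>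
      abs_nonneg _

/-- the numbers -/
theorem deq_num {c₁ D C s b X K L N : ℝ} (hc₁ : 0 < c₁) (hD : 0 < D) (hC : 0 ≤ C) (hs : 0 ≤ s)
    (hK : 0 < K) (hL : 1 ≤ L) (hX : 0 < X) (hN : X / 16 ≤ N) (hL32 : 32 * D / c₁ ≤ L)
    (hb : b ≤ K / L ^ 3) (h : N * (c₁ * K / L) ≤ D * X * (C * L * s + b)) :
    c₁ / (32 * D * (C + 1)) * K / L ^ 2 ≤ s := by
  have hL0 : 0 < L := by linarith
  have h1 : X / 16 * (c₁ * K / L) ≤ D * X * (C * L * s + b) :=
    (mul_le_mul_of_nonneg_right hN (by positivity)).trans h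
  have h2 : c₁ * K / (16 * L) ≤ D * (C * L * s + b) := by
    have e1 : X / 16 * (c₁ * K / L) = X * (c₁ * K / (16 * L)) := by
      field_simp
    have e2 : D * X * (C * L * s + b) = X * (D * (C * L * s + b)) := by ring
    rw [e1, e2] at h1
    exact le_of_mul_le_mul_left h1 hX
  have h3 : D * b ≤ c₁ * K / (32 * L) := by
    have h4 : D * b ≤ D * (K / L ^ 3) := mul_le_mul_of_nonneg_left hb hD.le
    refine h4.trans ?_
    rw [div_le_iff₀ hc₁] at hL32
    rw [mul_div_assoc', div_le_div_iff₀ (by positivity) (by positivity)]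
    have h5 : L ≤ L ^ 2 := by nlinarith
    have h6 : D * 32 ≤ c₁ * L ^ 2 := by nlinarith
    calc D * K * (32 * L) = (D * 32) * (K * L) := by ring
      _ ≤ (c₁ * L ^ 2) * (K * L) := mul_le_mul_of_nonneg_right h6 (by positivity)
      _ = c₁ * K * L ^ 3 := by ring
  have h7 : c₁ * K / (32 * L) ≤ D * (C * L * s) := by
    have e3 : c₁ * K / (16 * L) = c₁ * K / (32 * L) + c₁ * K / (32 * L) := by
      field_simp
      ring
    rw [e3] at h2
    nlinarith
  have h8 : D * (C * L * s) ≤ D * ((C + 1) * L * s) := by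
    refine mul_le_mul_of_nonneg_left ?_ hD.le
    refine mul_le_mul_of_nonneg_right ?_ hs
    exact mul_le_mul_of_nonneg_right (by linarith) hL0.le
  have h9 := h7.trans h8
  have e4 : c₁ / (32 * D * (C + 1)) * K / L ^ 2 = c₁ * K / (32 * L) / (D * ((C + 1) * L)) := by
    field_simp
  rw [e4, div_le_iff₀ (by positivity)]
  linarith

/-- primes `q` with `q ^ 2 - 2` almost prime, right order of magnitude -/
theorem deq_A (h1 : St_Low) (h2 : St_Bad) (h3 : Pool.Agent.SI.St_RU) (h4 : St_RhoLow) :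
    ∃ c : ℝ, 0 < c ∧ ∀ K : ℕ, 2 ≤ K → ∃ S : Finset ℕ,
      (∀ q ∈ S, q ≤ K ∧ q.Prime ∧ Nat.IsAtMostAlmostPrime 5 (q ^ 2 - 2)) ∧
      c * K / (1 + Real.log K) ^ 2 ≤ (S.card : ℝ) := by
  classical
  obtain ⟨η, hη⟩ := exists_wt
  obtain ⟨c₁, C, B₀, hc₁, hlow⟩ := h1 η hη
  obtain ⟨Cb, hCb⟩ := h2
  obtain ⟨Cr, hCr, hRU⟩ := h3
  obtain ⟨c₂, hc₂, hrho⟩ := h4
  have hC0 : (0 : ℝ) ≤ C := Nat.cast_nonneg C
  have hCb0 : (0 : ℝ) ≤ Cb := Nat.cast_nonneg Cb
  obtain ⟨D, hDd⟩ : ∃ D : ℝ, D = Cr / c₂ := ⟨_, rfl⟩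
  have hD : 0 < D := by
    rw [hDd]
    positivity
  obtain ⟨E, hE⟩ : ∃ E : ℕ, E = C + 6 := ⟨_, rfl⟩
  obtain ⟨B, hBd⟩ : ∃ B : ℕ, B = max B₀ (E + 1) := ⟨_, rfl⟩
  have hBa : B₀ ≤ B := by omega
  have hBc : E + 1 ≤ B := by omega
  obtain ⟨P, hP⟩ : ∃ P : ℝ, P = (Cb : ℝ) + 1 := ⟨_, rfl⟩
  have hP1 : 1 ≤ P := by linarith
  have hlt := (Real.tendsto_log_atTop.comp
    (tendsto_natCast_atTop_atTop (R := ℝ))).eventually_ge_atTop (4 * P + 1 + 32 * D / c₁)
  obtain ⟨X₀, hX₀⟩ := eventually_atTop.1 ((hlow B hBa).and ((core_large 1 (by norm_num) B).and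
    ((core_large ((64 * P) ^ 2) (by positivity) (B + 2 * (E + 1 + 0))).and
      (hlt.and (eventually_ge_atTop 64)))))
  obtain ⟨c₃, hc₃d⟩ : ∃ c₃ : ℝ, c₃ = c₁ / (32 * D * ((C : ℝ) + 1)) := ⟨_, rfl⟩
  have hc₃ : 0 < c₃ := by
    rw [hc₃d]
    positivity
  refine ⟨min (c₃ / 9) (1 / ((X₀ : ℝ) + 1)), lt_min (by positivity) (by positivity),
    fun K hK => ?_⟩
  have hK2 : (2 : ℝ) ≤ K := by exact_mod_cast hK
  have hK0 : (0 : ℝ) < K := by linarith
  have hl0 : 0 ≤ Real.log K := Real.log_nonneg (by linarith)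
  rcases Nat.lt_or_ge K X₀ with hlt' | hge
  · refine ⟨{2}, ?_, ?_⟩
    · intro q hq
      rw [mem_singleton] at hq
      subst hq
      refine ⟨hK, Nat.prime_two, by norm_num, ?_⟩
      have : ArithmeticFunction.cardFactors (2 ^ 2 - 2) = 1 := by
        have e : (2 ^ 2 - 2 : ℕ) = 2 := by norm_num
        rw [e]
        exact ArithmeticFunction.cardFactors_apply_prime Nat.prime_two
      rw [this]
      norm_num
    · rw [card_singleton, Nat.cast_one]
      have h1 : (K : ℝ) ≤ (X₀ : ℝ) + 1 := by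
        have : (K : ℝ) < X₀ := by exact_mod_cast hlt'
        linarith
      have h2 : min (c₃ / 9) (1 / ((X₀ : ℝ) + 1)) * K ≤ 1 := by
        calc min (c₃ / 9) (1 / ((X₀ : ℝ) + 1)) * K ≤ 1 / ((X₀ : ℝ) + 1) * ((X₀ : ℝ) + 1) :=
              mul_le_mul (min_le_right _ _) h1 (by linarith) (by positivity)
          _ = 1 := by field_simp
      rw [div_le_one (by positivity)]
      refine h2.trans ?_
      exact one_le_pow₀ (by linarith)
  · obtain ⟨X, hXd⟩ : ∃ X : ℕ, X = 8 * K := ⟨_, rfl⟩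
    obtain ⟨x1, x1', x3, x4, x5⟩ := hX₀ X (by omega)
    rw [Function.comp] at x4
    obtain ⟨c, y, hy, hT2, hdet, hmain⟩ := x1 1 le_rfl (by
      rw [Nat.cast_one]
      exact Real.one_le_rpow (by exact_mod_cast (show 1 ≤ X by omega)) (by norm_num))
    clear x1
    obtain ⟨L, hLd⟩ : ∃ L : ℝ, L = Real.log X := ⟨_, rfl⟩
    have hKd : X / (8 * 1) = K := by omega
    obtain ⟨z, hzd⟩ : ∃ z : ℕ, z = zz B X := ⟨_, rfl⟩
    rw [hKd, ← hLd] at hT2
    rw [hKd] at hy
    rw [← hLd] at x1' x3 x4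
    simp only [hKd, ← hzd, ← hLd] at hdet hmain hT2
    have hDc : 0 < 32 * D / c₁ := by positivity
    have hL1 : 1 ≤ L := by linarith
    have hL0 : 0 < L := by linarith
    have hLP : 4 * P + 1 ≤ L := by linarith
    have hL32 : 32 * D / c₁ ≤ L := by linarith
    have hXr : (64 : ℝ) ≤ X := by exact_mod_cast x5
    have hX0 : (0 : ℝ) < X := by linarith
    have hKX : K ≤ X := by omega
    have hXK : (X : ℝ) = 8 * K := by
      rw [hXd]
      push_cast
      ring
    have hzle : (z : ℝ) ≤ L ^ B := by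
      rw [hzd, zz, ← hLd]
      exact Nat.floor_le (by positivity)
    have hzge : L ^ B ≤ (z : ℝ) + 1 := by
      rw [hzd, zz, ← hLd]
      exact (Nat.lt_floor_add_one _).le
    have hz2 : 2 ≤ z := by
      have h5 : L ^ 1 ≤ L ^ B := pow_le_pow_right₀ hL1 (by omega)
      rw [pow_one] at h5
      have : (2 : ℝ) ≤ z := by linarith
      exact_mod_cast this
    have hzX : z ≤ X := by
      have : (z : ℝ) ≤ X := by linarith
      exact_mod_cast this
    -- the bad set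
    obtain ⟨bad, hbadd⟩ : ∃ bad : Finset ℕ, bad = (Icc 2 K).filter (fun k => k ≤ z ∨
      (¬ k.Prime ∧ lam k ≠ 0) ∨ (1 * k < X ∧ ¬ (X - 1 * k).Prime ∧ lam (X - 1 * k) ≠ 0) ∨
      ∃ p ∈ range (y + 1), p.Prime ∧ z < p ∧ p ^ 2 ∣ k ^ 2 - 2) := ⟨_, rfl⟩
    have hbc := hCb K y z 1 X hK hz2 le_rfl (by omega) hKX
    have hbc' : (bad.card : ℝ) ≤ K / L ^ E := by
      have h5 := core_num (A := 0) (B := B) (E := E) (y := (y : ℝ)) (z := (z : ℝ)) (n := (X : ℝ))
        (m := 1) (k := (K : ℝ)) (X := (X : ℝ)) hP1 hL1 hLP hBc x3 one_pos (by rw [pow_zero])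
        (by rw [hXK]; linarith) hzle hzge hy le_rfl (by linarith) hLd.symm
      refine le_trans ?_ h5
      rw [hbadd]
      have h6 : 0 ≤ (z : ℝ) + (K : ℝ) / z + y + Real.sqrt X * Real.log X := by
        rw [← hLd]
        positivity
      have h7 : (Cb : ℝ) * (z + (K : ℝ) / z + y + Real.sqrt X * Real.log X) ≤
          P * ((z : ℝ) + (K : ℝ) / z + y + Real.sqrt X * Real.log X) :=
        mul_le_mul_of_nonneg_right (by linarith) h6
      refine le_trans ?_ h7
      refine le_trans (le_of_eq ?_) hbc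
      congr 2
    have hcs := core_cs (T := Tw η K z c) (K := K) (C := C) (E := E) (L := L) (bad := bad) hL1 hE
      (fun k hk => by
        rw [hbadd] at hk
        have := mem_Icc.1 (mem_filter.1 hk).1
        rw [mem_range]
        omega) hbc' hT2
    obtain ⟨S, hSd⟩ : ∃ S : Finset ℕ, S = (range (K + 1)).filter (fun k => k.Prime ∧
      Nat.IsAtMostAlmostPrime 5 (k ^ 2 - 2)) := ⟨_, rfl⟩
    -- the sum over `n`
    obtain ⟨N, hNd⟩ : ∃ N : Finset ℕ, N = (range (X + 1)).filter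
      (fun n => X ≤ 2 * (n + 1) ∧ 4 * n ≤ 3 * X ∧ n % 2 = 0) := ⟨_, rfl⟩
    have hNmem : ∀ n ∈ N, X ≤ 2 * (n + 1) ∧ 4 * n ≤ 3 * X ∧ n % 2 = 0 := fun n hn => by
      rw [hNd] at hn
      exact (mem_filter.1 hn).2
    have hNcard : (X : ℝ) / 16 ≤ (N.card : ℝ) := by
      have h5 := qk_card X
      rw [← hNd] at h5
      linarith
    have hsum : (N.card : ℝ) * (c₁ * K / L) ≤
        ∑ k ∈ range (K + 1), Tw η K z c k * ∑ n ∈ N, LamS z (n - 1 * k) := by
      have h5 : ∑ n ∈ N, c₁ * K / L ≤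
          ∑ n ∈ N, ∑ k ∈ range (K + 1), Tw η K z c k * LamS z (n - 1 * k) := by
        refine sum_le_sum fun n hn => ?_
        obtain ⟨n1, n2, n3⟩ := hNmem n hn
        refine hmain n n1 n2 (fun p hp hpd => ?_) (by omega)
        have hpp : p.Prime := (mem_filter.1 hp).2
        exact hpp.one_lt.ne' (Nat.dvd_one.1 hpd.2)
      rw [sum_const, nsmul_eq_mul, sum_comm] at h5
      refine h5.trans (le_of_eq ?_)
      exact sum_congr rfl fun k _ => (mul_sum _ _ _).symm
    have hmean := deq_mean hc₂ hz2 (hRU z X hz2 hzX) (hrho z hz2)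
    rw [← hDd] at hmean
    have hleft := deq_left hη (X := X) (K := K) (z := z) (y := y) (C := C) (c := c) (by omega) hKX
      (U := fun k => ∑ n ∈ N, LamS z (n - 1 * k)) (M := D * X)
      (fun k => sum_nonneg fun n _ => LamS_nonneg z _)
      (fun k hk => (deq_shift N fun n hn => by
        obtain ⟨n1, n2, n3⟩ := hNmem n hn
        omega).trans hmean) hdet (bad := bad) (S := S)
      (fun k hk h => by
        rw [hbadd, mem_filter]
        refine ⟨hk, ?_⟩
        rcases h with h | h | h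
        · exact Or.inl h
        · exact Or.inr (Or.inl h)
        · exact Or.inr (Or.inr (Or.inr h)))
      (fun k hk h5 h6 => by
        rw [hSd, mem_filter, mem_range]
        exact ⟨by omega, h5, h6⟩)
    rw [← hLd] at hleft
    have hfin := deq_num (s := (S.card : ℝ)) hc₁ hD hC0 (Nat.cast_nonneg _) hK0 hL1 hX0 hNcard
      hL32 hcs (hsum.trans hleft)
    refine ⟨S, fun q hq => ?_, ?_⟩
    · rw [hSd, mem_filter, mem_range] at hq
      exact ⟨by omega, hq.2.1, hq.2.2⟩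
    · refine le_trans ?_ hfin
      rw [← hc₃d]
      have hL3 : L ≤ 3 * (1 + Real.log K) := by
        rw [hLd, hXK, Real.log_mul (by norm_num) (by linarith)]
        have h8 : Real.log 8 ≤ 3 := by
          rw [Real.log_le_iff_le_exp (by norm_num)]
          have h10 : Real.exp 3 = Real.exp 1 ^ 3 := by
            rw [← Real.exp_nat_mul]
            norm_num
          rw [h10]
          have h11 := Real.exp_one_gt_d9
          have h12 : (2.7182818283 : ℝ) ^ 3 ≤ Real.exp 1 ^ 3 :=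
            pow_le_pow_left₀ (by norm_num) h11.le 3
          norm_num at h12 ⊢
          linarith
        linarith
      have hL9 : L ^ 2 ≤ 9 * (1 + Real.log K) ^ 2 := by
        have := pow_le_pow_left₀ hL0.le hL3 2
        linarith
      have hp : 0 < (1 + Real.log K) ^ 2 := by positivity
      have h9 : min (c₃ / 9) (1 / ((X₀ : ℝ) + 1)) * K ≤ c₃ / 9 * K :=
        mul_le_mul_of_nonneg_right (min_le_left _ _) hK0.le
      calc min (c₃ / 9) (1 / ((X₀ : ℝ) + 1)) * K / (1 + Real.log K) ^ 2 ≤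
          c₃ / 9 * K / (1 + Real.log K) ^ 2 := div_le_div_of_nonneg_right h9 hp.le
        _ = c₃ * K / (9 * (1 + Real.log K) ^ 2) := by
            field_simp
        _ ≤ c₃ * K / L ^ 2 :=
            div_le_div_of_nonneg_left (by positivity) (by positivity) hL9

theorem thm_DeQ (h1 : Pool.Agent.GBQ.St_Low) (h2 : Pool.Agent.GBQ.St_Bad)
    (h3 : Pool.Agent.SI.St_RU) (h4 : Pool.Agent.GBQ.St_RhoLow) (h5 : St_OmB) : St_DeQ := by
  classical
  obtain ⟨c₀, hc₀, hQ⟩ := deq_A h1 h2 h3 h4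
  obtain ⟨C, n₀, hC, hO⟩ := h5
  have hL : Tendsto (fun n : ℕ => Real.log n) atTop atTop :=
    Real.tendsto_log_atTop.comp tendsto_natCast_atTop_atTop
  obtain ⟨n₁, hn₁⟩ := eventually_atTop.1 ((hL.eventually_ge_atTop (1 + 8 * C / c₀)).and
    (eventually_ge_atTop n₀))
  refine ⟨c₀ / 2, n₁, by positivity, fun n hn K hK hKn => ?_⟩
  obtain ⟨he, hn0⟩ := hn₁ n hn
  obtain ⟨S₀, hS₀, hcard⟩ := hQ K hK
  have hbad := hO n hn0 K hK hKn
  have hK0 : (2 : ℝ) ≤ K := by exact_mod_cast hK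
  have hlK : 0 ≤ Real.log K := Real.log_nonneg (by linarith)
  have hlKL : Real.log K ≤ Real.log n := Real.log_le_log (by linarith) (by exact_mod_cast hKn)
  obtain ⟨B, hB⟩ : ∃ B : Finset ℕ, B = S₀.filter (fun q => 8 * Real.log (Real.log n) <
    (ArithmeticFunction.cardFactors (Nat.nth Nat.Prime (q - 1) - q + 1) : ℝ)) := ⟨_, rfl⟩
  obtain ⟨L, hLd⟩ : ∃ L : ℝ, L = Real.log n := ⟨_, rfl⟩
  have hCc : 0 < 8 * C / c₀ := by positivity
  have hL1 : 1 ≤ L := by linarith
  have hB1 : (B.card : ℝ) ≤ C * K / L ^ (31 / 10 : ℝ) := by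
    rw [hLd]
    refine le_trans ?_ hbad
    have : B ⊆ (Icc 2 K).filter (fun q => 8 * Real.log (Real.log n) <
        (ArithmeticFunction.cardFactors (Nat.nth Nat.Prime (q - 1) - q + 1) : ℝ)) := by
      intro q hq
      rw [hB, mem_filter] at hq
      obtain ⟨g1, g2, -⟩ := hS₀ q hq.1
      rw [mem_filter, mem_Icc]
      exact ⟨⟨g2.two_le, g1⟩, hq.2⟩
    exact_mod_cast card_le_card this
  have hB2 : (B.card : ℝ) ≤ c₀ / 2 * K / (1 + Real.log K) ^ 2 := by
    refine hB1.trans ?_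
    have h6 : L ^ 3 ≤ L ^ (31 / 10 : ℝ) := by
      have := Real.rpow_le_rpow_of_exponent_le hL1 (show (3 : ℝ) ≤ 31 / 10 by norm_num)
      have e : L ^ (3 : ℝ) = L ^ 3 := by
        rw [← Real.rpow_natCast]
        norm_num
      rwa [e] at this
    have h7 : (1 + Real.log K) ^ 2 ≤ (2 * L) ^ 2 :=
      pow_le_pow_left₀ (by linarith) (by linarith) 2
    have h8 : C * K / L ^ (31 / 10 : ℝ) ≤ C * K / L ^ 3 :=
      div_le_div_of_nonneg_left (by positivity) (by positivity) h6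
    refine h8.trans ?_
    rw [div_le_div_iff₀ (by positivity) (by positivity)]
    have h9 : 8 * C / c₀ ≤ L := by linarith
    rw [div_le_iff₀ hc₀] at h9
    calc C * K * (1 + Real.log K) ^ 2 ≤ C * K * (2 * L) ^ 2 :=
          mul_le_mul_of_nonneg_left h7 (by positivity)
      _ = (8 * C) * (K * L ^ 2) / 2 := by ring
      _ ≤ (L * c₀) * (K * L ^ 2) / 2 :=
          div_le_div_of_nonneg_right (mul_le_mul_of_nonneg_right h9 (by positivity)) (by norm_num)
      _ = c₀ / 2 * K * L ^ 3 := by ring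
  refine ⟨S₀ \ B, fun q hq => ?_, ?_⟩
  · rw [Finset.mem_sdiff] at hq
    obtain ⟨h3, h4, h5⟩ := hS₀ q hq.1
    refine ⟨h3, h4, h5, ?_⟩
    by_contra h6
    push Not at h6
    exact hq.2 (by
      rw [hB, mem_filter]
      exact ⟨hq.1, h6⟩)
  · have h3 : S₀.card ≤ (S₀ \ B).card + B.card := by
      have := card_sdiff_add_card_eq_card (show B ⊆ S₀ by
        rw [hB]
        exact filter_subset _ _)
      exact this.ge
    have h4 : (S₀.card : ℝ) ≤ (S₀ \ B).card + B.card := by exact_mod_cast h3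
    have h5 : c₀ * K / (1 + Real.log K) ^ 2 = 2 * (c₀ / 2 * K / (1 + Real.log K) ^ 2) := by ring
    linarith

end Pool.Agent.AAN
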