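import Mathlib
import Pool.Agent.AAN.Stmts

set_option autoImplicit false

/-!
# AAN / Dya: from blocks to all `n ≤ N`
-/

namespace Pool.Agent.AAN

open Finset Filter

theorem thm_Dya : St_Dya := by
  intro P X₀ D hX₀ hD N
  induction N using Nat.strong_induction_on with
  | _ N ih =>
    intro hB F hF
    rcases lt_or_ge N X₀ with hN | hN
    · have h1 : F ⊆ range (N + 1) := by
        intro n hn
        have := (hF n hn).1
        rw [mem_range]
        omega
      have h2 := card_le_card h1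
      rw [card_range] at h2
      have h3 : (F.card : ℝ) ≤ X₀ := by exact_mod_cast (by omega : F.card ≤ X₀)
      have : 0 ≤ 8 * D * N := by positivity
      linarith
    · obtain ⟨X, hXdef⟩ : ∃ X : ℕ, X = (4 * N + 2) / 3 := ⟨_, rfl⟩
      have hX1 : 4 * N ≤ 3 * X := by omega
      have hX2 : 3 * X ≤ 4 * N + 2 := by omega
      have hX3 : X₀ ≤ X := by omega
      have hX4 : X ≤ 2 * N := by omega
      obtain ⟨F₁, hF₁⟩ : ∃ F₁ : Finset ℕ, F₁ = F.filter (fun n => X ≤ 2 * n) := ⟨_, rfl⟩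
      obtain ⟨F₂, hF₂⟩ : ∃ F₂ : Finset ℕ, F₂ = F.filter (fun n => ¬ X ≤ 2 * n) := ⟨_, rfl⟩
      have hcard : F.card = F₁.card + F₂.card := by
        rw [hF₁, hF₂]
        exact (card_filter_add_card_filter_not _).symm
      have h1 : (F₁.card : ℝ) ≤ D * X := by
        refine hB X hX3 hX4 F₁ fun n hn => ?_
        rw [hF₁, mem_filter] at hn
        obtain ⟨g1, g2⟩ := hF n hn.1
        exact ⟨hn.2, by omega, g2⟩
      have h2 : (F₂.card : ℝ) ≤ X₀ + 8 * D * (((X - 1) / 2 : ℕ) : ℝ) := by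
        refine ih ((X - 1) / 2) (by omega) (fun X' g1 g2 => hB X' g1 (by omega)) F₂ fun n hn => ?_
        rw [hF₂, mem_filter] at hn
        obtain ⟨g1, g2⟩ := hF n hn.1
        exact ⟨by omega, g2⟩
      have h3 : (6 : ℝ) * (((X - 1) / 2 : ℕ) : ℝ) ≤ 4 * N := by
        exact_mod_cast (by omega : 6 * ((X - 1) / 2) ≤ 4 * N)
      have h4 : (X : ℝ) ≤ 2 * N := by exact_mod_cast hX4
      have hN0 : (0 : ℝ) ≤ N := Nat.cast_nonneg _
      rw [hcard]
      push_cast
      nlinarith [mul_le_mul_of_nonneg_left h3 hD, mul_le_mul_of_nonneg_left h4 hD,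
        mul_nonneg hD hN0]

end Pool.Agent.AAN
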