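import Pool.Agent.AAN.Stmts

/-!
# AAN [Fin]: assembly of the two bounds for the exceptional set
-/

set_option autoImplicit false

namespace Pool.Agent.AAN

open Finset Filter
open Pool.Agent.GBQ (Admissible)
open Pool.Agent.EVN (SolP)

/-- `n` is exceptional -/
def fin_Bad (c : ℝ) (j : ℕ) (Φ : ℕ → ℕ → Prop) (m n : ℕ) : Prop :=
  Admissible m n ∧ (SolP Φ m n = ∅ ∨
    (12 * m ≤ n ∧ ((SolP Φ m n).card : ℝ) < c * n / Real.log n ^ j))

/-- For a large exceptional `n` the number `m` is small and there are few solutions. -/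
theorem fin_bad {c : ℝ} {j : ℕ} {Φ : ℕ → ℕ → Prop} (hc : 0 < c) (hT : T4H c j Φ) :
    ∃ n₀ : ℕ, 3 ≤ n₀ ∧ ∀ m n : ℕ, n₀ ≤ n → fin_Bad c j Φ m n →
      (m : ℝ) ≤ (n : ℝ) ^ (2 / 7 : ℝ) ∧ ((SolP Φ m n).card : ℝ) < c * n / Real.log n ^ j := by
  obtain ⟨n₁, hn₁⟩ := hT (1 / 28) (by norm_num)
  obtain ⟨n₂, hn₂⟩ := eventually_atTop.1 (((tendsto_rpow_atTop
    (show (0 : ℝ) < 5 / 7 by norm_num)).comp
      (tendsto_natCast_atTop_atTop (R := ℝ))).eventually_ge_atTop 12)
  refine ⟨max n₁ (max n₂ 3), (le_max_right _ _).trans (le_max_right _ _), fun m n hn hb => ?_⟩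
  obtain ⟨hA, hb⟩ := hb
  have hn1 : n₁ ≤ n := (le_max_left _ _).trans hn
  have hn2 : n₂ ≤ n := ((le_max_left _ _).trans (le_max_right _ _)).trans hn
  have hn3 : 3 ≤ n := ((le_max_right _ _).trans (le_max_right _ _)).trans hn
  have hn3r : (3 : ℝ) ≤ n := by exact_mod_cast hn3
  have hn0 : (0 : ℝ) < n := by linarith
  have hlog : 0 < Real.log n := Real.log_pos (by linarith)
  have hm : ¬ (n : ℝ) ^ (1 / 4 + 1 / 28 : ℝ) ≤ m := by
    intro h
    obtain ⟨h1, h2⟩ := hn₁ n m hn1 h hA.2.1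
    rcases hb with hb | ⟨h3, h4⟩
    · rw [hb] at h1
      exact Finset.not_nonempty_empty h1
    · exact absurd h4 (not_lt.2 (h2 h3))
  rw [show (1 / 4 + 1 / 28 : ℝ) = 2 / 7 by norm_num, not_le] at hm
  refine ⟨hm.le, ?_⟩
  rcases hb with hb | ⟨-, h4⟩
  · rw [hb, card_empty]
    push_cast
    positivity
  · exact h4

theorem fin_log_ge (a : ℝ) : ∀ᶠ N : ℕ in atTop, a ≤ Real.log N :=
  (Real.tendsto_log_atTop.comp tendsto_natCast_atTop_atTop).eventually_ge_atTop a

/-- The first bound. -/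
theorem fin_I (hD : St_Dya) {c : ℝ} {j : ℕ} {Φ : ℕ → ℕ → Prop} (hc : 0 < c) (hC : CorH c j Φ)
    (hT : T4H c j Φ) : ∃ C : ℕ, ∃ N₁ : ℕ, ∀ N ≥ N₁, ∀ m : ℕ, 1 ≤ m → ∀ F : Finset ℕ,
      (∀ n ∈ F, n ≤ N ∧ fin_Bad c j Φ m n) → (m : ℝ) * F.card ≤ N * Real.log N ^ C := by
  obtain ⟨n₀, hn₀3, hn₀⟩ := fin_bad hc hT
  obtain ⟨C₀, hC⟩ := hC
  obtain ⟨X₁, hX₁⟩ := eventually_atTop.1 hC
  obtain ⟨X₀, hX₀def⟩ : ∃ X₀ : ℕ, X₀ = 2 * n₀ + X₁ + 1 := ⟨_, rfl⟩
  have hX₀pos : (0 : ℝ) < X₀ := by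
    have : 0 < X₀ := by omega
    exact_mod_cast this
  obtain ⟨N₂, hN₂⟩ := eventually_atTop.1 (fin_log_ge (1 + 8 * 2 ^ C₀))
  refine ⟨C₀ + 1, max N₂ (X₀ ^ 3 + 3), fun N hN m hm F hF => ?_⟩
  have hNN : N₂ ≤ N := (le_max_left _ _).trans hN
  have hNX : X₀ ^ 3 + 3 ≤ N := (le_max_right _ _).trans hN
  have hL := hN₂ N hNN
  have hNr : (3 : ℝ) ≤ N := by
    have : 3 ≤ N := by omega
    exact_mod_cast this
  have hN0 : (0 : ℝ) < N := by linarith
  have hmr : (1 : ℝ) ≤ m := by exact_mod_cast hm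
  have hm0 : (0 : ℝ) < m := by linarith
  have hLpos : 1 ≤ Real.log N := by
    have : (0 : ℝ) ≤ 8 * 2 ^ C₀ := by positivity
    linarith
  by_cases hmX : m * X₀ ≤ N
  · -- the blocks
    have h1 := hD (fin_Bad c j Φ m) X₀ (Real.log (2 * N) ^ C₀ / m) (by omega)
      (div_nonneg (pow_nonneg (Real.log_nonneg (by linarith)) _) hm0.le) N ?_ F hF
    · have h2 : Real.log (2 * N) ≤ 2 * Real.log N := by
        rw [Real.log_mul (by norm_num) hN0.ne']
        have : Real.log 2 ≤ Real.log N := Real.log_le_log (by norm_num) (by linarith)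
        linarith
      have h3 : Real.log (2 * N) ^ C₀ ≤ (2 * Real.log N) ^ C₀ :=
        pow_le_pow_left₀ (Real.log_nonneg (by linarith)) h2 _
      have h4 : (m : ℝ) * F.card ≤ m * (X₀ + 8 * (Real.log (2 * N) ^ C₀ / m) * N) :=
        mul_le_mul_of_nonneg_left h1 hm0.le
      have h5 : (m : ℝ) * (X₀ + 8 * (Real.log (2 * N) ^ C₀ / m) * N) =
          m * X₀ + 8 * Real.log (2 * N) ^ C₀ * N := by
        field_simp
      have h6 : (m : ℝ) * X₀ ≤ N := by exact_mod_cast hmX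
      have h7 : (1 : ℝ) ≤ Real.log N ^ C₀ := one_le_pow₀ hLpos
      rw [h5] at h4
      calc (m : ℝ) * F.card ≤ m * X₀ + 8 * Real.log (2 * N) ^ C₀ * N := h4
        _ ≤ N * Real.log N ^ C₀ + 8 * (2 * Real.log N) ^ C₀ * N := by
            have h8 : 8 * Real.log (2 * N) ^ C₀ * N ≤ 8 * (2 * Real.log N) ^ C₀ * N := by
              apply mul_le_mul_of_nonneg_right _ hN0.le
              linarith
            have h9 : (N : ℝ) ≤ N * Real.log N ^ C₀ := le_mul_of_one_le_right hN0.le h7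
            linarith
        _ = (N * Real.log N ^ C₀) * (1 + 8 * 2 ^ C₀) := by
            rw [mul_pow]
            ring
        _ ≤ (N * Real.log N ^ C₀) * Real.log N :=
            mul_le_mul_of_nonneg_left hL (by positivity)
        _ = N * Real.log N ^ (C₀ + 1) := by rw [pow_succ]; ring
    · intro X hX hXN F' hF'
      have hX0 : (0 : ℝ) < X := by
        have : 0 < X := by omega
        exact_mod_cast this
      rcases F'.eq_empty_or_nonempty with rfl | ⟨n, hn⟩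
      · rw [card_empty, Nat.cast_zero]
        exact mul_nonneg (div_nonneg (pow_nonneg (Real.log_nonneg (by linarith)) _) hm0.le) hX0.le
      · have hbig : ∀ n ∈ F', n₀ ≤ n := by
          intro n hn
          have := (hF' n hn).1
          omega
        obtain ⟨h2, h3, h4⟩ := hF' n hn
        obtain ⟨h5, -⟩ := hn₀ m n (hbig n hn) h4
        have hX1 : (1 : ℝ) ≤ X := by
          have : 1 ≤ X := by omega
          exact_mod_cast this
        have hnX : (n : ℝ) ≤ X := by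
          have : n ≤ X := by omega
          exact_mod_cast this
        have h6 : (m : ℝ) ≤ (X : ℝ) ^ (1 / 3 : ℝ) := by
          refine h5.trans ((Real.rpow_le_rpow (Nat.cast_nonneg n) hnX (by norm_num)).trans ?_)
          exact Real.rpow_le_rpow_of_exponent_le hX1 (by norm_num)
        have h7 := hX₁ X (by omega) m hm h6 F' (fun n hn =>
          ⟨(hF' n hn).1, (hF' n hn).2.1, (hn₀ m n (hbig n hn) (hF' n hn).2.2).2⟩)
        have h8 : Real.log X ≤ Real.log (2 * N) :=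
          Real.log_le_log hX0 (by exact_mod_cast hXN)
        have h9 : Real.log X ^ C₀ ≤ Real.log (2 * N) ^ C₀ :=
          pow_le_pow_left₀ (Real.log_nonneg hX1) h8 _
        rw [div_mul_eq_mul_div, le_div_iff₀ hm0]
        calc (F'.card : ℝ) * m = m * F'.card := mul_comm _ _
          _ ≤ X * Real.log X ^ C₀ := h7
          _ ≤ X * Real.log (2 * N) ^ C₀ := mul_le_mul_of_nonneg_left h9 hX0.le
          _ = Real.log (2 * N) ^ C₀ * X := mul_comm _ _
  · -- no exceptional `n` for large `m`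
    have hFe : F = ∅ := by
      rw [Finset.eq_empty_iff_forall_notMem]
      intro n hn
      obtain ⟨h1, h2⟩ := hF n hn
      have h3 : 2 * m + 1 < n := h2.1.2.1
      have h4 : N < m * X₀ := not_le.1 hmX
      -- `n` is large
      have h5 : X₀ * X₀ ^ 2 < n * X₀ := by
        calc X₀ * X₀ ^ 2 = X₀ ^ 3 := by ring
          _ < N := by omega
          _ < m * X₀ := h4
          _ ≤ n * X₀ := Nat.mul_le_mul_right _ (by omega)
      have h6 : X₀ ^ 2 < n := by
        rw [mul_comm n X₀] at h5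
        exact lt_of_mul_lt_mul_left h5 (Nat.zero_le _)
      have h7 : n₀ ≤ n := by
        have : X₀ ≤ X₀ ^ 2 := Nat.le_self_pow (by norm_num) _
        omega
      obtain ⟨h8, -⟩ := hn₀ m n h7 h2
      have hn0 : (0 : ℝ) < n := by
        have : 0 < n := by omega
        exact_mod_cast this
      have hn1 : (1 : ℝ) ≤ n := by
        have : 1 ≤ n := by omega
        exact_mod_cast this
      have h9 : (n : ℝ) < m * X₀ := by exact_mod_cast h1.trans_lt h4
      have h10 : (X₀ : ℝ) < (n : ℝ) ^ (1 / 2 : ℝ) := by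
        have h11 : (X₀ : ℝ) ^ 2 < n := by exact_mod_cast h6
        rw [← Real.sqrt_eq_rpow]
        exact Real.lt_sqrt_of_sq_lt h11
      have h11 : (n : ℝ) ^ (2 / 7 : ℝ) ≤ (n : ℝ) ^ (1 / 2 : ℝ) :=
        Real.rpow_le_rpow_of_exponent_le hn1 (by norm_num)
      have h12 : (n : ℝ) ^ (1 / 2 : ℝ) * (n : ℝ) ^ (1 / 2 : ℝ) = n := by
        rw [← Real.rpow_add hn0]
        norm_num
      have h13 : (m : ℝ) * X₀ ≤ (n : ℝ) ^ (1 / 2 : ℝ) * (n : ℝ) ^ (1 / 2 : ℝ) :=
        mul_le_mul (h8.trans h11) h10.le hX₀pos.le (Real.rpow_nonneg hn0.le _)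
      linarith
    rw [hFe, card_empty, Nat.cast_zero, mul_zero]
    exact mul_nonneg hN0.le (pow_nonneg (by linarith) _)

/-- The second bound for small `m`. -/
theorem fin_II (hD : St_Dya) {c : ℝ} {j : ℕ} {Φ : ℕ → ℕ → Prop} (hc : 0 < c) (hS : SmlH c j Φ)
    (hT : T4H c j Φ) (A B : ℕ) : ∃ N₁ : ℕ, ∀ N ≥ N₁, ∀ m : ℕ, 1 ≤ m →
      (m : ℝ) ≤ Real.log N ^ B → ∀ F : Finset ℕ, (∀ n ∈ F, n ≤ N ∧ fin_Bad c j Φ m n) →
      (F.card : ℝ) ≤ N / Real.log N ^ A := by
  obtain ⟨n₀, hn₀3, hn₀⟩ := fin_bad hc hT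
  obtain ⟨X₁, hX₁⟩ := eventually_atTop.1 (hS (A + 2) (B + 1))
  obtain ⟨X₂, hX₂⟩ := eventually_atTop.1 (fin_log_ge ((2 : ℝ) ^ B))
  obtain ⟨N₂, hN₂⟩ := eventually_atTop.1 (fin_log_ge ((64 : ℝ) * 2 ^ A + 1))
  -- `√N + X₃ ≤ N / (2 (log N)^A)`
  obtain ⟨X₃, hX₃def⟩ : ∃ X₃ : ℕ, X₃ = 2 * n₀ + X₁ + X₂ + 1 := ⟨_, rfl⟩
  have hlit : ∀ᶠ N : ℕ in atTop, Real.log N ^ A ≤ 1 / (2 * (X₃ + 1)) * Real.sqrt N := by
    have h1 := (isLittleO_log_rpow_rpow_atTop (A : ℝ) (show (0 : ℝ) < 1 / 2 by norm_num)).def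
      (show (0 : ℝ) < 1 / (2 * (X₃ + 1)) by positivity)
    have h2 := tendsto_natCast_atTop_atTop.eventually h1
    filter_upwards [h2, eventually_ge_atTop 3] with N hN hN3
    have hlog : 0 ≤ Real.log N := Real.log_natCast_nonneg N
    rw [Real.rpow_natCast, Real.norm_of_nonneg (pow_nonneg hlog A),
      Real.norm_of_nonneg (Real.rpow_nonneg (Nat.cast_nonneg N) _), ← Real.sqrt_eq_rpow] at hN
    exact hN
  obtain ⟨N₃, hN₃⟩ := eventually_atTop.1 hlit
  refine ⟨max N₂ (max N₃ 3), fun N hN m hm hmB F hF => ?_⟩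
  have hNN2 : N₂ ≤ N := (le_max_left _ _).trans hN
  have hNN3 : N₃ ≤ N := ((le_max_left _ _).trans (le_max_right _ _)).trans hN
  have hN3 : 3 ≤ N := ((le_max_right _ _).trans (le_max_right _ _)).trans hN
  have hL := hN₂ N hNN2
  have hE := hN₃ N hNN3
  have hNr : (3 : ℝ) ≤ N := by exact_mod_cast hN3
  have hN0 : (0 : ℝ) < N := by linarith
  have hLpos : 1 ≤ Real.log N := by
    have : (0 : ℝ) ≤ 64 * 2 ^ A := by positivity
    linarith
  have hL0 : 0 < Real.log N := by linarith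
  have hsq : Real.sqrt N * Real.sqrt N = N := Real.mul_self_sqrt hN0.le
  have hsq1 : 1 ≤ Real.sqrt N := by
    rw [Real.one_le_sqrt]
    linarith
  have hsq0 : 0 < Real.sqrt N := by linarith
  obtain ⟨X₀, hX₀def⟩ : ∃ X₀ : ℕ, X₀ = ⌈Real.sqrt N⌉₊ + X₃ := ⟨_, rfl⟩
  have hX₀1 : Real.sqrt N ≤ X₀ := by
    rw [hX₀def]
    push_cast
    have h1 := Nat.le_ceil (Real.sqrt N)
    have h2 : (0 : ℝ) ≤ X₃ := Nat.cast_nonneg _
    linarith
  have hX₀2 : (X₀ : ℝ) ≤ (X₃ + 2) * Real.sqrt N := by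
    rw [hX₀def]
    push_cast
    have h1 := (Nat.ceil_lt_add_one hsq0.le).le
    have h2 : (0 : ℝ) ≤ X₃ := Nat.cast_nonneg _
    nlinarith
  have h1 := hD (fin_Bad c j Φ m) X₀ ((2 : ℝ) ^ (A + 2) / Real.log N ^ (A + 2)) (by omega)
    (by positivity) N ?_ F hF
  · refine h1.trans ?_
    have hLA : 0 < Real.log N ^ A := by positivity
    have h2 : (X₀ : ℝ) ≤ (1 / 2 + 1 / 4) * (N / Real.log N ^ A) := by
      have h3 : Real.log N ^ A * (2 * (X₃ + 1)) ≤ Real.sqrt N := by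
        have h4 : (0 : ℝ) < 2 * (X₃ + 1) := by positivity
        rw [one_div, ← div_eq_inv_mul, le_div_iff₀ h4] at hE
        exact hE
      rw [mul_div_assoc', le_div_iff₀ hLA]
      have hX₃1 : (1 : ℝ) ≤ X₃ := by
        have : 1 ≤ X₃ := by omega
        exact_mod_cast this
      calc (X₀ : ℝ) * Real.log N ^ A ≤ ((X₃ + 2) * Real.sqrt N) * Real.log N ^ A :=
            mul_le_mul_of_nonneg_right hX₀2 hLA.le
        _ = (Real.log N ^ A * (X₃ + 2)) * Real.sqrt N := by ring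
        _ ≤ ((1 / 2 + 1 / 4) * Real.sqrt N) * Real.sqrt N := by
            apply mul_le_mul_of_nonneg_right _ hsq0.le
            have h5 : Real.log N ^ A * (X₃ + 2) ≤
                (3 / 4) * (Real.log N ^ A * (2 * (X₃ + 1))) := by
              nlinarith
            linarith
        _ = (1 / 2 + 1 / 4) * N := by rw [mul_assoc, hsq]
    have h3 : 8 * ((2 : ℝ) ^ (A + 2) / Real.log N ^ (A + 2)) * N ≤
        (1 / 4) * (N / Real.log N ^ A) := by
      have h4 : 8 * ((2 : ℝ) ^ (A + 2) / Real.log N ^ (A + 2)) * N =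
          (8 * 2 ^ (A + 2) / Real.log N ^ 2) * (N / Real.log N ^ A) := by
        rw [pow_add (Real.log N) A 2]
        field_simp
      rw [h4]
      apply mul_le_mul_of_nonneg_right _ (by positivity)
      rw [div_le_iff₀ (by positivity), pow_add]
      have h5 : (0 : ℝ) ≤ 2 ^ A := by positivity
      have h6 : Real.log N ≤ Real.log N ^ 2 := by nlinarith
      have h7 : (1 : ℝ) ≤ 2 ^ A := one_le_pow₀ (by norm_num)
      have h8 : (64 * 2 ^ A + 1) * Real.log N ≤ Real.log N ^ 2 := by nlinarith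
      nlinarith
    linarith
  · intro X hX hXN F' hF'
    have hXX : Real.sqrt N ≤ X := hX₀1.trans (by exact_mod_cast hX)
    have hX0 : (0 : ℝ) < X := by linarith
    have hX1 : (1 : ℝ) ≤ X := by linarith
    have hlogX : Real.log N ≤ 2 * Real.log X := by
      have h2 : Real.log (Real.sqrt N) ≤ Real.log X := Real.log_le_log hsq0 hXX
      rw [Real.log_sqrt hN0.le] at h2
      linarith
    have hlX : (2 : ℝ) ^ B ≤ Real.log X := hX₂ X (by omega)
    have hlX0 : 0 < Real.log X := by linarith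
    have hmX : (m : ℝ) ≤ Real.log X ^ (B + 1) := by
      calc (m : ℝ) ≤ Real.log N ^ B := hmB
        _ ≤ (2 * Real.log X) ^ B := pow_le_pow_left₀ hL0.le hlogX _
        _ = 2 ^ B * Real.log X ^ B := mul_pow _ _ _
        _ ≤ Real.log X * Real.log X ^ B := mul_le_mul_of_nonneg_right hlX (by positivity)
        _ = Real.log X ^ (B + 1) := by rw [pow_succ]; ring
    have hbig : ∀ n ∈ F', n₀ ≤ n := by
      intro n hn
      have := (hF' n hn).1
      omega
    have h2 := hX₁ X (by omega) m hm hmX F' (fun n hn =>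
      ⟨(hF' n hn).1, (hF' n hn).2.1, (hF' n hn).2.2.1,
        (hn₀ m n (hbig n hn) (hF' n hn).2.2).2⟩)
    refine h2.trans ?_
    rw [div_mul_eq_mul_div, div_le_div_iff₀ (by positivity) (by positivity)]
    have h3 : Real.log N ^ (A + 2) ≤ (2 * Real.log X) ^ (A + 2) :=
      pow_le_pow_left₀ hL0.le hlogX _
    rw [mul_pow] at h3
    calc (X : ℝ) * Real.log N ^ (A + 2) ≤ X * (2 ^ (A + 2) * Real.log X ^ (A + 2)) :=
          mul_le_mul_of_nonneg_left h3 hX0.le
      _ = 2 ^ (A + 2) * X * Real.log X ^ (A + 2) := by ring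

theorem thm_Fin (h : St_Dya) : St_Fin := by
  intro c j Φ hc hC hS hT
  obtain ⟨C, N₁, h1⟩ := fin_I h hc hC hT
  refine ⟨C, fun A => ?_⟩
  obtain ⟨N₂, h2⟩ := fin_II h hc hS hT A (A + C)
  refine ⟨max N₁ (max N₂ 3), fun N hN m F hF => ?_⟩
  have hNN1 : N₁ ≤ N := (le_max_left _ _).trans hN
  have hNN2 : N₂ ≤ N := ((le_max_left _ _).trans (le_max_right _ _)).trans hN
  have hN3 : 3 ≤ N := ((le_max_right _ _).trans (le_max_right _ _)).trans hN
  have hNr : (3 : ℝ) ≤ N := by exact_mod_cast hN3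
  have hN0 : (0 : ℝ) < N := by linarith
  have hlog : 1 ≤ Real.log N := by
    rw [Real.le_log_iff_exp_le hN0]
    have := Real.exp_one_lt_d9
    linarith
  have hl0 : 0 < Real.log N := by linarith
  rcases F.eq_empty_or_nonempty with rfl | ⟨n, hn⟩
  · rw [card_empty, Nat.cast_zero, mul_zero]
    exact ⟨by positivity, by positivity⟩
  · have hm : 1 ≤ m := (hF n hn).2.1.1
    have hF' : ∀ n ∈ F, n ≤ N ∧ fin_Bad c j Φ m n := fun n hn => hF n hn
    have h3 := h1 N hNN1 m hm F hF'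
    refine ⟨?_, h3⟩
    by_cases hmB : (m : ℝ) ≤ Real.log N ^ (A + C)
    · exact h2 N hNN2 m hm hmB F hF'
    · rw [not_le] at hmB
      rw [le_div_iff₀ (by positivity)]
      have hLC : 0 < Real.log N ^ C := by positivity
      have h4 : Real.log N ^ (A + C) * F.card ≤ m * F.card :=
        mul_le_mul_of_nonneg_right hmB.le (Nat.cast_nonneg _)
      have h5 : (F.card * Real.log N ^ A) * Real.log N ^ C ≤ N * Real.log N ^ C := by
        calc (F.card * Real.log N ^ A) * Real.log N ^ C = Real.log N ^ (A + C) * F.card := by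
              rw [pow_add]; ring
          _ ≤ m * F.card := h4
          _ ≤ N * Real.log N ^ C := h3
      exact le_of_mul_le_mul_right h5 hLC

end Pool.Agent.AAN
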