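import Mathlib
import Pool.Agent.AAN.Stmts
import Pool.Agent.GBQ.L2

set_option autoImplicit false

/-!
# AAN / Fou

Parseval modulo `P = m P₁` for the differences `S(n + h) - S(n)`.  With
`Ĝ(ξ) = ∑_{x ≤ X} lam x ee(ξ x/P)`, `W'(ξ) = ∑_{q, r} ee(ξ (m q + r)/P)` Fourier inversion gives
`P S(n) = ∑_ξ Ĝ(ξ) W'(ξ) conj (ee(ξ n/P))` for the `n ≤ X` with `m (q + 1) ≤ n`; so
`P (S(n + h) - S(n)) = ∑_ξ a(ξ) conj (ee(ξ n/P))` with `a = Ĝ W' (conj (ee(ξ h/P)) - 1)`, and Parseval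
(in `n`).
-/

namespace Pool.Agent.AAN

open Finset Filter
open Pool.Agent.GBQ (ee lam ee_zero ee_neg ee_add ee_int l2_orth l2_parseval)

/-- Fourier inversion -/
theorem fou_inv {P X x : ℕ} (hX : X < P) (hx : x ≤ X) :
    ∑ ξ ∈ range P, (∑ y ∈ range (X + 1), ((lam y : ℝ) : ℂ) * ee ((ξ : ℝ) / P * y)) *
      (starRingEnd ℂ) (ee ((ξ : ℝ) / P * x)) = P * ((lam x : ℝ) : ℂ) := by
  have hP : 0 < P := by omega
  have h1 : ∀ ξ ∈ range P, (∑ y ∈ range (X + 1), ((lam y : ℝ) : ℂ) * ee ((ξ : ℝ) / P * y)) *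
      (starRingEnd ℂ) (ee ((ξ : ℝ) / P * x)) = ∑ y ∈ range (X + 1), ((lam y : ℝ) : ℂ) *
        (ee ((ξ : ℝ) / P * y) * (starRingEnd ℂ) (ee ((ξ : ℝ) / P * x))) := by
    intro ξ _
    rw [sum_mul]
    exact sum_congr rfl fun y _ => by ring
  rw [sum_congr rfl h1, sum_comm]
  have h2 : ∀ y ∈ range (X + 1), ∑ ξ ∈ range P, ((lam y : ℝ) : ℂ) *
        (ee ((ξ : ℝ) / P * y) * (starRingEnd ℂ) (ee ((ξ : ℝ) / P * x))) =
        if y = x then (P : ℂ) * ((lam x : ℝ) : ℂ) else 0 := by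
    intro y hy
    have hy' := mem_range.1 hy
    rw [← mul_sum, l2_orth hP (by omega) (by omega)]
    by_cases h : y = x
    · subst h
      rw [if_pos rfl, if_pos rfl, mul_comm]
    · rw [if_neg h, if_neg h, mul_zero]
  rw [sum_congr rfl h2, sum_ite_eq', if_pos (mem_range.2 (by omega))]

/-- inversion for the sum `S` -/
theorem fou_SS {P X n m : ℕ} (QQ : Finset ℕ) (hX : X < P) (hn : n ≤ X)
    (hq : ∀ q ∈ QQ, m * (q + 1) ≤ n) :
    (P : ℂ) * ((SS QQ m n : ℝ) : ℂ) =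
      ∑ ξ ∈ range P, (∑ y ∈ range (X + 1), ((lam y : ℝ) : ℂ) * ee ((ξ : ℝ) / P * y)) *
        (∑ q ∈ QQ, ∑ r ∈ range m, ee ((ξ : ℝ) / P * ((m * q + r : ℕ) : ℝ))) *
        (starRingEnd ℂ) (ee ((ξ : ℝ) / P * n)) := by
  have h0 : ∀ ξ ∈ range P, (∑ y ∈ range (X + 1), ((lam y : ℝ) : ℂ) * ee ((ξ : ℝ) / P * y)) *
        (∑ q ∈ QQ, ∑ r ∈ range m, ee ((ξ : ℝ) / P * ((m * q + r : ℕ) : ℝ))) *
        (starRingEnd ℂ) (ee ((ξ : ℝ) / P * n)) = ∑ q ∈ QQ, ∑ r ∈ range m,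
        (∑ y ∈ range (X + 1), ((lam y : ℝ) : ℂ) * ee ((ξ : ℝ) / P * y)) *
        (ee ((ξ : ℝ) / P * ((m * q + r : ℕ) : ℝ)) * (starRingEnd ℂ) (ee ((ξ : ℝ) / P * n))) := by
    intro ξ _
    generalize (∑ y ∈ range (X + 1), ((lam y : ℝ) : ℂ) * ee ((ξ : ℝ) / P * y)) = g
    rw [mul_assoc, sum_mul, mul_sum]
    refine sum_congr rfl fun q _ => ?_
    rw [sum_mul, mul_sum]
  rw [sum_congr rfl h0, sum_comm]
  unfold SS
  rw [Complex.ofReal_sum, mul_sum]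
  refine sum_congr rfl fun q hq' => ?_
  rw [sum_comm, Complex.ofReal_sum, mul_sum]
  refine sum_congr rfl fun r hr => ?_
  have hr' := mem_range.1 hr
  have hj : m * q + r ≤ n := by
    have h1 := hq q hq'
    rw [Nat.mul_add, Nat.mul_one] at h1
    omega
  rw [← fou_inv hX (show n - (m * q + r) ≤ X by omega)]
  refine sum_congr rfl fun ξ _ => ?_
  congr 1
  rw [← ee_neg, ← ee_neg, ← ee_add]
  congr 1
  rw [Nat.cast_sub hj]
  push_cast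
  ring

/-- blocks -/
theorem fou_blocks (f : ℕ → ℝ) (m P₁ : ℕ) :
    ∑ ξ ∈ range (m * P₁), f ξ = ∑ i ∈ range m, ∑ ξ ∈ range P₁, f (i * P₁ + ξ) := by
  induction m with
  | zero => simp
  | succ m ih =>
    rw [Nat.succ_mul, sum_range_add, ih, sum_range_succ]

/-- a full period of the sum over `q` -/
theorem fou_W {P₁ : ℕ} (hP : 0 < P₁) (QQ : Finset ℕ) (hQ : ∀ q ∈ QQ, q < P₁) (i : ℕ) :
    ∑ ξ ∈ range P₁, ‖∑ q ∈ QQ, ee (((i * P₁ + ξ : ℕ) : ℝ) / P₁ * q)‖ ^ 2 = P₁ * QQ.card := by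
  have h1 := l2_parseval hP QQ (fun q => q) hQ (fun i _ j _ h => h) (fun _ => 1)
  simp only [norm_one, one_pow, sum_const, nsmul_eq_mul, mul_one, one_mul] at h1
  rw [← h1]
  refine sum_congr rfl fun ξ _ => ?_
  congr 2
  refine sum_congr rfl fun q _ => ?_
  have hP0 : (P₁ : ℝ) ≠ 0 := by exact_mod_cast hP.ne'
  have h2 : ((i * P₁ + ξ : ℕ) : ℝ) / P₁ * q = (((i * q : ℕ) : ℤ) : ℝ) + (ξ : ℝ) / P₁ * q := by
    push_cast
    field_simp
  rw [h2, ee_add, ee_int, one_mul]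

/-- see `St_Fou` in `Stmts.lean` -/
theorem thm_Fou : St_Fou := by
  intro m P₁ X h QQ F G hm hX hQ hF hG
  set P : ℕ := m * P₁ with hPdef
  have hP : 0 < P := by omega
  have hP₁ : 0 < P₁ := Nat.pos_of_mul_pos_left (hPdef ▸ hP)
  have hP0 : (0 : ℝ) < P := by exact_mod_cast hP
  have hP₁0 : (0 : ℝ) < P₁ := by exact_mod_cast hP₁
  have hm0 : (0 : ℝ) < m := by exact_mod_cast hm
  have hPc : (P : ℝ) = m * P₁ := by rw [hPdef]; push_cast; ring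
  set Gh : ℕ → ℂ := fun ξ => ∑ y ∈ range (X + 1), ((lam y : ℝ) : ℂ) * ee ((ξ : ℝ) / P * y) with hGh
  set W' : ℕ → ℂ := fun ξ => ∑ q ∈ QQ, ∑ r ∈ range m, ee ((ξ : ℝ) / P * ((m * q + r : ℕ) : ℝ))
    with hW'
  set a : ℕ → ℂ := fun ξ => Gh ξ * W' ξ * ((starRingEnd ℂ) (ee ((ξ : ℝ) / P * h)) - 1) with ha
  -- the differences
  have hD : ∀ n ∈ F, (P : ℂ) * ((SS QQ m (n + h) - SS QQ m n : ℝ) : ℂ) =
      ∑ ξ ∈ range P, a ξ * (starRingEnd ℂ) (ee ((ξ : ℝ) / P * n)) := by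
    intro n hn
    obtain ⟨h1, h2⟩ := hF n hn
    have h3 := fou_SS QQ hX h1 (fun q hq => (h2 q hq).trans (Nat.le_add_right n h))
    have h4 := fou_SS QQ hX (show n ≤ X by omega) h2
    rw [Complex.ofReal_sub, mul_sub, h3, h4, ← sum_sub_distrib]
    refine sum_congr rfl fun ξ _ => ?_
    have h5 : (starRingEnd ℂ) (ee ((ξ : ℝ) / P * ((n + h : ℕ) : ℝ))) =
        (starRingEnd ℂ) (ee ((ξ : ℝ) / P * h)) * (starRingEnd ℂ) (ee ((ξ : ℝ) / P * n)) := by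
      rw [← map_mul, ← ee_add]
      congr 2
      push_cast
      ring
    rw [h5]
    simp only [ha, hGh, hW']
    ring
  -- Parseval
  have hPar : ∑ n ∈ range P, ‖∑ ξ ∈ range P, a ξ * (starRingEnd ℂ) (ee ((ξ : ℝ) / P * n))‖ ^ 2 =
      P * ∑ ξ ∈ range P, ‖a ξ‖ ^ 2 := by
    have h1 := l2_parseval hP (range P) (fun n => n) (fun i hi => mem_range.1 hi)
      (fun i _ j _ h => h) (fun ξ => (starRingEnd ℂ) (a ξ))
    simp only [RCLike.norm_conj] at h1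
    rw [← h1]
    refine sum_congr rfl fun n _ => ?_
    congr 1
    rw [← RCLike.norm_conj, map_sum]
    congr 1
    refine sum_congr rfl fun ξ _ => ?_
    rw [map_mul, Complex.conj_conj]
    congr 2
    ring
  have hsub : F ⊆ range P := by
    intro n hn
    have := (hF n hn).1
    rw [mem_range]
    omega
  have h1 : ∑ n ∈ F, ((P : ℝ) * (SS QQ m (n + h) - SS QQ m n)) ^ 2 ≤
      P * ∑ ξ ∈ range P, ‖a ξ‖ ^ 2 := by
    rw [← hPar]
    refine le_trans (le_of_eq ?_) (sum_le_sum_of_subset_of_nonneg hsub fun _ _ _ => sq_nonneg _)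
    refine sum_congr rfl fun n hn => ?_
    rw [← hD n hn, norm_mul, Complex.norm_natCast, Complex.norm_real, Real.norm_eq_abs, mul_pow,
      mul_pow, sq_abs]
  -- the bound in the blocks
  have h2 : ∀ i ∈ range m, ∑ ξ ∈ range P₁, ‖a (i * P₁ + ξ)‖ ^ 2 ≤ G i * (P₁ * QQ.card) := by
    intro i hi
    rw [← fou_W hP₁ QQ hQ i, mul_sum]
    refine sum_le_sum fun ξ hξ => ?_
    have hξ' := mem_range.1 hξ
    have h3 := hG i (mem_range.1 hi) (i * P₁ + ξ) (Nat.le_add_right _ _) (by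
      rw [Nat.succ_mul]
      omega)
    rw [← hPc] at h3
    set ζ : ℕ := i * P₁ + ξ with hζ
    have h4 : ‖(starRingEnd ℂ) (ee ((ζ : ℝ) / P * h)) - 1‖ = ‖1 - ee (h * ((ζ : ℝ) / P))‖ := by
      rw [← RCLike.norm_conj, map_sub, Complex.conj_conj, map_one, norm_sub_rev]
      congr 3
      ring
    have h5 : W' ζ = (∑ r ∈ range m, ee (r * ((ζ : ℝ) / P))) *
        ∑ q ∈ QQ, ee ((ζ : ℝ) / P₁ * q) := by
      rw [hW', sum_mul_sum, sum_comm]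
      refine sum_congr rfl fun q _ => sum_congr rfl fun r _ => ?_
      rw [← ee_add]
      congr 1
      rw [hPc]
      push_cast
      field_simp
      ring
    have h6 : ‖a ζ‖ ^ 2 = (‖1 - ee (h * ((ζ : ℝ) / P))‖ ^ 2 *
        ‖∑ r ∈ range m, ee (r * ((ζ : ℝ) / P))‖ ^ 2 *
        ‖∑ x ∈ range (X + 1), ((lam x : ℝ) : ℂ) * ee ((ζ : ℝ) / P * x)‖ ^ 2) *
        ‖∑ q ∈ QQ, ee ((ζ : ℝ) / P₁ * q)‖ ^ 2 := by
      simp only [ha]
      rw [norm_mul, norm_mul, h4, h5, norm_mul]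
      simp only [hGh]
      ring
    rw [h6]
    exact mul_le_mul_of_nonneg_right h3 (sq_nonneg _)
  have h3 : ∑ ξ ∈ range P, ‖a ξ‖ ^ 2 ≤ (∑ i ∈ range m, G i) * (P₁ * QQ.card) := by
    rw [hPdef, fou_blocks (fun ξ => ‖a ξ‖ ^ 2), sum_mul]
    exact sum_le_sum h2
  have h4 : (P : ℝ) ^ 2 * ∑ n ∈ F, (SS QQ m (n + h) - SS QQ m n) ^ 2 ≤
      (P : ℝ) ^ 2 * ((QQ.card : ℝ) / m * ∑ i ∈ range m, G i) := by
    rw [mul_sum]
    have h5 : ∑ n ∈ F, (P : ℝ) ^ 2 * (SS QQ m (n + h) - SS QQ m n) ^ 2 =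
        ∑ n ∈ F, ((P : ℝ) * (SS QQ m (n + h) - SS QQ m n)) ^ 2 :=
      sum_congr rfl fun n _ => (mul_pow _ _ _).symm
    rw [h5]
    refine h1.trans ((mul_le_mul_of_nonneg_left h3 hP0.le).trans (le_of_eq ?_))
    rw [hPc]
    field_simp
  exact le_of_mul_le_mul_left h4 (by positivity)

end Pool.Agent.AAN
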