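import Pool.Agent.AAN.Stmts
import Pool.Agent.EVN.QKO

set_option autoImplicit false

/-!
# AAN / OmB: the number of the `q ≤ K` for which `p_q - q + 1` has too many prime factors
-/

namespace Pool.Agent.AAN

open Finset Filter
open Pool.Agent.Helper20.TwinIndex (pr pr_prime pr_strictMono pr_mono pi_pr lt_pr cheb)
open Pool.Agent.EVN (qko_f qko_inj qko_pr)

theorem omb_z (L : ℝ) (hL : 1 ≤ L) :
    (19 / 10 : ℝ) ^ (-(8 * Real.log L)) ≤ L ^ (-(51 / 10) : ℝ) := by
  have h1 : (51 / 10 : ℝ) ≤ 8 * Real.log (19 / 10) := by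
    have h2 : (80 : ℝ) * Real.log (19 / 10) = Real.log ((19 / 10) ^ 80) := by
      rw [Real.log_pow]
      norm_num
    have h3 : (51 : ℝ) ≤ 80 * Real.log (19 / 10) := by
      rw [h2, Real.le_log_iff_exp_le (by norm_num)]
      have h10 : Real.exp 51 = Real.exp 1 ^ 51 := by
        rw [← Real.exp_nat_mul]
        norm_num
      rw [h10]
      have h12 : Real.exp 1 ^ 51 ≤ (2.7182818286 : ℝ) ^ 51 :=
        pow_le_pow_left₀ (Real.exp_pos _).le Real.exp_one_lt_d9.le 51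
      refine h12.trans ?_
      norm_num
    linarith
  have h3 : 0 ≤ Real.log L := Real.log_nonneg hL
  rw [Real.rpow_def_of_pos (by norm_num), Real.rpow_def_of_pos (by linarith : (0 : ℝ) < L)]
  apply Real.exp_le_exp.2
  nlinarith

theorem thm_OmB (h : EVN.St_Ome) : St_OmB := by
  classical
  obtain ⟨C, hC, hO⟩ := h
  have hL : Tendsto (fun n : ℕ => Real.log n) atTop atTop :=
    Real.tendsto_log_atTop.comp tendsto_natCast_atTop_atTop
  obtain ⟨n₁, hn₁⟩ := eventually_atTop.1 (hL.eventually_ge_atTop 6)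
  refine ⟨360 * C, n₁, by positivity, fun n hn K hK hKn => ?_⟩
  have hL6 := hn₁ n hn
  set L := Real.log n with hLdef
  have hK0 : (2 : ℝ) ≤ K := by exact_mod_cast hK
  have hlK : 0 ≤ Real.log K := Real.log_nonneg (by linarith)
  have hlKL : Real.log K ≤ L := Real.log_le_log (by linarith) (by exact_mod_cast hKn)
  obtain ⟨hp1, hp2⟩ := qko_pr hK
  set T := 8 * Real.log L with hT
  set B := (Icc 2 K).filter (fun q => T <
    (ArithmeticFunction.cardFactors (Nat.nth Nat.Prime (q - 1) - q + 1) : ℝ)) with hB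
  have hX : 2 ≤ pr K := (pr_prime K).two_le
  have hB1 : B.card ≤ ((Icc 1 (pr K)).filter
      (fun v => T < (ArithmeticFunction.cardFactors v : ℝ))).card := by
    refine card_le_card_of_injOn qko_f ?_ ?_
    · intro q hq
      rw [hB, mem_coe, mem_filter, mem_Icc] at hq
      rw [mem_coe, mem_filter, mem_Icc]
      refine ⟨⟨?_, ?_⟩, hq.2⟩
      · exact Nat.succ_le_of_lt (Nat.succ_pos _)
      · have h4 : pr q ≤ pr K := pr_mono hq.1.2
        have h5 := hq.1.1
        have h6 : q < pr q := lt_pr (by omega)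
        change pr q - q + 1 ≤ pr K
        omega
    · intro q hq q' hq' h
      rw [hB, mem_coe, mem_filter, mem_Icc] at hq hq'
      exact qko_inj hq.1.1 hq'.1.1 h
  have hB2 : (B.card : ℝ) ≤ C * pr K * Real.log (pr K) ^ (9 / 10 : ℝ) * (19 / 10 : ℝ) ^ (-T) :=
    (Nat.cast_le.2 hB1).trans (hO (pr K) T hX)
  have hL0 : (0 : ℝ) < L := by linarith
  have hlp : 0 ≤ Real.log (pr K) := Real.log_natCast_nonneg _
  have g1 : Real.log (pr K) ^ (9 / 10 : ℝ) ≤ 3 * L ^ (9 / 10 : ℝ) := by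
    calc Real.log (pr K) ^ (9 / 10 : ℝ) ≤ (3 * L) ^ (9 / 10 : ℝ) :=
          Real.rpow_le_rpow hlp (by linarith) (by norm_num)
      _ = 3 ^ (9 / 10 : ℝ) * L ^ (9 / 10 : ℝ) := Real.mul_rpow (by norm_num) hL0.le
      _ ≤ 3 * L ^ (9 / 10 : ℝ) := by
          refine mul_le_mul_of_nonneg_right ?_ (Real.rpow_nonneg hL0.le _)
          calc (3 : ℝ) ^ (9 / 10 : ℝ) ≤ 3 ^ (1 : ℝ) :=
                Real.rpow_le_rpow_of_exponent_le (by norm_num) (by norm_num)
            _ = 3 := Real.rpow_one _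
  have g2 : (19 / 10 : ℝ) ^ (-T) ≤ L ^ (-(51 / 10) : ℝ) := omb_z L (by linarith)
  have g3 : (B.card : ℝ) ≤ C * (60 * K * (2 * L)) * (3 * L ^ (9 / 10 : ℝ)) *
      L ^ (-(51 / 10) : ℝ) := by
    refine hB2.trans ?_
    have hp3 : (pr K : ℝ) ≤ 60 * K * (2 * L) := by
      refine hp2.trans (mul_le_mul_of_nonneg_left (by linarith) (by positivity))
    refine mul_le_mul (mul_le_mul (mul_le_mul_of_nonneg_left hp3 hC.le) g1
      (Real.rpow_nonneg hlp _) (by positivity)) g2 (by positivity) ?_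
    have := Real.rpow_nonneg hL0.le (9 / 10 : ℝ)
    positivity
  have g4 : L * L ^ (9 / 10 : ℝ) * L ^ (-(51 / 10) : ℝ) ≤ L ^ (-(31 / 10) : ℝ) := by
    have g5 : L * L ^ (9 / 10 : ℝ) * L ^ (-(51 / 10) : ℝ) = L ^ (-(32 / 10) : ℝ) := by
      nth_rewrite 1 [← Real.rpow_one L]
      rw [← Real.rpow_add hL0, ← Real.rpow_add hL0]
      norm_num
    rw [g5]
    exact Real.rpow_le_rpow_of_exponent_le (by linarith) (by norm_num)
  calc (B.card : ℝ) ≤ C * (60 * K * (2 * L)) * (3 * L ^ (9 / 10 : ℝ)) * L ^ (-(51 / 10) : ℝ) := g3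
    _ = 360 * C * K * (L * L ^ (9 / 10 : ℝ) * L ^ (-(51 / 10) : ℝ)) := by ring
    _ ≤ 360 * C * K * L ^ (-(31 / 10) : ℝ) := mul_le_mul_of_nonneg_left g4 (by positivity)
    _ = 360 * C * K / L ^ (31 / 10 : ℝ) := by
        rw [Real.rpow_neg hL0.le]
        exact (div_eq_mul_inv _ _).symm

end Pool.Agent.AAN
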