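import Mathlib
import Pool.Agent.AAN.Stmts

set_option autoImplicit false

/-!
# AAN / Sml: small `m`, with count and the condition on the number of prime factors
-/

namespace Pool.Agent.AAN

open Finset Filter
open Pool.Agent.GBQ (ee lam nd Admissible Rep)
open Pool.Agent.EVN (Phi SolP DensP BigP)

/-- many residues `r` -/
theorem sml_R (h2 : GBQ.St_Red) (h3 : GBQ.St_Good) : ∃ c₂ : ℝ, 0 < c₂ ∧ ∀ m n : ℕ,
    Admissible m n → c₂ * m ≤ (1 + Real.log m) *
      (((range m).filter (fun r => (n - r).Coprime m ∧ (n - r + m) % 2 = 1)).card : ℝ) := by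
  obtain ⟨C, m₀, h3⟩ := h3
  refine ⟨1 / (C + m₀ + 1), by positivity, fun m n h => ?_⟩
  have hm1 : 1 ≤ m := h.1
  have hlog : 0 ≤ Real.log m := Real.log_nonneg (by exact_mod_cast hm1)
  have hden : (0 : ℝ) < C + m₀ + 1 := by positivity
  rw [div_mul_eq_mul_div, one_mul, div_le_iff₀ hden]
  obtain ⟨N, hN⟩ : ∃ N : ℝ, N = (((range m).filter
    (fun r => (n - r).Coprime m ∧ (n - r + m) % 2 = 1)).card : ℝ) := ⟨_, rfl⟩
  rw [← hN]
  have hN0 : 0 ≤ N := by
    rw [hN]
    positivity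
  obtain ⟨T, hT⟩ : ∃ T : ℝ, T = (1 + Real.log m) * N := ⟨_, rfl⟩
  have hT0 : 0 ≤ T := by
    rw [hT]
    exact mul_nonneg (by linarith) hN0
  rw [← hT]
  have hC0 : (0 : ℝ) ≤ C := Nat.cast_nonneg _
  have hm00 : (0 : ℝ) ≤ m₀ := Nat.cast_nonneg _
  by_cases hm : m₀ ≤ m
  · have h4 := h3 m n hm (by have := h.2.1; omega)
    rw [← hN, mul_assoc, ← hT] at h4
    nlinarith [mul_nonneg hT0 hm00]
  · obtain ⟨r, hr1, hr2, hr3, hr4⟩ := h2 m n h
    have h5 : 1 ≤ N := by
      rw [hN]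
      have h6 : 0 < ((range m).filter
          (fun r => (n - r).Coprime m ∧ (n - r + m) % 2 = 1)).card :=
        Finset.card_pos.2 ⟨r, mem_filter.2 ⟨mem_range.2 hr1, hr3, hr4⟩⟩
      exact_mod_cast h6
    have h6 : 1 ≤ T := by
      rw [hT]
      nlinarith
    have h7 : (m : ℝ) ≤ m₀ := by
      have : m ≤ m₀ := by omega
      exact_mod_cast this
    nlinarith [mul_nonneg hT0 hC0, mul_nonneg (by linarith : (0 : ℝ) ≤ T - 1) hm00]

/-- each `q` belongs to at most `m` primes `p` -/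
theorem sml_fib {m n : ℕ} (hm : 1 ≤ m) (s : Finset ℕ) (hs : ∀ p ∈ s, p < n) (t : Finset ℕ)
    (hst : ∀ p ∈ s, (n - p) / m ∈ t) : s.card ≤ m * t.card := by
  refine Finset.card_le_mul_card_image_of_maps_to hst m fun q hq => ?_
  have h1 : Set.InjOn (fun p => n - p - m * q) ((s.filter fun p => (n - p) / m = q : Finset ℕ) :
      Set ℕ) := by
    intro p hp p' hp' hpp
    obtain ⟨h3, h4⟩ := mem_filter.1 (Finset.mem_coe.1 hp)
    obtain ⟨h5, h6⟩ := mem_filter.1 (Finset.mem_coe.1 hp')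
    have h7 := hs p h3
    have h8 := hs p' h5
    have h9 : n - p - m * q = n - p' - m * q := hpp
    have h10 : m * q ≤ n - p := by
      rw [← h4]
      exact Nat.mul_div_le _ _
    have h11 : m * q ≤ n - p' := by
      rw [← h6]
      exact Nat.mul_div_le _ _
    omega
  calc (s.filter fun p => (n - p) / m = q).card
      = ((s.filter fun p => (n - p) / m = q).image (fun p => n - p - m * q)).card :=
        (Finset.card_image_of_injOn h1).symm
    _ ≤ (range m).card := by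
        refine Finset.card_le_card fun y hy => ?_
        obtain ⟨p, hp, rfl⟩ := Finset.mem_image.1 hy
        obtain ⟨h3, h4⟩ := mem_filter.1 hp
        rw [mem_range]
        have h5 : n - p < m * ((n - p) / m) + m := by
          have h6 := Nat.div_add_mod (n - p) m
          have h7 := Nat.mod_lt (n - p) (show 0 < m by omega)
          omega
        rw [h4] at h5
        omega
    _ = m := card_range m

/-- the counting of the primes `p` -/
theorem sml_card {m n : ℕ} (hm : 1 ≤ m) (R : Finset ℕ) (hR : ∀ r ∈ R, r < m ∧ r < n) {B : ℝ}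
    (S : ℕ → Finset ℕ) (hS : ∀ r ∈ R, (∀ k ∈ S r, Rep m (n - r) k) ∧ B ≤ ((S r).card : ℝ)) :
    (R.card : ℝ) * B ≤ ((SolP Phi m n).card : ℝ) + m * (((Icc 2 (n / m)).filter
      (fun q => 8 * Real.log (Real.log n) < (ArithmeticFunction.cardFactors
        (Nat.nth Nat.Prime (q - 1) - q + 1) : ℝ))).card : ℝ) := by
  classical
  obtain ⟨T, hT⟩ : ∃ T : Finset (Σ _ : ℕ, ℕ), T = R.sigma S := ⟨_, rfl⟩
  have hTm : ∀ x ∈ T, x.1 < m ∧ x.1 < n ∧ Rep m (n - x.1) x.2 := by
    intro x hx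
    rw [hT, Finset.mem_sigma] at hx
    exact ⟨(hR _ hx.1).1, (hR _ hx.1).2, (hS _ hx.1).1 _ hx.2⟩
  have hval : ∀ x ∈ T, n - (n - x.1 - m * x.2) = x.1 + m * x.2 := by
    intro x hx
    obtain ⟨h1, h2, h3⟩ := hTm x hx
    have h4 := h3.2.1
    omega
  have hdiv : ∀ x ∈ T, (n - (n - x.1 - m * x.2)) / m = x.2 := by
    intro x hx
    rw [hval x hx, Nat.add_mul_div_left _ _ (by omega), Nat.div_eq_of_lt (hTm x hx).1, zero_add]
  have hmod : ∀ x ∈ T, (n - (n - x.1 - m * x.2)) % m = x.1 := by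
    intro x hx
    rw [hval x hx, Nat.add_mul_mod_self_left, Nat.mod_eq_of_lt (hTm x hx).1]
  have hinj : Set.InjOn (fun x : (Σ _ : ℕ, ℕ) => n - x.1 - m * x.2) (T : Set (Σ _ : ℕ, ℕ)) := by
    intro x hx y hy hxy
    have h0 : n - x.1 - m * x.2 = n - y.1 - m * y.2 := hxy
    have h1 := hdiv x hx
    have h2 := hdiv y hy
    have h3 := hmod x hx
    have h4 := hmod y hy
    rw [h0] at h1 h3
    rcases x with ⟨x1, x2⟩
    rcases y with ⟨y1, y2⟩
    have h5 : x2 = y2 := h1.symm.trans h2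
    have h6 : x1 = y1 := h3.symm.trans h4
    rw [h5, h6]
  obtain ⟨P, hP⟩ : ∃ P : Finset ℕ, P = T.image fun x : (Σ _ : ℕ, ℕ) => n - x.1 - m * x.2 :=
    ⟨_, rfl⟩
  have hPc : P.card = ∑ r ∈ R, (S r).card := by
    rw [hP, Finset.card_image_of_injOn hinj, hT, Finset.card_sigma]
  have hPm : ∀ p ∈ P, p.Prime ∧ p < n ∧ ((n - p) / m).Prime ∧
      Nat.IsAtMostAlmostPrime 5 (((n - p) / m) ^ 2 - 2) := by
    intro p hp
    rw [hP] at hp
    obtain ⟨x, hx, rfl⟩ := Finset.mem_image.1 hp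
    obtain ⟨h1, h2, h3, h4, h5, h6⟩ := hTm x hx
    have h7 := hdiv x hx
    show (n - x.1 - m * x.2).Prime ∧ n - x.1 - m * x.2 < n ∧
      ((n - (n - x.1 - m * x.2)) / m).Prime ∧
      Nat.IsAtMostAlmostPrime 5 (((n - (n - x.1 - m * x.2)) / m) ^ 2 - 2)
    rw [h7]
    have h8 := h3.two_le
    have h9 : 0 < m * x.2 := by positivity
    exact ⟨h5, by omega, h3, h6⟩
  obtain ⟨Q, hQ⟩ : ∃ Q : Finset ℕ, Q = P.filter fun p => 8 * Real.log (Real.log n) <
    (ArithmeticFunction.cardFactors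
      (Nat.nth Nat.Prime ((n - p) / m - 1) - (n - p) / m + 1) : ℝ) := ⟨_, rfl⟩
  have hsub : P ⊆ SolP Phi m n ∪ Q := by
    intro p hp
    obtain ⟨h1, h2, h3, h4⟩ := hPm p hp
    rw [mem_union]
    by_cases h5 : 8 * Real.log (Real.log n) < (ArithmeticFunction.cardFactors
      (Nat.nth Nat.Prime ((n - p) / m - 1) - (n - p) / m + 1) : ℝ)
    · right
      rw [hQ]
      exact mem_filter.2 ⟨hp, h5⟩
    · left
      rw [SolP]
      exact mem_filter.2 ⟨mem_range.2 h2, h1, h3, h4, not_lt.1 h5⟩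
  have hQc : Q.card ≤ m * ((Icc 2 (n / m)).filter
      (fun q => 8 * Real.log (Real.log n) < (ArithmeticFunction.cardFactors
        (Nat.nth Nat.Prime (q - 1) - q + 1) : ℝ))).card := by
    refine sml_fib (n := n) hm Q (fun p hp => ?_) _ fun p hp => ?_
    · rw [hQ] at hp
      exact (hPm p (mem_filter.1 hp).1).2.1
    · rw [hQ] at hp
      obtain ⟨h1, h2⟩ := mem_filter.1 hp
      have h3 := (hPm p h1).2.2.1.two_le
      exact mem_filter.2 ⟨mem_Icc.2 ⟨h3, Nat.div_le_div_right (by omega)⟩, h2⟩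
  have h1 : (R.card : ℝ) * B ≤ (P.card : ℝ) := by
    rw [hPc]
    push_cast
    calc (R.card : ℝ) * B = ∑ r ∈ R, B := by rw [sum_const, nsmul_eq_mul]
      _ ≤ ∑ r ∈ R, ((S r).card : ℝ) := sum_le_sum fun r hr => (hS r hr).2
  have h2 : P.card ≤ (SolP Phi m n).card + Q.card :=
    (Finset.card_le_card hsub).trans (Finset.card_union_le _ _)
  have h3 : (P.card : ℝ) ≤ (SolP Phi m n).card + Q.card := by exact_mod_cast h2
  have h4 : (Q.card : ℝ) ≤ m * (((Icc 2 (n / m)).filter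
      (fun q => 8 * Real.log (Real.log n) < (ArithmeticFunction.cardFactors
        (Nat.nth Nat.Prime (q - 1) - q + 1) : ℝ))).card : ℝ) := by exact_mod_cast hQc
  linarith

/-- the numerical contradiction -/
theorem sml_num {C c c₂ L l X n M s t : ℝ} (hC : 0 < C) (hX : 0 < X) (hL : 2 ≤ L)
    (hl1 : 1 ≤ l) (hl : L / 2 ≤ l) (hnX : n ≤ X) (hn : 0 < n) (hM : 1 ≤ M)
    (hev : 16 * (1 + C) * M ≤ c₂ * c * L ^ (1 / 10 : ℝ))
    (hs : s < n / l ^ 5) (ht : t ≤ C * n / l ^ (31 / 10 : ℝ))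
    (hu : c₂ * c * X / L ^ 3 ≤ M * (s + t)) : False := by
  have hL0 : 0 < L := by linarith
  have hl0 : 0 < l := by linarith
  have h1 : (l : ℝ) ^ (31 / 10 : ℝ) ≤ l ^ 5 := by
    rw [← Real.rpow_natCast]
    exact Real.rpow_le_rpow_of_exponent_le hl1 (by norm_num)
  have hl3 : 0 < l ^ (31 / 10 : ℝ) := Real.rpow_pos_of_pos hl0 _
  have h2 : n / l ^ 5 ≤ n / l ^ (31 / 10 : ℝ) := by gcongr
  have h3 : s + t < (1 + C) * n / l ^ (31 / 10 : ℝ) := by
    have : (1 + C) * n / l ^ (31 / 10 : ℝ) = n / l ^ (31 / 10 : ℝ) +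
      C * n / l ^ (31 / 10 : ℝ) := by ring
    rw [this]
    linarith
  have h4 : L ^ (31 / 10 : ℝ) ≤ 16 * l ^ (31 / 10 : ℝ) := by
    have h5 : L ^ (31 / 10 : ℝ) ≤ (2 * l) ^ (31 / 10 : ℝ) :=
      Real.rpow_le_rpow hL0.le (by linarith) (by norm_num)
    have h6 : (2 : ℝ) ^ (31 / 10 : ℝ) ≤ 16 := by
      calc (2 : ℝ) ^ (31 / 10 : ℝ) ≤ (2 : ℝ) ^ (4 : ℝ) :=
            Real.rpow_le_rpow_of_exponent_le (by norm_num) (by norm_num)
        _ = 16 := by norm_num
    rw [Real.mul_rpow (by norm_num) hl0.le] at h5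
    nlinarith
  have hL3 : 0 < L ^ (31 / 10 : ℝ) := Real.rpow_pos_of_pos hL0 _
  have h5 : (1 + C) * n / l ^ (31 / 10 : ℝ) ≤ 16 * (1 + C) * X / L ^ (31 / 10 : ℝ) := by
    rw [div_le_div_iff₀ hl3 hL3]
    have h6 : (1 + C) * n ≤ (1 + C) * X := by gcongr
    calc (1 + C) * n * L ^ (31 / 10 : ℝ) ≤ (1 + C) * X * (16 * l ^ (31 / 10 : ℝ)) := by
          gcongr
      _ = 16 * (1 + C) * X * l ^ (31 / 10 : ℝ) := by ring
  have h6 : M * (s + t) < M * (16 * (1 + C) * X / L ^ (31 / 10 : ℝ)) :=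
    mul_lt_mul_of_pos_left (lt_of_lt_of_le h3 h5) (by linarith)
  have h7 : L ^ (31 / 10 : ℝ) = L ^ (1 / 10 : ℝ) * L ^ 3 := by
    rw [← Real.rpow_natCast L 3, ← Real.rpow_add hL0]
    norm_num
  have hL1 : 0 < L ^ (1 / 10 : ℝ) := Real.rpow_pos_of_pos hL0 _
  have h8 : M * (16 * (1 + C) * X / L ^ (31 / 10 : ℝ)) ≤ c₂ * c * X / L ^ 3 := by
    rw [h7]
    calc M * (16 * (1 + C) * X / (L ^ (1 / 10 : ℝ) * L ^ 3))
        = (16 * (1 + C) * M) * (X / (L ^ (1 / 10 : ℝ) * L ^ 3)) := by ring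
      _ ≤ (c₂ * c * L ^ (1 / 10 : ℝ)) * (X / (L ^ (1 / 10 : ℝ) * L ^ 3)) := by gcongr
      _ = c₂ * c * X / L ^ 3 := by
          field_simp
  linarith

/-- the condition for large `X` -/
theorem sml_ev (K d : ℝ) (D : ℕ) (hd : 0 < d) (hK : 0 < K) :
    ∀ᶠ L : ℝ in atTop, K * (1 + D * Real.log L) ≤ d * L ^ (1 / 10 : ℝ) := by
  have h1 : Tendsto (fun L : ℝ => L ^ (1 / 10 : ℝ)) atTop atTop :=
    tendsto_rpow_atTop (by norm_num)
  have h2 := (isLittleO_log_rpow_atTop (show (0 : ℝ) < 1 / 10 by norm_num)).bound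
    (show 0 < d / (2 * K * (D + 1)) by positivity)
  filter_upwards [h2, h1.eventually_ge_atTop (2 * K / d), eventually_ge_atTop 1] with L h3 h4 h5
  have h6 : 0 ≤ Real.log L := Real.log_nonneg h5
  have h7 : 0 ≤ L ^ (1 / 10 : ℝ) := Real.rpow_nonneg (by linarith) _
  rw [Real.norm_of_nonneg h6, Real.norm_of_nonneg h7] at h3
  rw [div_le_iff₀ hd] at h4
  have h8 : K * (D * Real.log L) ≤ d / 2 * L ^ (1 / 10 : ℝ) := by
    calc K * (D * Real.log L) ≤ K * ((D + 1) * Real.log L) := by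
          gcongr
          linarith
      _ ≤ K * ((D + 1) * (d / (2 * K * (D + 1)) * L ^ (1 / 10 : ℝ))) := by gcongr
      _ = d / 2 * L ^ (1 / 10 : ℝ) := by
          field_simp
  calc K * (1 + D * Real.log L) = K + K * (D * Real.log L) := by ring
    _ ≤ d / 2 * L ^ (1 / 10 : ℝ) + d / 2 * L ^ (1 / 10 : ℝ) := by
        refine add_le_add ?_ h8
        linarith
    _ = d * L ^ (1 / 10 : ℝ) := by ring

/-- see `St_Sml` -/
theorem thm_Sml (h1 : GBQ.St_Core) (h2 : GBQ.St_Red) (h3 : GBQ.St_Good) (h4 : St_OmB) :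
    St_Sml := by
  classical
  obtain ⟨c, hc, h1⟩ := h1
  obtain ⟨c₂, hc₂, hR⟩ := sml_R h2 h3
  obtain ⟨C, n₁, hC, h4⟩ := h4
  intro A D
  have hlog : Tendsto (fun X : ℕ => Real.log X) atTop atTop :=
    Real.tendsto_log_atTop.comp tendsto_natCast_atTop_atTop
  filter_upwards [h1 (A + 2 * D + 1), hlog.eventually_ge_atTop 4, eventually_ge_atTop (2 * n₁),
    hlog.eventually (sml_ev (16 * (1 + C)) (c₂ * c) D (by positivity) (by positivity))]
    with X hX hL hXn hev m hm hmX F hF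
  have hL0 : 0 < Real.log X := by linarith
  have hl2 : Real.log 2 < 1 := by
    have := Real.log_two_lt_d9
    linarith
  have hX0 : (0 : ℝ) < X := by
    rcases Nat.eq_zero_or_pos X with h | h
    · rw [h] at hL0
      simp at hL0
    · exact_mod_cast h
  obtain ⟨E, hE⟩ : ∃ E : Finset ℕ, E = (range (X + 1)).filter (fun n' => X ≤ 2 * (n' + m) ∧
    4 * n' ≤ 3 * X ∧ n'.Coprime m ∧ (n' + m) % 2 = 1 ∧
    ∀ S : Finset ℕ, (∀ k ∈ S, Rep m n' k) →
      (S.card : ℝ) < c * X / (m * Real.log X ^ 3)) := ⟨_, rfl⟩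
  have hEc : (E.card : ℝ) ≤ X / Real.log X ^ (A + 2 * D + 1) := by
    refine hX m hm (hmX.trans (pow_le_pow_right₀ (by linarith) (by omega))) E fun n' hn' => ?_
    rw [hE] at hn'
    exact (mem_filter.1 hn').2
  have hkey : ∀ n ∈ F, ∃ r, r < m ∧ r < n ∧ n - r ∈ E := by
    intro n hn
    by_contra hcon
    push Not at hcon
    obtain ⟨hn1, hn2, hadm, hsol⟩ := hF n hn
    have hmn := hadm.2.1
    obtain ⟨R, hRd⟩ : ∃ R : Finset ℕ, R = (range m).filter
      (fun r => (n - r).Coprime m ∧ (n - r + m) % 2 = 1) := ⟨_, rfl⟩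
    have hRm : ∀ r ∈ R, r < m ∧ r < n := by
      intro r hr
      rw [hRd] at hr
      have := mem_range.1 (mem_filter.1 hr).1
      exact ⟨this, by omega⟩
    have hSex : ∀ r ∈ R, ∃ S : Finset ℕ, (∀ k ∈ S, Rep m (n - r) k) ∧
        c * X / (m * Real.log X ^ 3) ≤ (S.card : ℝ) := by
      intro r hr
      have h5 := hRm r hr
      have h6 := hcon r h5.1 h5.2
      by_contra h7
      push Not at h7
      refine h6 ?_
      rw [hE]
      rw [hRd] at hr
      obtain ⟨h8, h9, h10⟩ := mem_filter.1 hr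
      exact mem_filter.2 ⟨mem_range.2 (by omega), by omega, by omega, h9, h10, h7⟩
    choose! S hS using hSex
    have h5 := sml_card hm R hRm S hS
    have hn0 : (0 : ℝ) < n := by
      have : 0 < n := by omega
      exact_mod_cast this
    have hnX : (n : ℝ) ≤ X := by
      have : n ≤ X := by omega
      exact_mod_cast this
    have hlX : Real.log X ≤ Real.log 2 + Real.log n := by
      rw [← Real.log_mul (by norm_num) hn0.ne']
      refine Real.log_le_log hX0 ?_
      exact_mod_cast hn1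
    have hln : Real.log n ≤ Real.log X := Real.log_le_log hn0 hnX
    have hK2 : 2 ≤ n / m := by
      rw [Nat.le_div_iff_mul_le (by omega)]
      omega
    have h6 := h4 n (by omega) (n / m) hK2 (Nat.div_le_self _ _)
    have hm0 : (0 : ℝ) < m := by exact_mod_cast hm
    have hlm : 0 ≤ Real.log m := Real.log_nonneg (by exact_mod_cast hm)
    have h7 := hR m n hadm
    rw [← hRd] at h7
    have h8 : Real.log m ≤ D * Real.log (Real.log X) := by
      rw [← Real.log_pow]
      exact Real.log_le_log hm0 hmX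
    refine sml_num (C := C) (c := c) (c₂ := c₂) (L := Real.log X) (l := Real.log n) (X := X)
      (n := n) (M := 1 + Real.log m) (s := ((SolP Phi m n).card : ℝ))
      (t := m * (((Icc 2 (n / m)).filter
        (fun q => 8 * Real.log (Real.log n) < (ArithmeticFunction.cardFactors
          (Nat.nth Nat.Prime (q - 1) - q + 1) : ℝ))).card : ℝ))
      hC hX0 (by linarith) (by linarith) (by linarith) hnX hn0 (by linarith) ?_ ?_ ?_ ?_
    · refine le_trans ?_ hev
      gcongr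
    · have h9 := hsol
      rw [one_mul] at h9
      exact h9
    · calc (m : ℝ) * (((Icc 2 (n / m)).filter
        (fun q => 8 * Real.log (Real.log n) < (ArithmeticFunction.cardFactors
          (Nat.nth Nat.Prime (q - 1) - q + 1) : ℝ))).card : ℝ)
          ≤ m * (C * ((n / m : ℕ) : ℝ) / Real.log n ^ (31 / 10 : ℝ)) := by gcongr
        _ = C * (m * ((n / m : ℕ) : ℝ)) / Real.log n ^ (31 / 10 : ℝ) := by ring
        _ ≤ C * n / Real.log n ^ (31 / 10 : ℝ) := by
            have h9 : (m : ℝ) * ((n / m : ℕ) : ℝ) ≤ n := by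
              exact_mod_cast Nat.mul_div_le n m
            have h10 : 0 < Real.log n := by linarith
            gcongr
    · calc c₂ * c * X / Real.log X ^ 3
          = (c₂ * m) * (c * X / (m * Real.log X ^ 3)) := by
            field_simp
        _ ≤ ((1 + Real.log m) * R.card) * (c * X / (m * Real.log X ^ 3)) := by gcongr
        _ = (1 + Real.log m) * (R.card * (c * X / (m * Real.log X ^ 3))) := by ring
        _ ≤ _ := by gcongr
  choose! r hr using hkey
  have hcard : F.card ≤ m * E.card := by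
    have hsub : F ⊆ (range m).biUnion fun r₀ => F.filter fun n => r n = r₀ := by
      intro n hn
      exact mem_biUnion.2 ⟨r n, mem_range.2 (hr n hn).1, mem_filter.2 ⟨hn, rfl⟩⟩
    refine (Finset.card_le_card hsub).trans ?_
    refine (Finset.card_biUnion_le_card_mul _ _ E.card fun r₀ _ => ?_).trans
      (le_of_eq (by rw [card_range]))
    have hinj : Set.InjOn (fun n => n - r₀) ((F.filter fun n => r n = r₀ : Finset ℕ) :
        Set ℕ) := by
      intro n hn l hl hnl
      obtain ⟨hnF, hne⟩ := mem_filter.1 (Finset.mem_coe.1 hn)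
      obtain ⟨hlF, hle⟩ := mem_filter.1 (Finset.mem_coe.1 hl)
      have h6 := (hr n hnF).2.1
      have h7 := (hr l hlF).2.1
      have h8 : n - r₀ = l - r₀ := hnl
      omega
    rw [← Finset.card_image_of_injOn hinj]
    refine Finset.card_le_card fun y hy => ?_
    obtain ⟨n, hn, rfl⟩ := Finset.mem_image.1 hy
    obtain ⟨hnF, hne⟩ := mem_filter.1 hn
    have h9 := (hr n hnF).2.2
    rw [hne] at h9
    exact h9
  have hcard' : (F.card : ℝ) ≤ m * E.card := by exact_mod_cast hcard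
  have hLD : 0 < Real.log X ^ D := by positivity
  calc (F.card : ℝ) ≤ m * E.card := hcard'
    _ ≤ Real.log X ^ D * (X / Real.log X ^ (A + 2 * D + 1)) := by gcongr
    _ = X / Real.log X ^ (A + D + 1) := by
        have : Real.log X ^ (A + 2 * D + 1) = Real.log X ^ D * Real.log X ^ (A + D + 1) := by
          ring
        rw [this]
        field_simp
    _ ≤ X / Real.log X ^ A := by
        gcongr
        · linarith
        · omega

end Pool.Agent.AAN
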