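import Pool.Agent.AAN.Stmts

/-!
# AAN [Sup]: the estimate of Vinogradov in terms of the distance to the nearest integer
-/

set_option autoImplicit false

namespace Pool.Agent.AAN

open Finset Filter
open Pool.Agent.GBQ (ee lam nd)

/-- An approximation with denominator close to the inverse of the distance to the nearest integer. -/
theorem sup_approx (α : ℝ) (h0 : 0 < nd α) :
    ∃ (a : ℤ) (d : ℕ), 1 ≤ d ∧ Int.gcd a d = 1 ∧ |α - a / d| ≤ 1 / (d : ℝ) ^ 2 ∧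
      (d : ℝ) * nd α ≤ 1 ∧ 1 ≤ 2 * (d : ℝ) * nd α := by
  have hβ : nd α = |α - round α| := rfl
  obtain ⟨β, hβdef⟩ : ∃ β : ℝ, β = nd α := ⟨_, rfl⟩
  rw [← hβdef] at h0 hβ ⊢
  have hβ2 : β ≤ 1 / 2 := by rw [hβ]; exact abs_sub_round α
  obtain ⟨s, hs1, hs2⟩ : ∃ s : ℤ, s * s = 1 ∧ α - round α = s * β := by
    rcases le_total 0 (α - round α) with h | h
    · refine ⟨1, by norm_num, ?_⟩
      rw [hβ, abs_of_nonneg h]
      push_cast
      ring
    · refine ⟨-1, by norm_num, ?_⟩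
      rw [hβ, abs_of_nonpos h]
      push_cast
      ring
  have hinv : 1 ≤ 1 / β := by
    rw [le_div_iff₀ h0]
    linarith
  obtain ⟨d, hd⟩ : ∃ d : ℕ, d = ⌊1 / β⌋₊ := ⟨_, rfl⟩
  have hd1 : 1 ≤ d := by
    rw [hd]
    exact Nat.le_floor (by exact_mod_cast hinv)
  have hdr : (1 : ℝ) ≤ d := by exact_mod_cast hd1
  have hd2 : (d : ℝ) ≤ 1 / β := by
    rw [hd]
    exact Nat.floor_le (by positivity)
  have hd3 : 1 / β < (d : ℝ) + 1 := by
    rw [hd]
    exact Nat.lt_floor_add_one _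
  have hd4 : (d : ℝ) * β ≤ 1 := by
    rw [le_div_iff₀ h0] at hd2
    exact hd2
  have hd5 : 1 < ((d : ℝ) + 1) * β := by
    rw [div_lt_iff₀ h0] at hd3
    exact hd3
  refine ⟨round α * d + s, d, hd1, ?_, ?_, hd4, ?_⟩
  · rw [← Int.isCoprime_iff_gcd_eq_one]
    refine ⟨s, -(s * round α), ?_⟩
    linear_combination hs1
  · have hd0 : (0 : ℝ) < d := by linarith
    have h1 : α - ((round α * d + s : ℤ) : ℝ) / d = s * (β - 1 / d) := by
      have h2 : α = round α + s * β := by linarith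
      rw [h2]
      push_cast
      have hd0' : (d : ℝ) ≠ 0 := hd0.ne'
      have h3 : ((round ((round α : ℝ) + s * β) : ℤ) : ℝ) = (round α : ℝ) := by
        rw [← h2]
      rw [h3]
      field_simp
      ring
    have hs3 : |(s : ℝ)| = 1 := by
      have h2 : (s : ℝ) * s = 1 := by exact_mod_cast hs1
      have h3 : |(s : ℝ)| * |(s : ℝ)| = 1 := by rw [← abs_mul, h2, abs_one]
      nlinarith [abs_nonneg (s : ℝ)]
    rw [h1, abs_mul, hs3, one_mul, abs_le]
    have h4 : (1 : ℝ) / d = 1 / d ^ 2 * d := by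
      field_simp
    have hi : 0 < 1 / (d : ℝ) ^ 2 := by positivity
    constructor
    · -- `1/d - β ≤ 1/d^2`
      have h5 : (1 : ℝ) / d - 1 / d ^ 2 ≤ β := by
        rw [div_sub_div _ _ hd0.ne' (by positivity), div_le_iff₀ (by positivity)]
        nlinarith [mul_pos hd0 hd0, mul_pos (mul_pos hd0 hd0) h0]
      linarith
    · have h5 : β ≤ 1 / d := by
        rw [le_div_iff₀ hd0]
        linarith
      linarith
  · nlinarith

theorem thm_Sup (h : GBQ.St_Vin) : St_Sup := by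
  obtain ⟨C, hC⟩ := h
  refine ⟨2 * C, fun X α hX h0 => ?_⟩
  obtain ⟨a, d, hd1, hg, hap, hd4, hd5⟩ := sup_approx α h0
  refine (hC X α a d hX hd1 hg hap).trans ?_
  obtain ⟨β, hβ⟩ : ∃ β : ℝ, β = nd α := ⟨_, rfl⟩
  rw [← hβ] at h0 hd4 hd5 ⊢
  have hdr : (1 : ℝ) ≤ d := by exact_mod_cast hd1
  have hXr : (3 : ℝ) ≤ X := by exact_mod_cast hX
  have hX0 : (0 : ℝ) < X := by linarith
  have hL : 1 ≤ Real.log X := by
    rw [Real.le_log_iff_exp_le hX0]
    have := Real.exp_one_lt_d9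
    linarith
  have hsd : 0 < Real.sqrt d := Real.sqrt_pos.mpr (by linarith)
  have hsβ : 0 ≤ Real.sqrt β := Real.sqrt_nonneg _
  have h1 : X / Real.sqrt d ≤ 2 * (X * Real.sqrt β) := by
    rw [div_le_iff₀ hsd]
    have h2 : 1 ≤ 2 * (Real.sqrt β * Real.sqrt d) := by
      rw [← Real.sqrt_mul h0.le]
      have h3 : (1 / 2 : ℝ) ≤ Real.sqrt (β * d) := by
        apply Real.le_sqrt_of_sq_le
        nlinarith
      linarith
    nlinarith
  have h2 : Real.sqrt (X * d) ≤ Real.sqrt (X / β) := by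
    apply Real.sqrt_le_sqrt
    rw [le_div_iff₀ h0]
    nlinarith
  have h3 : 0 ≤ (X : ℝ) ^ (5 / 6 : ℝ) := Real.rpow_nonneg hX0.le _
  have h4 : 0 ≤ Real.sqrt (X / β) := Real.sqrt_nonneg _
  have h5 : 0 ≤ X * Real.sqrt β := mul_nonneg hX0.le hsβ
  have hC0 : (0 : ℝ) ≤ C := Nat.cast_nonneg _
  have h6 : C * (X / Real.sqrt d + (X : ℝ) ^ (5 / 6 : ℝ) + Real.sqrt (X * d)) ≤
      ((2 * C : ℕ) : ℝ) * (X * Real.sqrt β + (X : ℝ) ^ (5 / 6 : ℝ) + Real.sqrt (X / β)) := by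
    push_cast
    have h7 : X / Real.sqrt d + (X : ℝ) ^ (5 / 6 : ℝ) + Real.sqrt (X * d) ≤
        2 * (X * Real.sqrt β + (X : ℝ) ^ (5 / 6 : ℝ) + Real.sqrt (X / β)) := by linarith
    calc C * (X / Real.sqrt d + (X : ℝ) ^ (5 / 6 : ℝ) + Real.sqrt (X * d)) ≤
          C * (2 * (X * Real.sqrt β + (X : ℝ) ^ (5 / 6 : ℝ) + Real.sqrt (X / β))) :=
          mul_le_mul_of_nonneg_left h7 hC0
      _ = _ := by ring
  have h8 : Real.log X ^ C ≤ Real.log X ^ (2 * C) := pow_le_pow_right₀ hL (by omega)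
  refine mul_le_mul h6 h8 (pow_nonneg (by linarith) _) ?_
  refine mul_nonneg (Nat.cast_nonneg _) (by linarith)

end Pool.Agent.AAN
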