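import Mathlib
import Pool.Agent.AAN.Stmts
import Pool.Agent.SI.T4

set_option autoImplicit false

/-!
# AAN / T4R

The proof of `EVN.thm_T4G` with `DensPk 2`: right order of magnitude.
-/

namespace Pool.Agent.AAN

open Finset Filter
open Pool.Agent.SI (St_Gap GapSet t4_range t4_div t4_ev)
open Pool.Agent.EVN (Phi SolP DensP BigP)

theorem t4r_gen (Φ : ℕ → ℕ → Prop) (h1 : St_Gap) (h2 : DensPk 2 Φ) (h3 : BigP Φ) :
    ∃ c : ℝ, 0 < c ∧ T4H c 3 Φ := by
  classical
  obtain ⟨c, hc, hgap⟩ := h1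
  obtain ⟨c₀, n₁, hc₀, hQK⟩ := h2
  refine ⟨5 * c₀ * (c / 32) / 96, by positivity, ?_⟩
  intro ε hε
  set ε₂ : ℝ := min ε (1 / 4) / 2 with hε₂
  have hm0 : 0 < min ε (1 / 4) := lt_min hε (by norm_num)
  have hε₂p : 0 < ε₂ := by rw [hε₂]; linarith
  have hε₂4 : ε₂ < 1 / 4 := by
    have := min_le_right ε (1 / 4)
    rw [hε₂]
    linarith
  have hε₂ε : ε₂ < ε := by
    have := min_le_left ε (1 / 4)
    rw [hε₂]
    linarith
  obtain ⟨X₁, hX₁⟩ := hgap ε₂ 4 hε₂p hε₂4
  obtain ⟨n₂, hn₂⟩ := h3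
  set c₁ : ℝ := c / 32 with hc₁
  have hc₁p : 0 < c₁ := by positivity
  set K : ℝ := 1 + 8 * 16 * 96 / (5 * c₀) + 8 * 24 / (5 * c₀ * c₁) with hK
  obtain ⟨n₀, hn₀⟩ := eventually_atTop.1 (t4_ev ε ε₂ K hε₂ε (max X₁ (max n₁ n₂)))
  refine ⟨n₀, ?_⟩
  intro n m hn hmn hmn2
  obtain ⟨hn24, hKL, hXn, hlog, hpow, hpow8⟩ := hn₀ n hn
  have hX1n : X₁ ≤ n / 3 := (le_max_left _ _).trans hXn
  have hn1n : n₁ ≤ n := by
    have := ((le_max_left n₁ n₂).trans (le_max_right X₁ _)).trans hXn
    omega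
  have hn2n : n₂ ≤ n := by
    have := ((le_max_right n₁ n₂).trans (le_max_right X₁ _)).trans hXn
    omega
  have hnR : (24 : ℝ) ≤ n := by exact_mod_cast hn24
  have hn0 : (0 : ℝ) < n := by linarith
  rcases Nat.lt_or_ge n (12 * m) with h12 | h12
  · -- large `m`
    obtain ⟨p, hp, hpn, hpq, hpΦ⟩ := hn₂ n hn2n m h12 hmn2
    refine ⟨⟨p, ?_⟩, fun h => absurd h (by omega)⟩
    unfold SolP
    rw [mem_filter, mem_range]
    exact ⟨hpn, hp, hpq, hpΦ⟩
  -- `12 m ≤ n`
  set L : ℝ := Real.log n with hL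
  have hK1 : 1 ≤ K := by
    have e1 : 0 < 8 * 16 * 96 / (5 * c₀) := by positivity
    have e2 : 0 < 8 * 24 / (5 * c₀ * c₁) := by positivity
    linarith
  have hL1 : 1 ≤ L := by linarith
  have hLp : 0 < L := by linarith
  set X : ℕ := n / 3 with hX
  have hX8 : 8 ≤ X := by omega
  have hm8 : (8 : ℝ) ≤ m := by
    have e1 : (n : ℝ) ^ (1 / 4 : ℝ) ≤ (n : ℝ) ^ (1 / 4 + ε) :=
      Real.rpow_le_rpow_of_exponent_le (by linarith) (by linarith)
    linarith
  have hm0' : (0 : ℝ) < m := by linarith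
  have hmpos : 0 < m := by exact_mod_cast hm0'
  set k : ℕ := n / (2 * m) with hk
  have hk2 : 2 ≤ k := by
    rw [hk, Nat.le_div_iff_mul_le (by omega)]
    omega
  obtain ⟨S, hS, hScard⟩ := hQK n hn1n k hk2 (Nat.div_le_self n (2 * m))
  have hkm : 2 * m * k ≤ n := Nat.mul_div_le n (2 * m)
  have hkm2 : n < 2 * m * (k + 1) := by
    have := Nat.lt_mul_div_succ n (show 0 < 2 * m by omega)
    rw [hk]
    exact this
  -- windows are short
  have hwin : ∀ Y : ℕ, Y ≤ n → (Y : ℝ) ^ (1 / 4 + ε₂) < (m / 4 : ℕ) + 1 := by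
    intro Y hY
    have e1 : (Y : ℝ) ^ (1 / 4 + ε₂) ≤ (n : ℝ) ^ (1 / 4 + ε₂) :=
      Real.rpow_le_rpow (Nat.cast_nonneg Y) (by exact_mod_cast hY) (by linarith)
    have e2 : (m : ℝ) / 4 < (m / 4 : ℕ) + 1 := by
      have e3 : m < 4 * (m / 4 + 1) := by omega
      have e4 : (m : ℝ) < 4 * ((m / 4 : ℕ) + 1) := by exact_mod_cast e3
      linarith
    linarith
  have hSq : ∀ q ∈ S, m * (q + 1) ≤ n ∧ n ≤ 2 * (n - m * q) ∧ 2 ≤ q := by
    intro q hq
    obtain ⟨hq1, hq2, _⟩ := hS q hq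
    have e1 : m * q ≤ m * k := Nat.mul_le_mul_left m hq1
    have e2 : 2 * (m * k) ≤ n := by
      calc 2 * (m * k) = 2 * m * k := by ring
        _ ≤ n := hkm
    have e3 : m * (q + 1) = m * q + m := by ring
    refine ⟨by omega, by omega, hq2.two_le⟩
  classical
  set P : Finset ℕ := (range n).filter (fun p => p.Prime ∧ (n - p) / m ∈ S) with hP
  set Pq : ℕ → Finset ℕ := fun q => P.filter (fun p => (n - p) / m = q) with hPq
  have hPsum : P.card = ∑ q ∈ S, (Pq q).card :=
    card_eq_sum_card_fiberwise (fun p hp => (mem_filter.1 hp).2.2)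
  set Sb : Finset ℕ := S.filter (fun q => ((Pq q).card : ℝ) ≤ c₁ * m / L) with hSb
  set J : ℕ → Finset ℕ := fun q => Ioc (n - m * (q + 1)) (n - m * q - m / 4) with hJ
  set F : Finset ℕ := GapSet ε₂ c X ∪ GapSet ε₂ c (2 * X) with hF
  -- every bad `q` gives many elements of `F`
  have hbad : ∀ q ∈ Sb, (m : ℝ) / 4 ≤ (((J q).filter (fun x => x ∈ F)).card : ℝ) := by
    intro q hq
    rw [hSb, mem_filter] at hq
    obtain ⟨hqS, hqb⟩ := hq
    obtain ⟨hq1, hq2, hq3⟩ := hSq q hqS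
    have e3 : m * (q + 1) = m * q + m := by ring
    have hJrange : ∀ x ∈ J q, X ≤ x ∧ x ≤ 4 * X := by
      intro x hx
      rw [hJ, mem_Ioc] at hx
      constructor <;> omega
    have hmem : ∀ Y : ℕ, Y ≤ n → ∀ x ∈ J q, ∀ p : ℕ, p.Prime → x < p →
        (p : ℝ) ≤ x + (Y : ℝ) ^ (1 / 4 + ε₂) → p ∈ Pq q := by
      intro Y hY x hx p hp hxp hpx
      rw [hJ, mem_Ioc] at hx
      have e4 : (p : ℝ) < x + (m / 4 : ℕ) + 1 := by linarith [hwin Y hY]
      have e5 : p < x + m / 4 + 1 := by exact_mod_cast e4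
      have e6 : (n - p) / m = q := t4_div hq1 (by omega) (by omega)
      rw [hPq, mem_filter, hP, mem_filter, mem_range]
      have e7 : 0 < m * q := Nat.mul_pos hmpos (by omega)
      refine ⟨⟨by omega, hp, ?_⟩, e6⟩
      rw [e6]
      exact hqS
    have hXn' : X ≤ n := by omega
    have hX2n' : 2 * X ≤ n := by omega
    have r1 := t4_range (m := m) hc (by omega : 2 ≤ X) (L := L) (c₁ := c₁) (by
      apply Real.log_le_log (by positivity)
      exact_mod_cast hXn') ((J q).filter (fun x => x ≤ 2 * X)) (Pq q) (by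
        intro x hx
        rw [mem_filter] at hx
        exact ⟨(hJrange x hx.1).1, hx.2⟩) (by
        intro x hx
        exact hmem X hXn' x (mem_filter.1 hx).1) hqb hc₁p.le
    have r2 := t4_range (m := m) hc (by omega : 2 ≤ 2 * X) (L := L) (c₁ := c₁) (by
      apply Real.log_le_log (by positivity)
      exact_mod_cast hX2n') ((J q).filter (fun x => ¬ x ≤ 2 * X)) (Pq q) (by
        intro x hx
        rw [mem_filter] at hx
        have := (hJrange x hx.1).2
        omega) (by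
        intro x hx
        exact hmem (2 * X) hX2n' x (mem_filter.1 hx).1) hqb hc₁p.le
    have e8 : c₁ * m / c = m / 32 := by
      rw [hc₁]
      field_simp
    rw [e8] at r1 r2
    -- `J q` is covered by four sets
    have hcover : J q ⊆ ((J q).filter (fun x => x ∈ F)) ∪
        (((J q).filter (fun x => x ≤ 2 * X)).filter (fun x => x ∉ GapSet ε₂ c X) ∪
        ((J q).filter (fun x => ¬ x ≤ 2 * X)).filter (fun x => x ∉ GapSet ε₂ c (2 * X))) := by
      intro x hx
      simp only [mem_union, mem_filter]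
      by_cases hxF : x ∈ F
      · exact Or.inl ⟨hx, hxF⟩
      · rw [hF, mem_union] at hxF
        push Not at hxF
        by_cases hx2 : x ≤ 2 * X
        · exact Or.inr (Or.inl ⟨⟨hx, hx2⟩, hxF.1⟩)
        · exact Or.inr (Or.inr ⟨⟨hx, hx2⟩, hxF.2⟩)
    have h6 := (card_le_card hcover).trans (card_union_le _ _)
    have h7 := h6.trans (Nat.add_le_add_left (card_union_le _ _) _)
    have h8 : (J q).card = m - m / 4 := by
      rw [hJ, Nat.card_Ioc]
      omega
    have h9 : (3 : ℝ) * m / 4 ≤ ((J q).card : ℝ) := by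
      rw [h8]
      have e9 : 3 * m ≤ 4 * (m - m / 4) := by omega
      have e10 : (3 : ℝ) * m ≤ 4 * ((m - m / 4 : ℕ) : ℝ) := by exact_mod_cast e9
      linarith
    have h10 : ((J q).card : ℝ) ≤ (((J q).filter (fun x => x ∈ F)).card : ℝ) +
        (((((J q).filter (fun x => x ≤ 2 * X)).filter (fun x => x ∉ GapSet ε₂ c X)).card : ℝ) +
        ((((J q).filter (fun x => ¬ x ≤ 2 * X)).filter
          (fun x => x ∉ GapSet ε₂ c (2 * X))).card : ℝ)) := by exact_mod_cast h7
    linarith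
  -- the size of `F`
  have hXR : (8 : ℝ) ≤ X := by exact_mod_cast hX8
  have hlX : L / 2 ≤ Real.log X := hlog
  have hFcard : (F.card : ℝ) ≤ 16 * n / L ^ 4 := by
    have g1 := hX₁ X hX1n (GapSet ε₂ c X) (by
      intro x hx
      unfold GapSet at hx
      rw [mem_filter, mem_Icc] at hx
      exact ⟨hx.1.1, hx.1.2, hx.2⟩)
    have g2 := hX₁ (2 * X) (by omega) (GapSet ε₂ c (2 * X)) (by
      intro x hx
      unfold GapSet at hx
      rw [mem_filter, mem_Icc] at hx
      exact ⟨hx.1.1, hx.1.2, hx.2⟩)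
    have hl2 : L / 2 ≤ Real.log ((2 * X : ℕ) : ℝ) := by
      refine hlX.trans (Real.log_le_log (by linarith) ?_)
      push_cast
      linarith
    have g3 : (L / 2) ^ 4 ≤ Real.log X ^ 4 := pow_le_pow_left₀ (by linarith) hlX 4
    have g4 : (L / 2) ^ 4 ≤ Real.log ((2 * X : ℕ) : ℝ) ^ 4 :=
      pow_le_pow_left₀ (by linarith) hl2 4
    have g5 : (X : ℝ) / Real.log X ^ 4 ≤ X / (L / 2) ^ 4 :=
      div_le_div_of_nonneg_left (by linarith) (by positivity) g3
    have g6 : ((2 * X : ℕ) : ℝ) / Real.log ((2 * X : ℕ) : ℝ) ^ 4 ≤ (2 * X : ℕ) / (L / 2) ^ 4 :=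
      div_le_div_of_nonneg_left (by positivity) (by positivity) g4
    have g7 : (F.card : ℝ) ≤ (GapSet ε₂ c X).card + (GapSet ε₂ c (2 * X)).card := by
      exact_mod_cast card_union_le _ _
    have g8 : (3 : ℝ) * X ≤ n := by
      have : 3 * X ≤ n := by omega
      exact_mod_cast this
    calc (F.card : ℝ) ≤ X / (L / 2) ^ 4 + (2 * X : ℕ) / (L / 2) ^ 4 := by linarith
      _ = 16 * (3 * X) / L ^ 4 := by
        push_cast
        field_simp
        ring
      _ ≤ 16 * n / L ^ 4 := by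
        apply div_le_div_of_nonneg_right _ (by positivity)
        linarith
  have hFsum : (Sb.card : ℝ) * (m / 4) ≤ F.card := by
    have g1 : (F.filter (fun x => (n - x) / m ∈ Sb)).card =
        ∑ q ∈ Sb, ((F.filter (fun x => (n - x) / m ∈ Sb)).filter
          (fun x => (n - x) / m = q)).card :=
      card_eq_sum_card_fiberwise (fun x hx => (mem_filter.1 hx).2)
    have g2 : ∀ q ∈ Sb, (m : ℝ) / 4 ≤ (((F.filter (fun x => (n - x) / m ∈ Sb)).filter
          (fun x => (n - x) / m = q)).card : ℝ) := by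
      intro q hq
      refine (hbad q hq).trans ?_
      have g3 : (J q).filter (fun x => x ∈ F) ⊆ (F.filter (fun x => (n - x) / m ∈ Sb)).filter
          (fun x => (n - x) / m = q) := by
        intro x hx
        rw [mem_filter, hJ, mem_Ioc] at hx
        obtain ⟨⟨hx1, hx2⟩, hx3⟩ := hx
        have hqS : q ∈ S := (mem_filter.1 hq).1
        have e6 : (n - x) / m = q := t4_div (hSq q hqS).1 hx1 (by omega)
        rw [mem_filter, mem_filter, e6]
        exact ⟨⟨hx3, hq⟩, rfl⟩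
      exact_mod_cast card_le_card g3
    calc (Sb.card : ℝ) * (m / 4) = ∑ _q ∈ Sb, (m : ℝ) / 4 := by rw [sum_const, nsmul_eq_mul]
      _ ≤ ∑ q ∈ Sb, (((F.filter (fun x => (n - x) / m ∈ Sb)).filter
          (fun x => (n - x) / m = q)).card : ℝ) := sum_le_sum g2
      _ = ((F.filter (fun x => (n - x) / m ∈ Sb)).card : ℝ) := by
        rw [g1]
        push_cast
        rfl
      _ ≤ F.card := by exact_mod_cast card_le_card (filter_subset _ _)
  -- lower bound for `S`
  have hkn : k ≤ n := Nat.div_le_self n (2 * m)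
  have hlk : Real.log k ≤ L := by
    apply Real.log_le_log
    · have : 0 < k := by omega
      exact_mod_cast this
    · exact_mod_cast hkn
  have hlk0 : 0 ≤ Real.log k := Real.log_nonneg (by
    have : 1 ≤ k := by omega
    exact_mod_cast this)
  have hkmR : 5 * (n : ℝ) / 12 ≤ k * m := by
    have e1 : 5 * n ≤ 12 * (k * m) := by
      have e2 : 2 * m * (k + 1) = 2 * (k * m) + 2 * m := by ring
      omega
    have e2 : 5 * (n : ℝ) ≤ 12 * (k * m) := by exact_mod_cast e1
    linarith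
  have hSlow : c₀ * (5 * n / 12) / (4 * L ^ 2) ≤ (S.card : ℝ) * m := by
    have e1 : c₀ * k / (4 * L ^ 2) ≤ S.card := by
      refine le_trans ?_ hScard
      apply div_le_div_of_nonneg_left (by positivity) (by positivity)
      calc (1 + Real.log k) ^ 2 ≤ (2 * L) ^ 2 := by
            apply pow_le_pow_left₀ (by linarith)
            linarith
        _ = 4 * L ^ 2 := by ring
    calc c₀ * (5 * n / 12) / (4 * L ^ 2) ≤ c₀ * (k * m) / (4 * L ^ 2) := by
          apply div_le_div_of_nonneg_right _ (by positivity)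
          exact mul_le_mul_of_nonneg_left hkmR hc₀.le
      _ = c₀ * k / (4 * L ^ 2) * m := by ring
      _ ≤ (S.card : ℝ) * m := mul_le_mul_of_nonneg_right e1 hm0'.le
  have hSlow3 : c₀ * (5 * n / 12) / (8 * L ^ 3) ≤ (S.card : ℝ) * m := by
    refine le_trans ?_ hSlow
    apply div_le_div_of_nonneg_left (by positivity) (by positivity)
    have : L ^ 2 ≤ L ^ 3 := pow_le_pow_right₀ hL1 (by norm_num)
    have : 0 ≤ L ^ 2 := by positivity
    linarith
  have hSbS : Sb.card ≤ S.card := card_le_card (filter_subset _ _)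
  -- at most half of `S` is bad
  have hhalf : (Sb.card : ℝ) ≤ S.card / 2 := by
    by_contra hcon
    push Not at hcon
    have e1 : c₀ * (5 * n / 12) / (8 * L ^ 3) / 8 < 16 * n / L ^ 4 := by
      calc c₀ * (5 * n / 12) / (8 * L ^ 3) / 8 ≤ (S.card : ℝ) * m / 8 := by
            apply div_le_div_of_nonneg_right hSlow3 (by norm_num)
        _ = (S.card / 2) * (m / 4) := by ring
        _ < Sb.card * (m / 4) := mul_lt_mul_of_pos_right hcon (by positivity)
        _ ≤ 16 * n / L ^ 4 := hFsum.trans hFcard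
    have e2 : 8 * 16 * 96 / (5 * c₀) ≤ L := by
      have e3 : 0 < 8 * 24 / (5 * c₀ * c₁) := by positivity
      linarith
    rw [div_le_iff₀ (by positivity)] at e2
    have e3 : c₀ * (5 * n / 12) / (8 * L ^ 3) / 8 = (L * (5 * c₀)) * n / (768 * L ^ 4) := by
      field_simp
      ring
    rw [e3, div_lt_div_iff₀ (by positivity) (by positivity)] at e1
    have e4 : 8 * 16 * 96 * n * L ^ 4 ≤ L * (5 * c₀) * n * L ^ 4 := by
      apply mul_le_mul_of_nonneg_right _ (by positivity)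
      exact mul_le_mul_of_nonneg_right e2 hn0.le
    nlinarith [e1, e4]
  -- count
  have hPcard : 5 * c₀ * (c / 32) / 96 * n / L ^ 3 ≤ P.card := by
    have e1 : ((S \ Sb).card : ℝ) * (c₁ * m / L) ≤ P.card := by
      have e2 : ∀ q ∈ S \ Sb, c₁ * m / L ≤ ((Pq q).card : ℝ) := by
        intro q hq
        obtain ⟨hqa, hqb⟩ := Finset.mem_sdiff.1 hq
        by_contra hcon
        push Not at hcon
        exact hqb (mem_filter.2 ⟨hqa, hcon.le⟩)
      calc ((S \ Sb).card : ℝ) * (c₁ * m / L) = ∑ _q ∈ S \ Sb, c₁ * m / L := by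
            rw [sum_const, nsmul_eq_mul]
        _ ≤ ∑ q ∈ S \ Sb, ((Pq q).card : ℝ) := sum_le_sum e2
        _ ≤ ∑ q ∈ S, ((Pq q).card : ℝ) :=
            sum_le_sum_of_subset_of_nonneg sdiff_subset (fun _ _ _ => Nat.cast_nonneg _)
        _ = P.card := by
            rw [hPsum]
            push_cast
            rfl
    have e3 : (S.card : ℝ) / 2 ≤ (S \ Sb).card := by
      have e4 : (S \ Sb).card = S.card - Sb.card := card_sdiff_of_subset (filter_subset _ _)
      rw [e4, Nat.cast_sub hSbS]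
      linarith
    have e5 : 5 * c₀ * (c / 32) / 96 * n / L ^ 3 ≤ (S.card : ℝ) / 2 * (c₁ * m / L) := by
      have e6 : (S.card : ℝ) / 2 * (c₁ * m / L) = (S.card * m) * (c₁ / (2 * L)) := by
        field_simp
      rw [e6]
      have e7 : c₀ * (5 * n / 12) / (4 * L ^ 2) * (c₁ / (2 * L)) ≤
          (S.card * m) * (c₁ / (2 * L)) := mul_le_mul_of_nonneg_right hSlow (by positivity)
      refine le_trans (le_of_eq ?_) e7
      rw [hc₁]
      field_simp
      ring
    calc 5 * c₀ * (c / 32) / 96 * n / L ^ 3 ≤ (S.card : ℝ) / 2 * (c₁ * m / L) := e5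
      _ ≤ (S \ Sb).card * (c₁ * m / L) := mul_le_mul_of_nonneg_right e3 (by positivity)
      _ ≤ P.card := e1
  have hsub : P ⊆ SolP Φ m n := by
    intro p hp
    rw [hP, mem_filter, mem_range] at hp
    obtain ⟨hp1, hp2, hp3⟩ := hp
    obtain ⟨_, hq1, hq2⟩ := hS _ hp3
    unfold SolP
    rw [mem_filter, mem_range]
    exact ⟨hp1, hp2, hq1, hq2⟩
  have hne : P.Nonempty := by
    rw [← card_pos]
    have e1 : (0 : ℝ) < P.card := lt_of_lt_of_le (by positivity) hPcard
    exact_mod_cast e1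
  refine ⟨hne.mono hsub, fun _ => hPcard.trans ?_⟩
  exact_mod_cast card_le_card hsub

theorem thm_T4R (h1 : St_Gap) (h2 : BigP Phi) : St_T4R :=
  fun h => t4r_gen Phi h1 h h2

end Pool.Agent.AAN
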