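import Pool.Agent.AAN.Stmts
import Pool.Agent.GBQ.Bridge

set_option autoImplicit false

namespace Pool.Agent.AAN

open Finset Filter
open Pool.Agent.GBQ (ee lam nd Admissible)
open Pool.Agent.EVN (Phi SolP DensP BigP)

theorem var_norm_ee (x : ℝ) : ‖ee x‖ = 1 := by
  unfold ee
  rw [Complex.norm_exp_ofReal_mul_I]

theorem var_ee_sub_int (x : ℝ) (k : ℤ) : ee (x - k) = ee x := by
  unfold ee
  rw [Complex.exp_eq_exp_iff_exists_int]
  refine ⟨-k, ?_⟩
  push_cast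
  ring

theorem var_ee_zero : ee 0 = 1 := by
  unfold ee
  simp

theorem var_diff_le (x : ℝ) : ‖1 - ee x‖ ≤ 2 * Real.pi * |x| := by
  have h1 := Real.norm_exp_I_mul_ofReal_sub_one_le (x := 2 * Real.pi * x)
  unfold ee
  rw [norm_sub_rev, mul_comm (((2 * Real.pi * x : ℝ) : ℂ)) Complex.I]
  refine h1.trans (le_of_eq ?_)
  rw [Real.norm_eq_abs, abs_mul, abs_of_nonneg (by positivity : (0 : ℝ) ≤ 2 * Real.pi)]

theorem var_diff (h : ℕ) (θ : ℝ) : ‖1 - ee (h * θ)‖ ≤ 2 ∧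
    ‖1 - ee (h * θ)‖ ≤ 2 * Real.pi * (h * nd θ) := by
  constructor
  · refine (norm_sub_le _ _).trans ?_
    rw [norm_one, var_norm_ee]
    norm_num
  · have h1 : ee (h * θ) = ee (h * (θ - round θ)) := by
      rw [← var_ee_sub_int (h * θ) ((h : ℤ) * round θ)]
      congr 1
      push_cast
      ring
    rw [h1]
    refine (var_diff_le _).trans (le_of_eq ?_)
    rw [abs_mul, Nat.abs_cast]
    rfl

theorem var_geo (m : ℕ) (θ : ℝ) : ‖∑ r ∈ range m, ee (r * θ)‖ ≤ m ∧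
    (0 < nd θ → ‖∑ r ∈ range m, ee (r * θ)‖ ≤ 1 / (2 * nd θ)) := by
  constructor
  · refine (norm_sum_le _ _).trans ?_
    simp [var_norm_ee]
  · intro hθ
    have h1 := Pool.Agent.GBQ.thm_Geo 0 m θ (Nat.zero_le m)
    have h2 : ∑ n ∈ Ioc 0 m, ee (θ * n) = ee θ * ∑ r ∈ range m, ee (r * θ) := by
      have h3 : Ioc 0 m = Ico (0 + 1) (m + 1) := by
        ext x
        simp only [mem_Ioc, mem_Ico]
        omega
      rw [h3, ← Finset.sum_Ico_add', Nat.Ico_zero_eq_range, mul_sum]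
      refine sum_congr rfl fun r _ => ?_
      unfold ee
      rw [← Complex.exp_add]
      congr 1
      push_cast
      ring
    rw [h2, norm_mul, var_norm_ee, one_mul] at h1
    refine h1.trans ?_
    unfold Pool.Agent.GBQ.gm
    rw [if_neg hθ.ne']
    exact min_le_right _ _

theorem var_nd_le (θ : ℝ) (k : ℤ) : nd θ ≤ |θ - k| := round_le θ k

theorem var_nd_ge {θ : ℝ} (h0 : 0 ≤ θ) (h1 : θ ≤ 1) : min θ (1 - θ) ≤ nd θ := by
  unfold nd
  rcases le_or_gt (round θ) 0 with h | h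
  · have h2 : ((round θ : ℤ) : ℝ) ≤ 0 := by exact_mod_cast h
    rw [abs_of_nonneg (by linarith)]
    exact (min_le_left _ _).trans (by linarith)
  · have h2 : (1 : ℝ) ≤ ((round θ : ℤ) : ℝ) := by exact_mod_cast h
    rw [abs_of_nonpos (by linarith)]
    exact (min_le_right _ _).trans (by linarith)

theorem var_sup2 {C X : ℕ} {α : ℝ} (hα : 0 < nd α)
    (h : ‖∑ x ∈ range (X + 1), ((lam x : ℝ) : ℂ) * ee (α * x)‖ ≤
      C * (X * Real.sqrt (nd α) + (X : ℝ) ^ (5 / 6 : ℝ) + Real.sqrt (X / nd α)) *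
        Real.log X ^ C) :
    ‖∑ x ∈ range (X + 1), ((lam x : ℝ) : ℂ) * ee (α * x)‖ ^ 2 ≤
      3 * (C : ℝ) ^ 2 * Real.log X ^ (2 * C) *
        ((X : ℝ) ^ 2 * nd α + (X : ℝ) ^ (5 / 3 : ℝ) + X / nd α) := by
  have hX : (0 : ℝ) ≤ X := Nat.cast_nonneg X
  set a : ℝ := X * Real.sqrt (nd α) with ha
  set b : ℝ := (X : ℝ) ^ (5 / 6 : ℝ) with hb
  set c : ℝ := Real.sqrt (X / nd α) with hc
  have ha2 : a ^ 2 = (X : ℝ) ^ 2 * nd α := by
    rw [ha, mul_pow, Real.sq_sqrt hα.le]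
  have hb2 : b ^ 2 = (X : ℝ) ^ (5 / 3 : ℝ) := by
    rw [hb, ← Real.rpow_natCast, ← Real.rpow_mul hX]
    norm_num
  have hc2 : c ^ 2 = X / nd α := by
    rw [hc, Real.sq_sqrt (div_nonneg hX hα.le)]
  have h1 := pow_le_pow_left₀ (norm_nonneg _) h 2
  refine h1.trans ?_
  rw [← ha2, ← hb2, ← hc2]
  have h2 : (C * (a + b + c) * Real.log X ^ C) ^ 2 =
      (C : ℝ) ^ 2 * Real.log X ^ (2 * C) * (a + b + c) ^ 2 := by
    rw [mul_pow, mul_pow, ← pow_mul, mul_comm C 2]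
    ring
  rw [h2]
  have h3 : (a + b + c) ^ 2 ≤ 3 * (a ^ 2 + b ^ 2 + c ^ 2) := by
    nlinarith [sq_nonneg (a - b), sq_nonneg (b - c), sq_nonneg (a - c)]
  have h4 : 0 ≤ (C : ℝ) ^ 2 * Real.log X ^ (2 * C) := by
    refine mul_nonneg (sq_nonneg _) ?_
    rw [pow_mul]
    exact pow_nonneg (sq_nonneg _) _
  have h5 := mul_le_mul_of_nonneg_left h3 h4
  linarith

/-- far from the integers -/
theorem var_far {A X m t β d g s : ℝ} (hA : 0 ≤ A) (hX : 0 ≤ X) (hm : 0 < m) (ht : 1 ≤ t)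
    (hβ : t / m ≤ β) (hd0 : 0 ≤ d) (hd : d ≤ 2) (hg0 : 0 ≤ g) (hg : g ≤ 1 / (2 * β))
    (hs : s ^ 2 ≤ A * (X ^ 2 * β + X ^ (5 / 3 : ℝ) + X / β)) :
    d ^ 2 * g ^ 2 * s ^ 2 ≤ A * (X ^ 2 * m + X ^ (5 / 3 : ℝ) * m ^ 2 + X * m ^ 3) * t⁻¹ := by
  have ht0 : 0 < t := by linarith
  have hβ0 : 0 < β := lt_of_lt_of_le (div_pos ht0 hm) hβ
  set u : ℝ := β⁻¹ with hu
  have hu0 : 0 < u := inv_pos.2 hβ0
  have hum : u ≤ m * t⁻¹ := by
    rw [hu, ← div_eq_mul_inv, inv_le_comm₀ hβ0 (div_pos hm ht0), inv_div]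
    exact hβ
  set q : ℝ := X ^ (5 / 3 : ℝ) with hq
  have hq0 : 0 ≤ q := Real.rpow_nonneg hX _
  have h1 : d ^ 2 ≤ 4 := by nlinarith
  have h2 : g ^ 2 ≤ u ^ 2 / 4 := by
    have h3 : 1 / (2 * β) = u / 2 := by rw [hu]; field_simp
    rw [h3] at hg
    nlinarith
  have h3 : d ^ 2 * g ^ 2 ≤ u ^ 2 := by
    have := mul_le_mul h1 h2 (sq_nonneg g) (by norm_num)
    linarith
  have h4 : d ^ 2 * g ^ 2 * s ^ 2 ≤ u ^ 2 * (A * (X ^ 2 * β + q + X / β)) :=
    mul_le_mul h3 hs (sq_nonneg s) (sq_nonneg u)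
  have h5 : u ^ 2 * (A * (X ^ 2 * β + q + X / β)) = A * (X ^ 2 * u + q * u ^ 2 + X * u ^ 3) := by
    have h6 : u * β = 1 := by rw [hu]; exact inv_mul_cancel₀ hβ0.ne'
    have h7 : X / β = X * u := by rw [hu]; rfl
    rw [h7]
    have h8 : u ^ 2 * β = u := by rw [sq, mul_assoc, h6, mul_one]
    calc u ^ 2 * (A * (X ^ 2 * β + q + X * u)) = A * (X ^ 2 * (u ^ 2 * β) + q * u ^ 2 + X * u ^ 3) := by
          ring
      _ = _ := by rw [h8]
  rw [h5] at h4
  refine h4.trans ?_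
  rw [mul_assoc]
  refine mul_le_mul_of_nonneg_left ?_ hA
  have hti : t⁻¹ ≤ 1 := inv_le_one_of_one_le₀ ht
  have hti0 : 0 < t⁻¹ := inv_pos.2 ht0
  have h9 : u ^ 2 ≤ m ^ 2 * t⁻¹ := by
    have : u ^ 2 ≤ (m * t⁻¹) ^ 2 := pow_le_pow_left₀ hu0.le hum 2
    have h10 : (m * t⁻¹) ^ 2 = m ^ 2 * t⁻¹ * t⁻¹ := by ring
    have h11 : m ^ 2 * t⁻¹ * t⁻¹ ≤ m ^ 2 * t⁻¹ * 1 :=
      mul_le_mul_of_nonneg_left hti (by positivity)
    linarith
  have h12 : u ^ 3 ≤ m ^ 3 * t⁻¹ := by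
    have : u ^ 3 ≤ (m * t⁻¹) ^ 3 := pow_le_pow_left₀ hu0.le hum 3
    have h10 : (m * t⁻¹) ^ 3 = m ^ 3 * t⁻¹ * (t⁻¹ * t⁻¹) := by ring
    have h11 : m ^ 3 * t⁻¹ * (t⁻¹ * t⁻¹) ≤ m ^ 3 * t⁻¹ * 1 :=
      mul_le_mul_of_nonneg_left (by nlinarith) (by positivity)
    linarith
  have e1 := mul_le_mul_of_nonneg_left hum (sq_nonneg X)
  have e2 := mul_le_mul_of_nonneg_left h9 hq0
  have e3 := mul_le_mul_of_nonneg_left h12 hX
  nlinarith

/-- near an integer -/
theorem var_near {A X m h β d g s : ℝ} (hA : 0 ≤ A) (hX : 0 ≤ X) (hm : 0 < m) (hh : 0 ≤ h)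
    (hβ0 : 0 < β) (hβ : β ≤ 1 / m) (hd0 : 0 ≤ d) (hd : d ≤ 2)
    (hd' : d ≤ 2 * Real.pi * (h * β)) (hg0 : 0 ≤ g) (hg : g ≤ m)
    (hs : s ^ 2 ≤ A * (X ^ 2 * β + X ^ (5 / 3 : ℝ) + X / β)) :
    d ^ 2 * g ^ 2 * s ^ 2 ≤
      A * (4 * X ^ 2 * m + 4 * X ^ (5 / 3 : ℝ) * m ^ 2 + 13 * h * X * m ^ 2) := by
  set q : ℝ := X ^ (5 / 3 : ℝ) with hq
  have hq0 : 0 ≤ q := Real.rpow_nonneg hX _
  have h1 : d ^ 2 ≤ 4 := by nlinarith
  have h2 : d ^ 2 ≤ 13 * (h * β) := by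
    have h3 : d ^ 2 ≤ 2 * d := by nlinarith
    have h4 : Real.pi ≤ 13 / 4 := by linarith [Real.pi_lt_d2]
    have h5 : 0 ≤ h * β := mul_nonneg hh hβ0.le
    nlinarith
  have h3 : g ^ 2 ≤ m ^ 2 := pow_le_pow_left₀ hg0 hg 2
  have h4 : d ^ 2 * (X ^ 2 * β + q + X / β) ≤ 4 * (X ^ 2 * β) + 4 * q + 13 * h * X := by
    have e1 := mul_le_mul_of_nonneg_right h1 (mul_nonneg (sq_nonneg X) hβ0.le)
    have e2 := mul_le_mul_of_nonneg_right h1 hq0
    have e3 : d ^ 2 * (X / β) ≤ 13 * h * X := by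
      have := mul_le_mul_of_nonneg_right h2 (div_nonneg hX hβ0.le)
      have h5 : 13 * (h * β) * (X / β) = 13 * h * X := by
        field_simp
      linarith
    nlinarith
  have h5 : d ^ 2 * g ^ 2 * s ^ 2 ≤ m ^ 2 * (A * (d ^ 2 * (X ^ 2 * β + q + X / β))) := by
    have e1 : d ^ 2 * g ^ 2 * s ^ 2 ≤ d ^ 2 * g ^ 2 * (A * (X ^ 2 * β + q + X / β)) :=
      mul_le_mul_of_nonneg_left hs (by positivity)
    have e2 : 0 ≤ A * (X ^ 2 * β + q + X / β) := (sq_nonneg s).trans hs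
    have e3 : d ^ 2 * g ^ 2 * (A * (X ^ 2 * β + q + X / β)) ≤
        d ^ 2 * m ^ 2 * (A * (X ^ 2 * β + q + X / β)) :=
      mul_le_mul_of_nonneg_right (mul_le_mul_of_nonneg_left h3 (sq_nonneg d)) e2
    have e4 : d ^ 2 * m ^ 2 * (A * (X ^ 2 * β + q + X / β)) =
        m ^ 2 * (A * (d ^ 2 * (X ^ 2 * β + q + X / β))) := by ring
    linarith
  refine h5.trans ?_
  have h6 := mul_le_mul_of_nonneg_left (mul_le_mul_of_nonneg_left h4 hA) (sq_nonneg m)
  refine h6.trans ?_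
  have h7 : m ^ 2 * β ≤ m := by
    have := mul_le_mul_of_nonneg_left hβ (sq_nonneg m)
    have h8 : m ^ 2 * (1 / m) = m := by field_simp
    linarith
  have h8 : m ^ 2 * (4 * (X ^ 2 * β) + 4 * q + 13 * h * X) ≤
      4 * X ^ 2 * m + 4 * q * m ^ 2 + 13 * h * X * m ^ 2 := by
    have := mul_le_mul_of_nonneg_left h7 (sq_nonneg X)
    nlinarith
  have h9 := mul_le_mul_of_nonneg_left h8 hA
  calc m ^ 2 * (A * (4 * (X ^ 2 * β) + 4 * q + 13 * h * X)) =
      A * (m ^ 2 * (4 * (X ^ 2 * β) + 4 * q + 13 * h * X)) := by ring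
    _ ≤ _ := h9

theorem var_harm (m : ℕ) (hm : 1 ≤ m) : ∑ i ∈ range m, ((i : ℝ))⁻¹ ≤ 1 + Real.log m := by
  obtain ⟨k, rfl⟩ : ∃ k, m = k + 1 := ⟨m - 1, by omega⟩
  rw [sum_range_succ']
  simp only [Nat.cast_zero, inv_zero, add_zero]
  have h1 := harmonic_le_one_add_log k
  have h2 : ((harmonic k : ℚ) : ℝ) = ∑ i ∈ range k, (((i + 1 : ℕ) : ℝ))⁻¹ := by
    unfold harmonic
    push_cast
    rfl
  rw [h2] at h1
  refine h1.trans ?_
  rcases Nat.eq_zero_or_pos k with rfl | hk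
  · simp
  · have : Real.log k ≤ Real.log ((k + 1 : ℕ) : ℝ) :=
      Real.log_le_log (by exact_mod_cast hk) (by exact_mod_cast Nat.le_succ k)
    linarith

theorem thm_Var (h1 : St_Sup) (h2 : St_Fou) : St_Var := by
  obtain ⟨C, hC⟩ := h1
  refine ⟨2 * C + 2, ?_⟩
  have hlog : ∀ᶠ X : ℕ in atTop, 200 * (C : ℝ) ^ 2 + 1 ≤ Real.log X :=
    (Real.tendsto_log_atTop.comp tendsto_natCast_atTop_atTop).eventually_ge_atTop _
  filter_upwards [hlog, eventually_ge_atTop 4096] with X hX hX64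
  intro m h QQ F hm hmX hhX hQ hF
  have hXr : (4096 : ℝ) ≤ X := by exact_mod_cast hX64
  have hX0 : (0 : ℝ) < X := by linarith
  have hX1 : (1 : ℝ) ≤ X := by linarith
  have hmr : (1 : ℝ) ≤ m := by exact_mod_cast hm
  have hm0 : (0 : ℝ) < m := by linarith
  have hh0 : (0 : ℝ) ≤ h := Nat.cast_nonneg h
  -- sizes
  have hm3 : (m : ℝ) ^ 3 ≤ X := by
    have := pow_le_pow_left₀ hm0.le hmX 3
    rw [← Real.rpow_natCast, ← Real.rpow_natCast, ← Real.rpow_mul hX0.le] at this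
    norm_num at this
    exact this
  have hh2 : (h : ℝ) ^ 2 ≤ X := by
    have := pow_le_pow_left₀ hh0 hhX 2
    rw [← Real.rpow_natCast, ← Real.rpow_natCast, ← Real.rpow_mul hX0.le] at this
    norm_num at this
    exact this
  have hm2 : (m : ℝ) ^ 2 ≤ X := by nlinarith [sq_nonneg (m : ℝ)]
  have hmh : (m : ℝ) * h ≤ X := by nlinarith [sq_nonneg ((m : ℝ) - h)]
  have h8m : 8 * m ≤ X := by
    have : (8 : ℝ) * m ≤ X := by
      by_contra hcon
      push Not at hcon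
      have h3 : (X : ℝ) ^ 2 < (8 * m) ^ 2 := by nlinarith
      nlinarith
    exact_mod_cast this
  have h4h : 4 * h ≤ X := by
    have : (4 : ℝ) * h ≤ X := by
      by_contra hcon
      push Not at hcon
      have h3 : (X : ℝ) ^ 2 < (4 * h) ^ 2 := by nlinarith
      nlinarith
    exact_mod_cast this
  set q : ℝ := (X : ℝ) ^ (5 / 3 : ℝ) with hq
  have hq0 : 0 ≤ q := Real.rpow_nonneg hX0.le _
  have hqm : q * m ≤ (X : ℝ) ^ 2 := by
    have h3 := mul_le_mul_of_nonneg_left hmX hq0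
    have h4 : q * (X : ℝ) ^ (1 / 3 : ℝ) = (X : ℝ) ^ 2 := by
      rw [hq, ← Real.rpow_add hX0, ← Real.rpow_natCast]
      norm_num
    linarith
  set L : ℝ := Real.log X with hL
  have hC2 : 0 ≤ (C : ℝ) ^ 2 := sq_nonneg _
  have hL1 : 1 ≤ L := by linarith
  set A : ℝ := 3 * (C : ℝ) ^ 2 * L ^ (2 * C) with hA
  have hA0 : 0 ≤ A := by rw [hA]; positivity
  set G0 : ℝ := A * (4 * (X : ℝ) ^ 2 * m + 4 * q * (m : ℝ) ^ 2 + 13 * h * X * (m : ℝ) ^ 2)
    with hG0
  set K : ℝ := A * ((X : ℝ) ^ 2 * m + q * (m : ℝ) ^ 2 + X * (m : ℝ) ^ 3) with hK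
  have hG00 : 0 ≤ G0 := by rw [hG0]; positivity
  have hK0 : 0 ≤ K := by rw [hK]; positivity
  set G : ℕ → ℝ := fun i => (if i = 0 then G0 else 0) + (if i = m - 1 then G0 else 0) +
    K * (((i : ℝ))⁻¹ + (((m - 1 - i : ℕ) : ℝ))⁻¹) with hG
  have hP : X < m * (X / m + 1) := Nat.lt_mul_div_succ X (by omega)
  have hmain := h2 m (X / m + 1) X h QQ F G hm hP
    (by
      intro q' hq'
      have h3 := hQ q' hq'
      have h4 : q' ≤ X / m := by
        rw [Nat.le_div_iff_mul_le (by omega)]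
        nlinarith
      omega)
    (by
      intro n hn
      obtain ⟨h3, h4⟩ := hF n hn
      refine ⟨by omega, fun q' hq' => ?_⟩
      have h5 := hQ q' hq'
      have h6 : 8 * (m * q') ≤ X := by nlinarith
      have h7 : m * (q' + 1) = m * q' + m := by ring
      rw [h7]
      omega)
    (by
      intro i hi ξ hξ1 hξ2
      have hP1 : (0 : ℝ) < ((X / m + 1 : ℕ) : ℝ) := by exact_mod_cast Nat.succ_pos _
      set α : ℝ := (ξ : ℝ) / (m * ((X / m + 1 : ℕ) : ℝ)) with hα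
      have hα1 : (i : ℝ) / m ≤ α := by
        rw [hα, div_le_div_iff₀ hm0 (mul_pos hm0 hP1)]
        have h3 : (i : ℝ) * ((X / m + 1 : ℕ) : ℝ) ≤ ξ := by exact_mod_cast hξ1
        nlinarith
      have hα2 : α < ((i : ℝ) + 1) / m := by
        rw [hα, div_lt_div_iff₀ (mul_pos hm0 hP1) hm0]
        have h3 : (ξ : ℝ) < ((i : ℝ) + 1) * ((X / m + 1 : ℕ) : ℝ) := by exact_mod_cast hξ2
        nlinarith
      have him : (i : ℝ) + 1 ≤ m := by exact_mod_cast hi
      have hi0 : (0 : ℝ) ≤ i := Nat.cast_nonneg i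
      have hα0 : 0 ≤ α := le_trans (div_nonneg hi0 hm0.le) hα1
      have hα3 : α ≤ 1 := by
        refine hα2.le.trans ?_
        rw [div_le_one hm0]
        exact him
      obtain ⟨hd1, hd2⟩ := var_diff h α
      obtain ⟨hg1, hg2⟩ := var_geo m α
      have hKpos : 0 ≤ K * (((i : ℝ))⁻¹ + (((m - 1 - i : ℕ) : ℝ))⁻¹) :=
        mul_nonneg hK0 (add_nonneg (inv_nonneg.2 hi0) (inv_nonneg.2 (Nat.cast_nonneg _)))
      by_cases hend : i = 0 ∨ i = m - 1
      · have hnd : nd α ≤ 1 / m := by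
          rcases hend with h0 | h0
          · have h3 := var_nd_le α 0
            rw [h0] at hα2
            simp only [Nat.cast_zero, zero_add] at hα2
            rw [Int.cast_zero, sub_zero, abs_of_nonneg hα0] at h3
            linarith
          · have h3 := var_nd_le α 1
            rw [Int.cast_one, abs_of_nonpos (by linarith)] at h3
            have h4 : (i : ℝ) = m - 1 := by
              rw [h0, Nat.cast_sub hm, Nat.cast_one]
            rw [h4] at hα1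
            have h5 : ((m : ℝ) - 1) / m = 1 - 1 / m := by field_simp
            linarith
        have hGi : G0 ≤ G i := by
          rw [hG]
          simp only
          rcases hend with h0 | h0
          · rw [if_pos h0]
            have : 0 ≤ (if i = m - 1 then G0 else 0) := by split_ifs <;> linarith
            linarith
          · rw [if_pos h0]
            have : 0 ≤ (if i = 0 then G0 else 0) := by split_ifs <;> linarith
            linarith
        refine le_trans ?_ hGi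
        rcases (abs_nonneg (α - round α)).eq_or_lt with h0 | h0
        · have h3 : nd α = 0 := h0.symm
          rw [h3, mul_zero, mul_zero] at hd2
          have h4 : ‖1 - ee (h * α)‖ = 0 := le_antisymm hd2 (norm_nonneg _)
          rw [h4]
          simpa using hG00
        · have h3 : 0 < nd α := h0
          exact var_near hA0 hX0.le hm0 hh0 h3 hnd (norm_nonneg _) hd1 hd2 (norm_nonneg _) hg1
            (var_sup2 h3 (hC X α (by omega) h3))
      · push Not at hend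
        set t : ℕ := min i (m - 1 - i) with ht
        have ht1 : 1 ≤ t := by omega
        have htr : (1 : ℝ) ≤ t := by exact_mod_cast ht1
        have hti : (t : ℝ) ≤ i := by exact_mod_cast (by omega : t ≤ i)
        have htm : (t : ℝ) + i + 1 ≤ m := by exact_mod_cast (by omega : t + i + 1 ≤ m)
        have hnd : (t : ℝ) / m ≤ nd α := by
          refine le_trans (le_min ?_ ?_) (var_nd_ge hα0 hα3)
          · exact (div_le_div_of_nonneg_right hti hm0.le).trans hα1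
          · have h5 : (t : ℝ) / m ≤ 1 - ((i : ℝ) + 1) / m := by
              rw [div_le_iff₀ hm0, sub_mul, div_mul_cancel₀ _ hm0.ne']
              linarith
            linarith
        have hndpos : 0 < nd α := lt_of_lt_of_le (by positivity) hnd
        have h6 := var_far hA0 hX0.le hm0 htr hnd (norm_nonneg _) hd1 (norm_nonneg _)
          (hg2 hndpos) (var_sup2 hndpos (hC X α (by omega) hndpos))
        refine h6.trans ?_
        have h7 : ((t : ℝ))⁻¹ ≤ ((i : ℝ))⁻¹ + (((m - 1 - i : ℕ) : ℝ))⁻¹ := by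
          rcases min_choice i (m - 1 - i) with h8 | h8
          · rw [ht, h8]
            have : 0 ≤ (((m - 1 - i : ℕ) : ℝ))⁻¹ := inv_nonneg.2 (Nat.cast_nonneg _)
            linarith
          · rw [ht, h8]
            have : 0 ≤ ((i : ℝ))⁻¹ := inv_nonneg.2 hi0
            linarith
        have h9 := mul_le_mul_of_nonneg_left h7 hK0
        have h10 : K * (((i : ℝ))⁻¹ + (((m - 1 - i : ℕ) : ℝ))⁻¹) ≤ G i := by
          rw [hG]
          simp only
          rw [if_neg hend.1, if_neg hend.2]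
          linarith
        exact h9.trans h10)
  -- the sum of the bounds
  have hsum : ∑ i ∈ range m, G i ≤ 2 * G0 + 2 * K * (1 + Real.log m) := by
    simp only [hG]
    rw [sum_add_distrib, sum_add_distrib, ← mul_sum, sum_add_distrib]
    have e1 : ∑ i ∈ range m, (if i = 0 then G0 else 0) ≤ G0 := by
      rw [sum_ite_eq' (range m) 0 (fun _ => G0)]
      split_ifs <;> linarith
    have e2 : ∑ i ∈ range m, (if i = m - 1 then G0 else 0) ≤ G0 := by
      rw [sum_ite_eq' (range m) (m - 1) (fun _ => G0)]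
      split_ifs <;> linarith
    have e3 := var_harm m hm
    have e4 : ∑ i ∈ range m, (((m - 1 - i : ℕ) : ℝ))⁻¹ = ∑ i ∈ range m, ((i : ℝ))⁻¹ :=
      sum_range_reflect (fun i => ((i : ℝ))⁻¹) m
    rw [e4]
    have e5 := mul_le_mul_of_nonneg_left e3 hK0
    nlinarith
  have hlogm : Real.log m ≤ L := by
    refine Real.log_le_log hm0 ?_
    nlinarith
  have hlogm0 : 0 ≤ Real.log m := Real.log_nonneg hmr
  have hG0le : G0 ≤ 21 * (A * m * (X : ℝ) ^ 2) := by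
    rw [hG0]
    have e1 : 4 * (X : ℝ) ^ 2 * m + 4 * q * (m : ℝ) ^ 2 + 13 * h * X * (m : ℝ) ^ 2 ≤
        21 * (m * (X : ℝ) ^ 2) := by
      have e2 : q * (m : ℝ) ^ 2 ≤ m * (X : ℝ) ^ 2 := by nlinarith
      have e3 : h * X * (m : ℝ) ^ 2 ≤ m * (X : ℝ) ^ 2 := by
        have := mul_le_mul_of_nonneg_left hmh (mul_nonneg hm0.le hX0.le)
        nlinarith
      nlinarith
    have := mul_le_mul_of_nonneg_left e1 hA0
    linarith
  have hKle : K ≤ 3 * (A * m * (X : ℝ) ^ 2) := by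
    rw [hK]
    have e1 : (X : ℝ) ^ 2 * m + q * (m : ℝ) ^ 2 + X * (m : ℝ) ^ 3 ≤ 3 * (m * (X : ℝ) ^ 2) := by
      have e2 : q * (m : ℝ) ^ 2 ≤ m * (X : ℝ) ^ 2 := by nlinarith
      have e3 : X * (m : ℝ) ^ 3 ≤ m * (X : ℝ) ^ 2 := by
        have := mul_le_mul_of_nonneg_left hm2 (mul_nonneg hm0.le hX0.le)
        nlinarith
      nlinarith
    have := mul_le_mul_of_nonneg_left e1 hA0
    linarith
  set Z : ℝ := m * (X : ℝ) ^ 2 with hZ
  have hZ0 : 0 ≤ Z := by rw [hZ]; positivity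
  have hAZ : A * m * (X : ℝ) ^ 2 = A * Z := by rw [hZ]; ring
  rw [hAZ] at hG0le hKle
  have hAZ0 : 0 ≤ A * Z := mul_nonneg hA0 hZ0
  have hsum2 : ∑ i ∈ range m, G i ≤ 54 * L * (A * Z) := by
    refine hsum.trans ?_
    have e1 : 2 * K * (1 + Real.log m) ≤ 2 * (3 * (A * Z)) * (2 * L) := by
      refine mul_le_mul (by linarith) (by linarith) (by linarith) (by linarith)
    nlinarith
  have hfin : 54 * L * (A * Z) ≤ L ^ (2 * C + 2) * Z := by
    have e1 : L ^ (2 * C + 2) = L ^ (2 * C) * (L * L) := by ring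
    rw [e1, hA]
    have e2 : 54 * L * (3 * (C : ℝ) ^ 2 * L ^ (2 * C) * Z) =
        L ^ (2 * C) * Z * (L * (162 * (C : ℝ) ^ 2)) := by ring
    have e3 : L ^ (2 * C) * (L * L) * Z = L ^ (2 * C) * Z * (L * L) := by ring
    rw [e2, e3]
    refine mul_le_mul_of_nonneg_left ?_ (by positivity)
    refine mul_le_mul_of_nonneg_left ?_ (by linarith)
    linarith
  have hQ0 : (0 : ℝ) ≤ (QQ.card : ℝ) / m := div_nonneg (Nat.cast_nonneg _) hm0.le
  refine hmain.trans ((mul_le_mul_of_nonneg_left (hsum2.trans hfin) hQ0).trans (le_of_eq ?_))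
  rw [hZ]
  field_simp

end Pool.Agent.AAN
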