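import Mathlib
import Pool.Agent.AAN.Asm0
import Pool.Agent.AAN.Sup
import Pool.Agent.AAN.Fou
import Pool.Agent.AAN.Var
import Pool.Agent.AAN.Avg
import Pool.Agent.AAN.Cor
import Pool.Agent.AAN.OmB
import Pool.Agent.AAN.Sml
import Pool.Agent.AAN.Dya
import Pool.Agent.AAN.Fin
import Pool.Agent.AAN.DeQ
import Pool.Agent.AAN.T4R
import Pool.Agent.GBQ.Asm
import Pool.Agent.GBQ.AsmU
import Pool.Agent.SI.Final
import Pool.Agent.EVN.Asm2

set_option autoImplicit false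

/-! Assembly. -/

namespace Pool.Agent.AAN

open Finset Filter
open Pool.Agent.GBQ (Admissible)
open Pool.Agent.EVN (Phi SolP DensP BigP)

theorem asm_low : GBQ.St_Low := GBQ.thm_Low' (GBQ.thm_BVw GV.bvw)

theorem asm_sup : GBQ.St_Sup := GBQ.thm_Sup' (GBQ.thm_SWAP GV.swap) GBQ.thm_Vin GBQ.thm_TypeI
  GBQ.thm_Geo

theorem asm_core : GBQ.St_Core := GBQ.thm_Core asm_low asm_sup GBQ.thm_L2 GBQ.thm_Bad

theorem asm_omB : St_OmB := thm_OmB EVN.thm_Ome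

theorem asm_Cor : St_Cor :=
  thm_Cor (thm_Var (thm_Sup GBQ.thm_Vin) thm_Fou) (thm_Avg SI.gap) GBQ.thm_Bad

theorem asm_T4 : T4H 1 5 Phi := by
  intro ε hε
  obtain ⟨n₀, h⟩ := EVN.t4phi ε hε
  refine ⟨n₀, fun n m hn hm h2 => ?_⟩
  obtain ⟨g1, g2⟩ := h n m hn hm h2
  refine ⟨g1, fun h12 => ?_⟩
  rw [one_mul]
  exact g2 h12

/-- the theorem with `n/(log n)^5` -/
theorem fin5 : FinH 1 5 Phi :=
  asm_one EVN.densP asm_monoP asm_Cor
    (thm_Sml asm_core GBQ.thm_Red GBQ.thm_Good asm_omB) asm_T4 (thm_Fin thm_Dya)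

theorem densQ : DensPk 2 Phi :=
  thm_DeQ asm_low GBQ.thm_Bad (SI.thm_RU SI.thm_Fq) GBQ.thm_RhoLow asm_omB

theorem t4r : ∃ c : ℝ, 0 < c ∧ T4H c 3 Phi := thm_T4R SI.gap EVN.bigP densQ

theorem cor3 : ∃ c : ℝ, 0 < c ∧ CorH c 3 Phi := asm_Cor 2 Phi densQ asm_monoP

theorem asm_le {c c' : ℝ} (h : c' ≤ c) (n j : ℕ) (hn : 3 ≤ n) :
    c' * n / Real.log n ^ j ≤ c * n / Real.log n ^ j := by
  have h1 : 0 < Real.log n := Real.log_pos (by exact_mod_cast (by omega : 1 < n))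
  apply div_le_div_of_nonneg_right _ (by positivity)
  exact mul_le_mul_of_nonneg_right h (Nat.cast_nonneg _)

theorem asm_corH {c c' : ℝ} {j : ℕ} {Φ : ℕ → ℕ → Prop} (hc : c' ≤ c) (h : CorH c j Φ) :
    CorH c' j Φ := by
  obtain ⟨C, h⟩ := h
  refine ⟨C, ?_⟩
  filter_upwards [h, eventually_ge_atTop 16] with X hX h16
  intro m hm hmX F hF
  refine hX m hm hmX F fun n hn => ?_
  obtain ⟨g1, g2, g3⟩ := hF n hn
  exact ⟨g1, g2, lt_of_lt_of_le g3 (asm_le hc n j (by omega))⟩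

theorem asm_smlH {c c' : ℝ} {j : ℕ} {Φ : ℕ → ℕ → Prop} (hc : c' ≤ c) (h : SmlH c j Φ) :
    SmlH c' j Φ := by
  intro A D
  filter_upwards [h A D, eventually_ge_atTop 16] with X hX h16
  intro m hm hmX F hF
  refine hX m hm hmX F fun n hn => ?_
  obtain ⟨g1, g2, g3, g4⟩ := hF n hn
  exact ⟨g1, g2, g3, lt_of_lt_of_le g4 (asm_le hc n j (by omega))⟩

theorem asm_t4H {c c' : ℝ} {j : ℕ} {Φ : ℕ → ℕ → Prop} (hc : c' ≤ c) (h : T4H c j Φ) :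
    T4H c' j Φ := by
  intro ε hε
  obtain ⟨n₀, h⟩ := h ε hε
  refine ⟨max n₀ 3, fun n m hn hm h2 => ?_⟩
  obtain ⟨g1, g2⟩ := h n m ((le_max_left _ _).trans hn) hm h2
  exact ⟨g1, fun h12 => (asm_le hc n j ((le_max_right _ _).trans hn)).trans (g2 h12)⟩

/-- the theorem with the right order of magnitude, from the estimate for small `m` -/
theorem fin3 (h : St_SmR) : ∃ c : ℝ, 0 < c ∧ FinH c 3 Phi := by
  obtain ⟨c₁, h1, h2⟩ := h
  obtain ⟨c₂, h3, h4⟩ := t4r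
  obtain ⟨c₃, h5, h6⟩ := cor3
  obtain ⟨c, hc⟩ : ∃ c : ℝ, c = min c₁ (min c₂ c₃) := ⟨_, rfl⟩
  have e1 : c ≤ c₁ := by rw [hc]; exact min_le_left _ _
  have e2 : c ≤ c₂ := by rw [hc]; exact (min_le_right _ _).trans (min_le_left _ _)
  have e3 : c ≤ c₃ := by rw [hc]; exact (min_le_right _ _).trans (min_le_right _ _)
  have e4 : 0 < c := by rw [hc]; exact lt_min h1 (lt_min h3 h5)
  exact ⟨c, e4, thm_Fin thm_Dya c 3 Phi e4 (asm_corH e3 h6) (asm_smlH e1 h2) (asm_t4H e2 h4)⟩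

end Pool.Agent.AAN
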